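import Pool.Agent.W348.C1

set_option autoImplicit false

namespace Pool.Agent.W348

/-- permutations of a set act on the free group -/
def permAut (X : Type) : Equiv.Perm X →* MulAut (FreeGroup X) where
  toFun e := FreeGroup.freeGroupCongr e
  map_one' := by
    ext x
    simp
  map_mul' e e' := by
    ext x
    simp [FreeGroup.map.comp]

lemma permAut_of {X : Type} (e : Equiv.Perm X) (x : X) :
    permAut X e (FreeGroup.of x) = FreeGroup.of (e x) := by
  simp [permAut]

section
variable {ι Q : Type} [Group Q] (b : ι → Q)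

/-- the action of `F × Q` on the set `Q` -/
def actQ : FreeGroup ι × Q →* Equiv.Perm Q where
  toFun g := (Equiv.mulRight g.2⁻¹).trans (Equiv.mulLeft (FreeGroup.lift b g.1))
  map_one' := by
    ext p
    simp
  map_mul' g h := by
    ext p
    simp [mul_assoc]

lemma actQ_apply (g : FreeGroup ι × Q) (p : Q) : actQ b g p = FreeGroup.lift b g.1 * p * g.2⁻¹ := by
  simp [actQ, mul_assoc]

/-- the group `G₁` -/
abbrev G1 : Type := FreeGroup Q ⋊[(permAut Q).comp (actQ b)] (FreeGroup ι × Q)

/-- the projection to `Q` -/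
def p1 : G1 b →* Q := (MonoidHom.snd (FreeGroup ι) Q).comp SemidirectProduct.rightHom

lemma p1_surj : Function.Surjective (p1 b) := fun q =>
  ⟨SemidirectProduct.inr (1, q), by simp [p1]⟩

/-- the generator `a_i` -/
def ga (f : FreeGroup ι) : G1 b := SemidirectProduct.inr (f, 1)
/-- the element of `Q` -/
def gq : Q →* G1 b := SemidirectProduct.inr.comp (MonoidHom.inr _ _)
/-- the free generator -/
def gx (p : Q) : G1 b := SemidirectProduct.inl (FreeGroup.of p)

lemma ga_mul (f f' : FreeGroup ι) : ga b (f * f') = ga b f * ga b f' := by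
  rw [ga, ga, ga, ← map_mul]
  simp

lemma inr_eq (g : FreeGroup ι × Q) : (SemidirectProduct.inr g : G1 b) = ga b g.1 * gq b g.2 := by
  rw [ga, gq, MonoidHom.comp_apply, ← map_mul]
  simp

lemma conj_gx (g : FreeGroup ι × Q) (p : Q) :
    (SemidirectProduct.inr g : G1 b) * gx b p * (SemidirectProduct.inr g : G1 b)⁻¹ =
      gx b (FreeGroup.lift b g.1 * p * g.2⁻¹) := by
  rw [gx, gx, ← map_inv, ← SemidirectProduct.inl_aut, MonoidHom.comp_apply, permAut_of, actQ_apply]

lemma mem_of_parts (H : Subgroup (G1 b)) (h1 : ∀ f, ga b f ∈ H) (h2 : ∀ q, gq b q ∈ H)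
    (h3 : ∀ p, gx b p ∈ H) : H = ⊤ := by
  rw [eq_top_iff]
  rintro ⟨w, g⟩ _
  rw [SemidirectProduct.mk_eq_inl_mul_inr]
  apply H.mul_mem
  · have h : FreeGroup.lift (fun p => gx b p) = (SemidirectProduct.inl : FreeGroup Q →* G1 b) := by
      apply FreeGroup.ext_hom
      intro p
      simp [gx]
    rw [← h]
    have : ((FreeGroup.lift (fun p => gx b p)) w) ∈ (FreeGroup.lift (fun p => gx b p)).range := ⟨w, rfl⟩
    rw [FreeGroup.range_lift_eq_closure] at this
    refine (Subgroup.closure_le H).2 ?_ this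
    rintro _ ⟨p, rfl⟩
    exact h3 p
  · rw [inr_eq]
    exact H.mul_mem (h1 _) (h2 _)

theorem ker_fg [Finite ι] (hb : Function.Surjective (FreeGroup.lift b)) : Group.FG (p1 b).ker := by
  classical
  have : Fintype ι := Fintype.ofFinite ι
  rw [Group.fg_iff_subgroup_fg]
  refine ⟨insert (gx b 1) (Finset.univ.image (fun i => ga b (FreeGroup.of i))), ?_⟩
  apply le_antisymm
  · rw [Subgroup.closure_le]
    intro x hx
    rw [Finset.coe_insert, Finset.coe_image] at hx
    rcases hx with rfl | ⟨i, _, rfl⟩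
    · simp [p1, gx]
    · simp [p1, ga]
  · set H := Subgroup.closure ((insert (gx b 1) (Finset.univ.image (fun i => ga b (FreeGroup.of i))) : Finset (G1 b)) : Set (G1 b)) with hH
    have h1 : ∀ f, ga b f ∈ H := by
      intro f
      let φ : FreeGroup ι →* G1 b := SemidirectProduct.inr.comp (MonoidHom.inl _ _)
      have h : FreeGroup.lift (fun i => ga b (FreeGroup.of i)) = φ := by
        apply FreeGroup.ext_hom
        intro p
        simp [φ, ga]
      have h' : ga b f = φ f := by simp [φ, ga]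
      rw [h', ← h]
      have : ((FreeGroup.lift (fun i => ga b (FreeGroup.of i))) f) ∈ (FreeGroup.lift (fun i => ga b (FreeGroup.of i))).range := ⟨f, rfl⟩
      rw [FreeGroup.range_lift_eq_closure] at this
      refine (Subgroup.closure_le H).2 ?_ this
      rintro _ ⟨p, rfl⟩
      apply Subgroup.subset_closure
      simp
    have h0 : gx b 1 ∈ H := by
      apply Subgroup.subset_closure
      simp
    have h3 : ∀ p, gx b p ∈ H := by
      intro p
      obtain ⟨f, hf⟩ := hb p
      have := conj_gx b (f, 1) 1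
      rw [hf, inv_one, mul_one, mul_one] at this
      rw [← this]
      exact H.mul_mem (H.mul_mem (h1 f) h0) (H.inv_mem (h1 f))
    rintro ⟨w, g⟩ hg
    have hg2 : g.2 = 1 := hg
    rw [SemidirectProduct.mk_eq_inl_mul_inr]
    apply H.mul_mem
    · have h : FreeGroup.lift (fun p => gx b p) = (SemidirectProduct.inl : FreeGroup Q →* G1 b) := by
        apply FreeGroup.ext_hom
        intro p
        simp [gx]
      rw [← h]
      have : ((FreeGroup.lift (fun p => gx b p)) w) ∈ (FreeGroup.lift (fun p => gx b p)).range := ⟨w, rfl⟩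
      rw [FreeGroup.range_lift_eq_closure] at this
      refine (Subgroup.closure_le H).2 ?_ this
      rintro _ ⟨p, rfl⟩
      exact h3 p
    · rw [inr_eq, hg2, map_one, mul_one]
      exact h1 _

/-- universal property of `G₁` -/
lemma G1_univ (hb : Function.Surjective (FreeGroup.lift b)) (K : Type) [Group K] (φ : Q →* K) (k : Option ι → K)
    (h1 : ∀ i j, k (some i) * φ (b j) = φ (b j) * k (some i))
    (h2 : ∀ i, k none * (k (some i) * φ (b i)) = (k (some i) * φ (b i)) * k none) :
    ∃ ψ : G1 b →* K, (∀ q, ψ (gq b q) = φ q) ∧ (∀ i, ψ (ga b (FreeGroup.of i)) = k (some i)) ∧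
      ψ (gx b 1) = k none := by
  let kF : FreeGroup ι →* K := FreeGroup.lift (fun i => k (some i))
  have c1 : ∀ (f : FreeGroup ι) (q : Q), Commute (kF f) (φ q) := by
    intro f q
    obtain ⟨g, rfl⟩ := hb q
    have hc : ∀ i, ∀ g : FreeGroup ι, Commute (k (some i)) (φ (FreeGroup.lift b g)) := by
      intro i g
      have : (φ.comp (FreeGroup.lift b)).range ≤ Subgroup.centralizer {k (some i)} := by
        have h : φ.comp (FreeGroup.lift b) = FreeGroup.lift (fun j => φ (b j)) := by
          apply FreeGroup.ext_hom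
          intro p
          simp
        rw [h, FreeGroup.range_lift_eq_closure, Subgroup.closure_le]
        rintro _ ⟨j, rfl⟩
        intro y hy
        rw [Set.mem_singleton_iff] at hy
        rw [hy]
        exact h1 i j
      exact (this ⟨g, rfl⟩) _ rfl
    have : kF.range ≤ Subgroup.centralizer {φ (FreeGroup.lift b g)} := by
      rw [FreeGroup.range_lift_eq_closure, Subgroup.closure_le]
      rintro _ ⟨j, rfl⟩
      intro y hy
      rw [Set.mem_singleton_iff] at hy
      rw [hy]
      exact (hc j g).symm.eq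
    exact ((this ⟨f, rfl⟩) _ rfl).symm
  let s : FreeGroup ι × Q →* K := MonoidHom.noncommCoprod kF φ c1
  have s_apply : ∀ g, s g = kF g.1 * φ g.2 := fun g => rfl
  have c2 : ∀ f : FreeGroup ι, Commute (k none) (kF f * φ (FreeGroup.lift b f)) := by
    intro f
    let σ : FreeGroup ι →* K := s.comp (MonoidHom.prod (MonoidHom.id _) (FreeGroup.lift b))
    have : σ.range ≤ Subgroup.centralizer {k none} := by
      have h : σ = FreeGroup.lift (fun j => k (some j) * φ (b j)) := by
        apply FreeGroup.ext_hom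
        intro p
        simp [σ, s_apply, kF]
      rw [h, FreeGroup.range_lift_eq_closure, Subgroup.closure_le]
      rintro _ ⟨j, rfl⟩
      intro y hy
      rw [Set.mem_singleton_iff] at hy
      rw [hy]
      exact h2 j
    exact (this ⟨f, rfl⟩) _ rfl
  let f1 : FreeGroup Q →* K := FreeGroup.lift (fun p => φ p⁻¹ * k none * φ p)
  let ψ : G1 b →* K := SemidirectProduct.lift f1 s (by
    intro g
    apply FreeGroup.ext_hom
    intro p
    have e1 : f1 (((permAut Q).comp (actQ b)) g (FreeGroup.of p)) =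
        φ (FreeGroup.lift b g.1 * p * g.2⁻¹)⁻¹ * k none * φ (FreeGroup.lift b g.1 * p * g.2⁻¹) := by
      rw [MonoidHom.comp_apply, permAut_of, actQ_apply]
      simp [f1]
    have e2 : (MulAut.conj (s g)) (f1 (FreeGroup.of p)) =
        s g * (φ p⁻¹ * k none * φ p) * (s g)⁻¹ := by
      simp [f1]
    change f1 (((permAut Q).comp (actQ b)) g (FreeGroup.of p)) = (MulAut.conj (s g)) (f1 (FreeGroup.of p))
    rw [e1, e2, s_apply]
    have h3 := (c2 g.1).eq
    have h4 := c1 g.1
    generalize FreeGroup.lift b g.1 = r at h3 ⊢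
    generalize kF g.1 = c at h3 h4 ⊢
    have h5 := (h4 g.2).eq
    have h6 := (h4 p⁻¹).eq
    have h7 := (h4 p).eq
    have h8 : c * k none * c⁻¹ = (φ r)⁻¹ * k none * φ r := by
      have h9 := (h4 r).eq
      have : c = (φ r)⁻¹ * (c * φ r) := by rw [h9, inv_mul_cancel_left]
      calc c * k none * c⁻¹ = ((φ r)⁻¹ * (c * φ r)) * k none * ((φ r)⁻¹ * (c * φ r))⁻¹ := by rw [← this]
        _ = (φ r)⁻¹ * ((c * φ r) * k none) * (c * φ r)⁻¹ * φ r := by group
        _ = (φ r)⁻¹ * (k none * (c * φ r)) * (c * φ r)⁻¹ * φ r := by rw [h3]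
        _ = _ := by group
    have h10 : c * φ g.2 * (φ p⁻¹ * k none * φ p) * (c * φ g.2)⁻¹ =
        φ g.2 * φ p⁻¹ * (c * k none * c⁻¹) * φ p * (φ g.2)⁻¹ := by
      have e3 : c * φ g.2 * φ p⁻¹ = φ g.2 * φ p⁻¹ * c := by
        rw [h5, mul_assoc, h6, mul_assoc]
      have e4 : c * φ g.2 = φ g.2 * c := h5
      have e5 : φ p * c⁻¹ = c⁻¹ * φ p := by
        rw [eq_inv_mul_iff_mul_eq, ← mul_assoc, h7, mul_assoc, mul_inv_cancel, mul_one]
      calc c * φ g.2 * (φ p⁻¹ * k none * φ p) * (c * φ g.2)⁻¹
          = (c * φ g.2 * φ p⁻¹) * k none * (φ p * (c * φ g.2)⁻¹) := by group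
        _ = (φ g.2 * φ p⁻¹ * c) * k none * (φ p * (φ g.2 * c)⁻¹) := by rw [e3, e4]
        _ = (φ g.2 * φ p⁻¹ * c) * k none * (φ p * c⁻¹) * (φ g.2)⁻¹ := by group
        _ = (φ g.2 * φ p⁻¹ * c) * k none * (c⁻¹ * φ p) * (φ g.2)⁻¹ := by rw [e5]
        _ = _ := by group
    rw [h10, h8]
    simp only [mul_inv_rev, inv_inv, map_mul, map_inv]
    group)
  refine ⟨ψ, ?_, ?_, ?_⟩
  · intro q
    simp [ψ, gq, s_apply]
  · intro i
    simp [ψ, ga, s_apply, kF]
  · simp [ψ, gx, f1]

theorem G1_fp [Finite ι] (hb : Function.Surjective (FreeGroup.lift b))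
    (hQ : Module.FinitePresentation (MonoidAlgebra ℤ Q) (augI ℤ Q)) :
    Module.FinitePresentation (MonoidAlgebra ℤ (G1 b)) (augI ℤ (G1 b)) := by
  classical
  have : Fintype ι := Fintype.ofFinite ι
  let t : Option ι → G1 b := fun o => o.elim (gx b 1) (fun i => ga b (FreeGroup.of i))
  let W := Monoid.Coprod Q (FreeGroup (Option ι))
  let iq : Q → W := fun q => Monoid.Coprod.inl q
  let ic : Option ι → W := fun c => Monoid.Coprod.inr (FreeGroup.of c)
  let r1 : ι → ι → W := fun i j => (ic (some i) * iq (b j)) * (iq (b j) * ic (some i))⁻¹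
  let r2 : ι → W := fun i => (ic none * (ic (some i) * iq (b i))) * ((ic (some i) * iq (b i)) * ic none)⁻¹
  let rels : Finset W := (Finset.univ.image (fun p : ι × ι => r1 p.1 p.2)) ∪ (Finset.univ.image r2)
  have lift_r1 : ∀ (K : Type) [Group K] (φ : Q →* K) (k : Option ι → K) (i j),
      Monoid.Coprod.lift φ (FreeGroup.lift k) (r1 i j) = 1 ↔ k (some i) * φ (b j) = φ (b j) * k (some i) := by
    intro K _ φ k i j
    simp only [r1, ic, iq, map_mul, map_inv, Monoid.Coprod.lift_apply_inl, Monoid.Coprod.lift_apply_inr,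
      FreeGroup.lift_apply_of]
    rw [mul_inv_eq_one]
  have lift_r2 : ∀ (K : Type) [Group K] (φ : Q →* K) (k : Option ι → K) (i),
      Monoid.Coprod.lift φ (FreeGroup.lift k) (r2 i) = 1 ↔
        k none * (k (some i) * φ (b i)) = (k (some i) * φ (b i)) * k none := by
    intro K _ φ k i
    simp only [r2, ic, iq, map_mul, map_inv, Monoid.Coprod.lift_apply_inl, Monoid.Coprod.lift_apply_inr,
      FreeGroup.lift_apply_of]
    rw [mul_inv_eq_one]
  apply relFP (gq b) t rels _ _ _ hQ
  · intro r hr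
    rcases Finset.mem_union.1 hr with h | h
    · obtain ⟨⟨i, j⟩, _, rfl⟩ := Finset.mem_image.1 h
      rw [lift_r1]
      change ga b (FreeGroup.of i) * gq b (b j) = gq b (b j) * ga b (FreeGroup.of i)
      simp [ga, gq, ← map_mul]
    · obtain ⟨i, _, rfl⟩ := Finset.mem_image.1 h
      rw [lift_r2]
      change gx b 1 * (ga b (FreeGroup.of i) * gq b (b i)) = (ga b (FreeGroup.of i) * gq b (b i)) * gx b 1
      have h1 := conj_gx b (FreeGroup.of i, b i) 1
      rw [inr_eq, FreeGroup.lift_apply_of, mul_one, mul_inv_cancel] at h1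
      rw [mul_inv_eq_iff_eq_mul] at h1
      exact h1.symm
  · intro K _ φ k hk
    have m1 : ∀ i j, r1 i j ∈ rels := fun i j =>
      Finset.mem_union.2 (Or.inl (Finset.mem_image.2 ⟨(i, j), Finset.mem_univ _, rfl⟩))
    have m2 : ∀ i, r2 i ∈ rels := fun i =>
      Finset.mem_union.2 (Or.inr (Finset.mem_image.2 ⟨i, Finset.mem_univ _, rfl⟩))
    obtain ⟨ψ, h1, h2, h3⟩ := G1_univ b hb K φ k
      (fun i j => (lift_r1 K φ k i j).1 (hk _ (m1 i j)))
      (fun i => (lift_r2 K φ k i).1 (hk _ (m2 i)))
    refine ⟨ψ, h1, ?_⟩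
    intro c
    cases c with
    | none => exact h3
    | some i => exact h2 i
  · set H := Subgroup.closure (Set.range (gq b) ∪ Set.range t) with hH
    have h2 : ∀ q, gq b q ∈ H := fun q => Subgroup.subset_closure (Or.inl ⟨q, rfl⟩)
    have h1' : ∀ i, ga b (FreeGroup.of i) ∈ H := fun i => Subgroup.subset_closure (Or.inr ⟨some i, rfl⟩)
    have h3' : gx b 1 ∈ H := Subgroup.subset_closure (Or.inr ⟨none, rfl⟩)
    have h3 : ∀ p, gx b p ∈ H := by
      intro p
      have := conj_gx b (1, p⁻¹) 1
      rw [map_one, one_mul, one_mul, inv_inv, inr_eq] at this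
      have h4 : ga b (1 : FreeGroup ι) = 1 := map_one (SemidirectProduct.inr : _ →* G1 b)
      rw [h4, one_mul] at this
      rw [← this]
      exact H.mul_mem (H.mul_mem (h2 _) h3') (H.inv_mem (h2 _))
    apply mem_of_parts b H _ h2 h3
    intro f
    let φ : FreeGroup ι →* G1 b := SemidirectProduct.inr.comp (MonoidHom.inl _ _)
    have h : FreeGroup.lift (fun i => ga b (FreeGroup.of i)) = φ := by
      apply FreeGroup.ext_hom
      intro p
      simp [φ, ga]
    have h' : ga b f = φ f := by simp [φ, ga]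
    rw [h', ← h]
    have : ((FreeGroup.lift (fun i => ga b (FreeGroup.of i))) f) ∈ (FreeGroup.lift (fun i => ga b (FreeGroup.of i))).range := ⟨f, rfl⟩
    rw [FreeGroup.range_lift_eq_closure] at this
    refine (Subgroup.closure_le H).2 ?_ this
    rintro _ ⟨p, rfl⟩
    exact h1' p

end

theorem free_fp (ι : Type) [Finite ι] :
    Module.FinitePresentation (MonoidAlgebra ℤ (FreeGroup ι)) (augI ℤ (FreeGroup ι)) := by
  classical
  have h0 : Subsingleton (augI ℤ Unit) := by
    constructor
    intro x y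
    have key : ∀ z : MonoidAlgebra ℤ Unit, z = algebraMap ℤ _ (eps ℤ Unit z) := by
      intro z
      induction z using MonoidAlgebra.induction_linear with
      | zero => simp
      | add a b ha hb => rw [map_add, map_add, ← ha, ← hb]
      | single g n =>
        rw [eps_single, Algebra.algebraMap_eq_smul_one, single_eq]
        rfl
    apply Subtype.ext
    rw [key x.1, key y.1]
    have hx : eps ℤ Unit x.1 = 0 := x.2
    have hy : eps ℤ Unit y.1 = 0 := y.2
    rw [hx, hy]
  have h1 : Module.FinitePresentation (MonoidAlgebra ℤ Unit) (augI ℤ Unit) := inferInstance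
  apply relFP (1 : Unit →* FreeGroup ι) (FreeGroup.of) ∅ (by simp) _ _ h1
  · intro K _ φ k _
    refine ⟨FreeGroup.lift k, ?_, ?_⟩
    · intro γ
      have : γ = 1 := rfl
      rw [this, map_one, map_one, map_one]
    · intro j
      simp
  · rw [eq_top_iff, ← FreeGroup.closure_range_of]
    exact Subgroup.closure_mono Set.subset_union_right

end Pool.Agent.W348
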