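import Pool.Agent.W348.H4
import Pool.Agent.W348.D1

set_option autoImplicit false
open CategoryTheory

namespace Pool.Agent.W348

section concrete

open Dat

lemma third_exists (i j : Fin 3) (hij : i ≠ j) : ∃ k : Fin 3, k ≠ i ∧ k ≠ j ∧ ∀ c, c = i ∨ c = j ∨ c = k := by
  revert i j
  decide

lemma hT_concrete : ∀ s t, adjF s t → ∀ G : Fin 3 → Option (Fin 21), G (colF s) = none → G (colF t) = none →
    (∃ c, G c ≠ none) →
    TF (Function.update G (colF t) (some t)) s * TF G t = TF (Function.update G (colF s) (some s)) t * TF G s := by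
  intro s t hst G hGs hGt hG
  have hij := colF_ne s t hst
  obtain ⟨k, hk1, hk2, hk3⟩ := third_exists _ _ hij
  obtain ⟨c, hc⟩ := hG
  have hck : c = k := by
    rcases hk3 c with h | h | h
    · exact absurd (h ▸ hGs) hc
    · exact absurd (h ▸ hGt) hc
    · exact h
  subst hck
  obtain ⟨g, hg⟩ := Option.ne_none_iff_exists'.1 hc
  have h1 : G = sgk c g := by
    funext d
    rw [sgk]
    by_cases hd : d = c
    · rw [if_pos hd, hd, hg]
    · rw [if_neg hd]
      rcases hk3 d with h | h | h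
      · rw [h]; exact hGs
      · rw [h]; exact hGt
      · exact absurd h hd
  have h2 : ∀ (j : Fin 3) (u : Fin 21), Function.update (sgk c g) j (some u) = dbk c g j u := by
    intro j u
    funext d
    rw [dbk]
    by_cases hd : d = j
    · rw [if_pos hd, hd, Function.update_self]
    · rw [if_neg hd, Function.update_of_ne hd, sgk]
  rw [h1, h2, h2]
  ext i
  rw [Equiv.Perm.mul_apply, Equiv.Perm.mul_apply, chkT s t hst c hk1 hk2 g i]

theorem chkConn : ∀ u : Fin 21, u = 4 ∨ adjF u 4 ∨ ∃ w, adjF u w ∧ adjF w 4 := by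
  decide +kernel

lemma conn_concrete : ∀ u v, Relation.ReflTransGen adjF u v := by
  have h1 : ∀ u, Relation.ReflTransGen adjF u 4 := by
    intro u
    rcases chkConn u with h | h | ⟨w, h2, h3⟩
    · rw [h]
    · exact Relation.ReflTransGen.single h
    · exact (Relation.ReflTransGen.single h2).tail h3
  have h2 : ∀ u, Relation.ReflTransGen adjF 4 u := by
    intro u
    rcases chkConn u with h | h | ⟨w, h2, h3⟩
    · rw [h]
    · exact Relation.ReflTransGen.single (adjF_symm _ _ h)
    · exact (Relation.ReflTransGen.single (adjF_symm _ _ h3)).tail (adjF_symm _ _ h2)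
  intro u v
  exact (h1 u).trans (h2 v)

theorem chkP : adjF 0 5 ∧ adjF 5 1 ∧ adjF 1 9 ∧ adjF 9 2 ∧ adjF 2 6 ∧ adjF 6 0 := by
  decide +kernel

theorem chkH : hol colF TF (0 : Fin 21) [5, 1, 9, 2, 6, 0] (0 : Fin 5) ≠ 0 := by
  decide +kernel

theorem P_not_fp : ¬ Module.FinitePresentation (MonoidAlgebra ℤ (FP (bb adjF))) (augI ℤ (FP (bb adjF))) := by
  refine fibre_not_fp adjF conn_concrete adjF_symm colF TF colF_ne hT_concrete (0 : Fin 21) [5, 1, 9, 2, 6, 0]
    ?_ rfl ?_
  · obtain ⟨h1, h2, h3, h4, h5, h6⟩ := chkP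
    exact ⟨h1, h2, h3, h4, h5, h6, trivial⟩
  · intro h
    apply chkH
    rw [h]
    rfl

theorem H_FPn : FPn (MonoidAlgebra ℤ (HH adjF)) 3
    (MonoidAlgebra ℤ (Raag adjF) ⧸ LinearMap.ker (toTT ℤ (Raag adjF))) :=
  bb_FPn adjF adjF_symm adjF_irr (kexF _) (HH adjF) (chi adjF) (chi_gn adjF) (mem_HH adjF)

/-- type `FP_3` for the level-zero subgroup, in the language of representations -/
theorem H_rep : ∃ R : ProjectiveResolution (Rep.trivial ℤ (HH adjF) ℤ), ∀ k ≤ 3,
        ∃ s : Finset (R.complex.X k).V, ∀ x : (R.complex.X k).V,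
          x ∈ Submodule.span ℤ
            (Set.range (fun p : (HH adjF) × s => (R.complex.X k).ρ p.1 (p.2 : (R.complex.X k).V))) := by
  let e0 := (toTT ℤ (Raag adjF)).quotKerEquivOfSurjective toTT_surj
  let e : (MonoidAlgebra ℤ (Raag adjF) ⧸ LinearMap.ker (toTT ℤ (Raag adjF))) ≃+ ℤ :=
    e0.toAddEquiv.trans (TTe ℤ (Raag adjF))
  have he : ∀ r : MonoidAlgebra ℤ (Raag adjF), e (Submodule.Quotient.mk r) = eps ℤ (Raag adjF) r := by
    intro r
    exact toTT_apply r
  refine rep_of_FPn 3 _ e ?_ H_FPn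
  intro g x
  obtain ⟨r, rfl⟩ := Submodule.Quotient.mk_surjective _ x
  have h1 : (MonoidAlgebra.single g (1 : ℤ) : MonoidAlgebra ℤ (HH adjF)) •
      (Submodule.Quotient.mk r : MonoidAlgebra ℤ (Raag adjF) ⧸ LinearMap.ker (toTT ℤ (Raag adjF))) =
      Submodule.Quotient.mk (inclH (HH adjF) (MonoidAlgebra.single g (1 : ℤ)) * r) := rfl
  rw [h1, he, he, map_mul, inclH_single, eps_single, one_mul]

/-- the augmentation ideal of the level-zero subgroup is finitely presented -/
theorem H_fp : Module.FinitePresentation (MonoidAlgebra ℤ (HH adjF)) (augI ℤ (HH adjF)) := by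
  apply augI_fp_of_rep
  obtain ⟨R, hR⟩ := H_rep
  exact ⟨R, fun k hk => hR k (hk.trans (by decide))⟩

end concrete

end Pool.Agent.W348
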