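import Mathlib

set_option autoImplicit false

open CategoryTheory

namespace Pool.Agent.W348

variable {G : Type} [Group G]

section
variable {k : Type} [CommRing k]

lemma rep_exact (S : ShortComplex (Rep.{0} k G))
    (h : ∀ x : S.X₂, S.g.hom x = 0 → ∃ y : S.X₁, S.f.hom y = x) : S.Exact := by
  rw [← ShortComplex.exact_map_iff_of_faithful S (forget₂ (Rep.{0} k G) (ModuleCat.{0} k))]
  rw [ShortComplex.moduleCat_exact_iff]
  exact h

lemma exact_rep (S : ShortComplex (Rep.{0} k G)) (hS : S.Exact) :
    ∀ x : S.X₂, S.g.hom x = 0 → ∃ y : S.X₁, S.f.hom y = x := by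
  rw [← ShortComplex.exact_map_iff_of_faithful S (forget₂ (Rep.{0} k G) (ModuleCat.{0} k))] at hS
  rw [ShortComplex.moduleCat_exact_iff] at hS
  exact hS

lemma rep_zero {X Y : Rep.{0} k G} (f : X ⟶ Y) (h : ∀ x : X, f.hom x = 0) : f = 0 := by
  ext x
  exact h x

end

section Splice

/-- data for splicing -/
structure SpliceData (G : Type) [Group G] where
  M : Rep.{0} ℤ G
  P : Rep.{0} ℤ G
  K : Rep.{0} ℤ G
  f : P ⟶ M
  i : K ⟶ P
  res : ProjectiveResolution K
  pP : Projective P
  surj : Function.Surjective f.hom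
  inj : Function.Injective i.hom
  ex : ∀ x : P, f.hom x = 0 ↔ ∃ y : K, i.hom y = x

namespace SpliceData

variable (E : SpliceData G)

/-- objects -/
noncomputable def X : ℕ → Rep.{0} ℤ G
  | 0 => E.P
  | n + 1 => E.res.complex.X n

/-- augmentation of the tail -/
noncomputable def p0 : E.res.complex.X 0 ⟶ E.K := E.res.π.f 0

lemma d_p0 : E.res.complex.d 1 0 ≫ E.p0 = 0 := E.res.complex_d_comp_π_f_zero

/-- differentials -/
noncomputable def d : (n : ℕ) → (E.X (n + 1) ⟶ E.X n)
  | 0 => E.p0 ≫ E.i
  | n + 1 => E.res.complex.d (n + 1) n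

lemma sq : ∀ n, E.d (n + 1) ≫ E.d n = 0
  | 0 => by
    have h : E.res.complex.d 1 0 ≫ (E.p0 ≫ E.i) = 0 := by
      rw [← Category.assoc, E.d_p0, Limits.zero_comp]
    exact h
  | n + 1 => E.res.complex.d_comp_d _ _ _

/-- the complex -/
noncomputable def cx : ChainComplex (Rep.{0} ℤ G) ℕ := ChainComplex.of E.X E.d E.sq

lemma cx_d (n : ℕ) : E.cx.d (n + 1) n = E.d n := by
  unfold cx
  exact ChainComplex.of_d _ _ _

lemma res_pi_surj : Function.Surjective E.p0.hom := by
  have h : Epi (E.res.π.f 0) := inferInstance
  exact (Rep.epi_iff_surjective _).1 h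

lemma d_exact : ∀ (n : ℕ) (x : E.X (n + 1)), (E.d n).hom x = 0 →
    ∃ y : E.X (n + 2), (E.d (n + 1)).hom y = x
  | 0, x, hx => by
    have h1 : E.p0.hom x = 0 := by
      apply E.inj
      exact hx.trans (map_zero E.i.hom).symm
    exact exact_rep _ E.res.exact₀ x h1
  | n + 1, x, hx => by
    exact exact_rep _ (E.res.exact_succ n) x hx

lemma proj : ∀ n, Projective (E.X n)
  | 0 => E.pP
  | n + 1 => E.res.projective n

lemma comp0 : E.cx.d 1 0 ≫ E.f = 0 := by
  rw [cx_d]
  apply rep_zero
  intro x
  exact (E.ex (E.i.hom (E.p0.hom x))).2 ⟨_, rfl⟩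

/-- the augmentation -/
noncomputable def pi : E.cx ⟶ (ChainComplex.single₀ (Rep.{0} ℤ G)).obj E.M :=
  (E.cx.toSingle₀Equiv _).symm ⟨E.f, E.comp0⟩

lemma quasi : QuasiIso E.pi where
  quasiIsoAt m := by
    cases m with
    | zero =>
      rw [ChainComplex.quasiIsoAt₀_iff, ShortComplex.quasiIso_iff_of_zeros' _ rfl rfl rfl]
      constructor
      · apply rep_exact
        intro x hx
        have hx' : E.f.hom x = 0 := by
          have h1 : E.pi.f 0 = E.f := by
            unfold pi
            exact congrArg Subtype.val ((E.cx.toSingle₀Equiv _).apply_symm_apply ⟨E.f, E.comp0⟩)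
          rw [← h1]
          exact hx
        obtain ⟨y, hy⟩ := (E.ex x).1 hx'
        obtain ⟨z, hz⟩ := E.res_pi_surj y
        refine ⟨z, ?_⟩
        rw [← hy, ← hz]
        have h2 := E.cx_d 0
        change (E.cx.d 1 0).hom z = _
        rw [h2]
        rfl
      · rw [Rep.epi_iff_surjective]
        intro x
        obtain ⟨y, hy⟩ := E.surj x
        exact ⟨y, hy⟩
    | succ m =>
      rw [quasiIsoAt_iff_exactAt' (hL := ChainComplex.exactAt_succ_single_obj ..),
          HomologicalComplex.exactAt_iff' _ (m + 2) (m + 1) m (by simp) (by simp)]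
      apply rep_exact
      intro x hx
      have hx' : (E.d m).hom x = 0 := by
        rw [← E.cx_d m]
        exact hx
      obtain ⟨y, hy⟩ := E.d_exact m x hx'
      refine ⟨y, ?_⟩
      rw [← hy]
      have h2 := E.cx_d (m + 1)
      change (E.cx.d (m + 2) (m + 1)).hom y = _
      rw [h2]
      rfl

/-- the projective resolution -/
noncomputable def out : ProjectiveResolution E.M where
  complex := E.cx
  projective n := E.proj n
  π := E.pi
  quasiIso := E.quasi

lemma out_X_zero : E.out.complex.X 0 = E.P := rfl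
lemma out_X_succ (n : ℕ) : E.out.complex.X (n + 1) = E.res.complex.X n := rfl

end SpliceData

end Splice

/-- Type `FP_n` for modules, by iterated finitely generated projective covers. -/
def FPn (R : Type) [Ring R] : ℕ → (M : Type) → [AddCommGroup M] → [Module R M] → Prop
  | 0, M, _, _ => Module.Finite R M
  | n + 1, M, _, _ => ∃ (P : Type) (_ : AddCommGroup P) (_ : Module R P)
      (f : P →ₗ[R] M), Module.Finite R P ∧ Module.Projective R P ∧ Function.Surjective f ∧
      FPn R n (LinearMap.ker f)

/-- a module over the group ring as a representation -/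
noncomputable def actRep (M : Type) [AddCommGroup M] [Module (MonoidAlgebra ℤ G) M] :
    Representation ℤ G M where
  toFun g := (AddMonoidHom.toIntLinearMap
    (DistribSMul.toAddMonoidHom M (MonoidAlgebra.single g (1 : ℤ) : MonoidAlgebra ℤ G)))
  map_one' := by
    ext x
    change (MonoidAlgebra.single 1 (1 : ℤ) : MonoidAlgebra ℤ G) • x = x
    rw [← MonoidAlgebra.one_def, one_smul]
  map_mul' g h := by
    ext x
    change (MonoidAlgebra.single (g * h) (1 : ℤ) : MonoidAlgebra ℤ G) • x =
      (MonoidAlgebra.single g (1 : ℤ) : MonoidAlgebra ℤ G) • ((MonoidAlgebra.single h (1 : ℤ) : MonoidAlgebra ℤ G) • x)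
    rw [smul_smul, MonoidAlgebra.single_mul_single, mul_one]

lemma actRep_apply (M : Type) [AddCommGroup M] [Module (MonoidAlgebra ℤ G) M] (g : G) (x : M) :
    actRep M g x = (MonoidAlgebra.single g (1 : ℤ) : MonoidAlgebra ℤ G) • x := rfl

lemma actRep_smul (M : Type) [AddCommGroup M] [Module (MonoidAlgebra ℤ G) M]
    (r : MonoidAlgebra ℤ G) (x : M) :
    (actRep (G := G) M).asAlgebraHom r x = r • x := by
  induction r using MonoidAlgebra.induction_linear with
  | zero => simp
  | add a b ha hb => rw [map_add, LinearMap.add_apply, ha, hb, add_smul]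
  | single g n =>
    rw [Representation.asAlgebraHom_single, LinearMap.smul_apply, actRep_apply]
    have : (MonoidAlgebra.single g n : MonoidAlgebra ℤ G) = n • MonoidAlgebra.single g (1 : ℤ) := by
      rw [MonoidAlgebra.smul_single, smul_eq_mul, mul_one]
    rw [this, smul_assoc]

/-- `asModule` of `actRep` is the module -/
noncomputable def asModEquiv (M : Type) [AddCommGroup M] [Module (MonoidAlgebra ℤ G) M] :
    (actRep (G := G) M).asModule ≃ₗ[MonoidAlgebra ℤ G] M :=
  { (actRep (G := G) M).asModuleEquiv.toAddEquiv with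
    map_smul' := by
      intro r x
      change (actRep (G := G) M).asModuleEquiv (r • x) = r • (actRep (G := G) M).asModuleEquiv x
      rw [Representation.asModuleEquiv_map_smul, actRep_smul] }

lemma proj_rep (M : Type) [AddCommGroup M] [Module (MonoidAlgebra ℤ G) M]
    (h : Module.Projective (MonoidAlgebra ℤ G) M) : Projective (Rep.of (actRep (G := G) M)) := by
  rw [← Rep.equivalenceModuleMonoidAlgebra.map_projective_iff]
  change Projective (ModuleCat.of (MonoidAlgebra ℤ G) (actRep (G := G) M).asModule)
  rw [← IsProjective.iff_projective]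
  exact Module.Projective.of_equiv (asModEquiv M).symm

/-- a linear map as a morphism of representations -/
noncomputable def mapRep {M N : Type} [AddCommGroup M] [Module (MonoidAlgebra ℤ G) M]
    [AddCommGroup N] [Module (MonoidAlgebra ℤ G) N] (f : M →ₗ[MonoidAlgebra ℤ G] N) :
    Rep.of (actRep (G := G) M) ⟶ Rep.of (actRep (G := G) N) :=
  Rep.ofHom
    { toLinearMap := f.toAddMonoidHom.toIntLinearMap
      isIntertwining' := by
        intro g
        ext x
        change f ((MonoidAlgebra.single g (1 : ℤ) : MonoidAlgebra ℤ G) • x) = _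
        rw [map_smul]
        rfl }

lemma mapRep_apply {M N : Type} [AddCommGroup M] [Module (MonoidAlgebra ℤ G) M]
    [AddCommGroup N] [Module (MonoidAlgebra ℤ G) N] (f : M →ₗ[MonoidAlgebra ℤ G] N) (x : M) :
    (mapRep (G := G) f).hom x = f x := rfl

/-- finite generation of a representation in the sense of the frozen statement -/
def RFG (X : Rep.{0} ℤ G) : Prop :=
  ∃ s : Finset X.V, ∀ x : X.V,
          x ∈ Submodule.span ℤ (Set.range (fun p : G × s => X.ρ p.1 (p.2 : X.V)))

lemma span_stable (X : Rep.{0} ℤ G) (s : Finset X.V) (g : G) (x : X.V)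
    (hx : x ∈ Submodule.span ℤ (Set.range (fun p : G × s => X.ρ p.1 (p.2 : X.V)))) :
    X.ρ g x ∈ Submodule.span ℤ (Set.range (fun p : G × s => X.ρ p.1 (p.2 : X.V))) := by
  refine Submodule.span_induction ?_ ?_ ?_ ?_ hx
  · rintro _ ⟨⟨g', t⟩, rfl⟩
    apply Submodule.subset_span
    refine ⟨(g * g', t), ?_⟩
    change X.ρ (g * g') _ = X.ρ g _
    rw [map_mul]
    rfl
  · rw [map_zero]
    exact Submodule.zero_mem _
  · intro a b _ _ ha hb
    rw [map_add]
    exact Submodule.add_mem _ ha hb
  · intro n a _ ha
    have h1 : X.ρ g (n • a) = n • X.ρ g a := map_zsmul (X.ρ g) n a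
    rw [h1]
    exact Submodule.smul_mem _ _ ha

lemma rfg_of_finite (M : Type) [AddCommGroup M] [Module (MonoidAlgebra ℤ G) M]
    (h : Module.Finite (MonoidAlgebra ℤ G) M) : RFG (Rep.of (actRep (G := G) M)) := by
  classical
  obtain ⟨s, hs⟩ := h.fg_top
  refine ⟨s, ?_⟩
  intro x
  have hx : x ∈ Submodule.span (MonoidAlgebra ℤ G) (s : Set M) := by
    rw [hs]; trivial
  refine Submodule.span_induction (p := fun (z : M) _ =>
    z ∈ Submodule.span ℤ (Set.range (fun p : G × s =>
      (Rep.of (actRep (G := G) M)).ρ p.1 (p.2 : M)))) ?_ ?_ ?_ ?_ hx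
  · intro y hy
    apply Submodule.subset_span
    refine ⟨(1, ⟨y, hy⟩), ?_⟩
    change (actRep (G := G) M) 1 y = y
    rw [map_one]
    rfl
  · exact Submodule.zero_mem _
  · intro a b _ _ ha hb
    exact Submodule.add_mem _ ha hb
  · intro r y _ hy
    induction r using MonoidAlgebra.induction_linear with
    | zero =>
      rw [zero_smul]
      exact Submodule.zero_mem _
    | add a b ha hb =>
      rw [add_smul]
      exact Submodule.add_mem _ ha hb
    | single g n =>
      have : (MonoidAlgebra.single g n : MonoidAlgebra ℤ G) = n • MonoidAlgebra.single g (1 : ℤ) := by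
        rw [MonoidAlgebra.smul_single, smul_eq_mul, mul_one]
      rw [this, smul_assoc]
      exact Submodule.smul_mem _ _ (span_stable (Rep.of (actRep (G := G) M)) s g y hy)

lemma exists_res (n : ℕ) : ∀ (M : Type) [AddCommGroup M] [Module (MonoidAlgebra ℤ G) M],
    FPn (MonoidAlgebra ℤ G) n M → ∃ Q : ProjectiveResolution (Rep.of (actRep (G := G) M)), ∀ k ≤ n,
      RFG (Q.complex.X k) := by
  induction n with
  | zero =>
    intro M _ _ hM
    have hM' : Module.Finite (MonoidAlgebra ℤ G) M := hM
    obtain ⟨k, f, hf⟩ := Module.Finite.exists_fin' (MonoidAlgebra ℤ G) M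
    let E : SpliceData G :=
      { M := Rep.of (actRep (G := G) M)
        P := Rep.of (actRep (G := G) (Fin k → MonoidAlgebra ℤ G))
        K := Rep.of (actRep (G := G) (LinearMap.ker f))
        f := mapRep f
        i := mapRep (LinearMap.ker f).subtype
        res := ProjectiveResolution.of _
        pP := by
          apply proj_rep
          infer_instance
        surj := hf
        inj := Subtype.val_injective
        ex := by
          intro x
          constructor
          · intro h
            exact ⟨⟨x, h⟩, rfl⟩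
          · rintro ⟨y, rfl⟩
            exact y.2 }
    refine ⟨E.out, ?_⟩
    intro j hj
    obtain rfl : j = 0 := by omega
    change RFG (Rep.of (actRep (G := G) (Fin k → MonoidAlgebra ℤ G)))
    apply rfg_of_finite
    infer_instance
  | succ n ih =>
    intro M _ _ hM
    obtain ⟨P, hP1, hP2, f, h1, h2, hf, hK⟩ := hM
    obtain ⟨Q, hQ⟩ := ih _ hK
    let E : SpliceData G :=
      { M := Rep.of (actRep (G := G) M)
        P := Rep.of (actRep (G := G) P)
        K := Rep.of (actRep (G := G) (LinearMap.ker f))
        f := mapRep f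
        i := mapRep (LinearMap.ker f).subtype
        res := Q
        pP := by
          apply proj_rep
          exact h2
        surj := hf
        inj := Subtype.val_injective
        ex := by
          intro x
          constructor
          · intro h
            exact ⟨⟨x, h⟩, rfl⟩
          · rintro ⟨y, rfl⟩
            exact y.2 }
    refine ⟨E.out, ?_⟩
    intro j hj
    cases j with
    | zero =>
      change RFG (Rep.of (actRep (G := G) P))
      exact rfg_of_finite _ h1
    | succ j =>
      change RFG (Q.complex.X j)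
      exact hQ j (by omega)

/-- transport of a projective resolution along an isomorphism -/
noncomputable def resOfIso {Z Z' : Rep.{0} ℤ G}
    (P : ProjectiveResolution Z) (e : Z ≅ Z') : ProjectiveResolution Z' where
  complex := P.complex
  projective := P.projective
  π := P.π ≫ (ChainComplex.single₀ (Rep.{0} ℤ G)).map e.hom
  quasiIso := inferInstance

/-- an additive iso with trivial action gives an isomorphism -/
noncomputable def trivIso (T : Type) [AddCommGroup T] [Module (MonoidAlgebra ℤ G) T] (e : T ≃+ ℤ)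
    (he : ∀ (g : G) (x : T), e (MonoidAlgebra.single g (1 : ℤ) • x) = e x) :
    Rep.of (actRep (G := G) T) ≅ Rep.trivial ℤ G ℤ :=
  Rep.mkIso (.mk e.toIntLinearEquiv (fun g => by
      ext x
      exact he g x))

theorem rep_of_FPn (n : ℕ) (T : Type) [AddCommGroup T] [Module (MonoidAlgebra ℤ G) T] (e : T ≃+ ℤ)
    (he : ∀ (g : G) (x : T), e (MonoidAlgebra.single g (1 : ℤ) • x) = e x)
    (h : FPn (MonoidAlgebra ℤ G) n T) :
    ∃ R : ProjectiveResolution (Rep.trivial ℤ G ℤ), ∀ k ≤ n,
        ∃ s : Finset (R.complex.X k).V, ∀ x : (R.complex.X k).V,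
          x ∈ Submodule.span ℤ
            (Set.range (fun p : G × s => (R.complex.X k).ρ p.1 (p.2 : (R.complex.X k).V))) := by
  obtain ⟨Q, hQ⟩ := exists_res n T h
  exact ⟨resOfIso Q (trivIso T e he), hQ⟩

end Pool.Agent.W348
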