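import Pool.Agent.W348.A1

set_option autoImplicit false

open CategoryTheory

namespace Pool.Agent.W348

section general
variable {R : Type} [Ring R]

lemma schanuel_fp {M P Q : Type} [AddCommGroup M] [Module R M] [AddCommGroup P] [Module R P]
    [AddCommGroup Q] [Module R Q] (f : P →ₗ[R] M) (g : Q →ₗ[R] M) (hf : Function.Surjective f)
    (hg : Function.Surjective g) [Module.Finite R P] [Module.Projective R P]
    [Module.Finite R Q] [Module.Projective R Q]
    (hK : Module.FinitePresentation R (LinearMap.ker f)) :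
    Module.FinitePresentation R (LinearMap.ker g) := by
  let X : Submodule R (P × Q) := LinearMap.ker (f.comp (LinearMap.fst R P Q) - g.comp (LinearMap.snd R P Q))
  have memX : ∀ x : P × Q, x ∈ X ↔ f x.1 = g x.2 := by
    intro x
    rw [LinearMap.mem_ker, LinearMap.sub_apply, sub_eq_zero]
    rfl
  let πQ : X →ₗ[R] Q := (LinearMap.snd R P Q).comp X.subtype
  let πP : X →ₗ[R] P := (LinearMap.fst R P Q).comp X.subtype
  have hπQ : Function.Surjective πQ := by
    intro q
    obtain ⟨p, hp⟩ := hf (g q)
    exact ⟨⟨(p, q), (memX _).2 hp⟩, rfl⟩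
  have hπP : Function.Surjective πP := by
    intro p
    obtain ⟨q, hq⟩ := hg (f p)
    exact ⟨⟨(p, q), (memX _).2 hq.symm⟩, rfl⟩
  let e : LinearMap.ker f ≃ₗ[R] LinearMap.ker πQ :=
    { toFun := fun p => ⟨⟨((p : P), (0 : Q)), (memX _).2 (by
          change f p = g 0
          rw [map_zero]; exact p.2)⟩, rfl⟩
      invFun := fun x => ⟨x.1.1.1, by
        have h1 := (memX _).1 x.1.2
        have h2 : x.1.1.2 = 0 := x.2
        rw [LinearMap.mem_ker, h1, h2, map_zero]⟩
      map_add' := by
        intro a b
        apply Subtype.ext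
        apply Subtype.ext
        ext <;> simp
      map_smul' := by
        intro a b
        apply Subtype.ext
        apply Subtype.ext
        ext <;> simp
      left_inv := by
        intro p
        rfl
      right_inv := by
        intro x
        apply Subtype.ext
        apply Subtype.ext
        have h2 : x.1.1.2 = 0 := x.2
        ext
        · rfl
        · exact h2.symm }
  have : Module.FinitePresentation R Q := Module.finitePresentation_of_projective R Q
  have : Module.FinitePresentation R (LinearMap.ker πQ) := 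
    Module.FinitePresentation.of_equiv (R := R) (M := LinearMap.ker f) (N := LinearMap.ker πQ) e
  have : Module.FinitePresentation R X := Module.finitePresentation_of_ker πQ hπQ
  obtain ⟨s, hs⟩ := Module.projective_lifting_property πP LinearMap.id hπP
  have hs' : ∀ p, (s p).1.1 = p := fun p => LinearMap.congr_fun hs p
  let φ : X →ₗ[R] LinearMap.ker g := LinearMap.codRestrict _
    (πQ.comp (LinearMap.id - s.comp πP)) (by
      intro x
      rw [LinearMap.mem_ker]
      have h1 := (memX _).1 (x - s (πP x)).2
      have h2 : ((x - s (πP x) : X) : P × Q).1 = 0 := by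
        change x.1.1 - (s (πP x)).1.1 = 0
        rw [hs']
        exact sub_self _
      rw [h2, map_zero] at h1
      exact h1.symm)
  have hφ : Function.Surjective φ := by
    rintro ⟨q, hq⟩
    refine ⟨⟨(0, q), (memX _).2 ?_⟩, ?_⟩
    · change f 0 = g q
      rw [map_zero]
      exact hq.symm
    · apply Subtype.ext
      change q - (s 0).1.2 = q
      rw [map_zero]
      exact sub_zero _
  have hker : LinearMap.ker φ = LinearMap.range s := by
    ext x
    constructor
    · intro hx
      refine ⟨πP x, ?_⟩
      have h1 : ((x - s (πP x) : X) : P × Q).2 = 0 := congrArg Subtype.val hx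
      have h2 : ((x - s (πP x) : X) : P × Q).1 = 0 := by
        change x.1.1 - (s (πP x)).1.1 = 0
        rw [hs']
        exact sub_self _
      have h3 : x - s (πP x) = 0 := Subtype.ext (Prod.ext h2 h1)
      exact (sub_eq_zero.1 h3).symm
    · rintro ⟨p, rfl⟩
      apply Subtype.ext
      change (s p).1.2 - (s (s p).1.1).1.2 = 0
      rw [hs']
      exact sub_self _
  apply Module.finitePresentation_of_surjective φ hφ
  rw [hker, ← Submodule.map_top]
  exact Submodule.FG.map _ Module.Finite.fg_top

end general

variable (k G : Type) [CommRing k] [Group G]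

/-- the augmentation -/
noncomputable def eps : MonoidAlgebra k G →+* k :=
  (MonoidAlgebra.lift k k G (1 : G →* k) : MonoidAlgebra k G →ₐ[k] k).toRingHom

variable {k G}

@[simp] lemma eps_single (g : G) (n : k) : eps k G (MonoidAlgebra.single g n) = n := by
  simp [eps]

variable (k G)

/-- the augmentation ideal, as a left ideal -/
noncomputable def augI : Submodule (MonoidAlgebra k G) (MonoidAlgebra k G) := RingHom.ker (eps k G)

variable {k G}

lemma mem_augI (x : MonoidAlgebra k G) : x ∈ augI k G ↔ eps k G x = 0 := Iff.rfl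

variable (k G)

/-- the trivial module -/
abbrev TT : Type := (Rep.trivial k G k).ρ.asModule

/-- value in the integers -/
noncomputable def TTe : TT k G ≃+ k := (Rep.trivial k G k).ρ.asModuleEquiv.toAddEquiv

variable {k G}

lemma TT_smul (r : MonoidAlgebra k G) (x : TT k G) : TTe k G (r • x) = eps k G r * TTe k G x := by
  induction r using MonoidAlgebra.induction_linear with
  | zero => simp
  | add a b ha hb => rw [add_smul, map_add, ha, hb, map_add, add_mul]
  | single g n =>
    rw [eps_single, Representation.single_smul]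
    rfl

variable (k G)

/-- the map from the group ring to the trivial module -/
noncomputable def toTT : MonoidAlgebra k G →ₗ[MonoidAlgebra k G] TT k G :=
  LinearMap.toSpanSingleton _ _ ((TTe k G).symm 1)

variable {k G}

lemma toTT_apply (r : MonoidAlgebra k G) : TTe k G (toTT k G r) = eps k G r := by
  rw [toTT, LinearMap.toSpanSingleton_apply, TT_smul, AddEquiv.apply_symm_apply, mul_one]

lemma toTT_surj : Function.Surjective (toTT k G) := by
  intro x
  refine ⟨MonoidAlgebra.single 1 (TTe k G x), ?_⟩
  apply (TTe k G).injective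
  rw [toTT_apply, eps_single]

lemma ker_toTT : LinearMap.ker (toTT k G) = augI k G := by
  ext x
  rw [LinearMap.mem_ker, mem_augI, ← toTT_apply]
  exact ((TTe k G).map_eq_zero_iff).symm

lemma FPn_two_of_augI (h : Module.FinitePresentation (MonoidAlgebra k G) (augI k G)) :
    FPn (MonoidAlgebra k G) 2 (TT k G) := by
  refine ⟨MonoidAlgebra k G, inferInstance, inferInstance, toTT k G, inferInstance, inferInstance,
    toTT_surj, ?_⟩
  rw [ker_toTT]
  obtain ⟨n, f, hf⟩ := Module.Finite.exists_fin' (MonoidAlgebra k G) (augI k G)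
  refine ⟨Fin n → MonoidAlgebra k G, inferInstance, inferInstance, f, inferInstance, inferInstance,
    hf, ?_⟩
  change Module.Finite _ _
  rw [Module.Finite.iff_fg]
  exact Module.FinitePresentation.fg_ker f hf

/-- a morphism of representations as a linear map -/
noncomputable def toMod {X Y : Rep.{0} k G} (f : X ⟶ Y) :
    X.ρ.asModule →ₗ[MonoidAlgebra k G] Y.ρ.asModule :=
  (Rep.toModuleMonoidAlgebra.map f).hom

lemma toMod_apply {X Y : Rep.{0} k G} (f : X ⟶ Y) (x : X.ρ.asModule) :
    toMod f x = f.hom (X.ρ.asModuleEquiv x) := rfl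

/-- finite generation of a representation -/
def RFGk (X : Rep.{0} k G) : Prop :=
  ∃ s : Finset X.V, ∀ x : X.V,
          x ∈ Submodule.span k (Set.range (fun p : G × s => X.ρ p.1 (p.2 : X.V)))

lemma finite_of_rfg (X : Rep.{0} k G) (h : RFGk X) : Module.Finite (MonoidAlgebra k G) X.ρ.asModule := by
  classical
  obtain ⟨s, hs⟩ := h
  refine ⟨⟨s.image (fun x => X.ρ.asModuleEquiv.symm x), ?_⟩⟩
  rw [eq_top_iff]
  intro x _
  have hx := hs (X.ρ.asModuleEquiv x)
  rw [← X.ρ.asModuleEquiv.symm_apply_apply x]
  revert hx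
  generalize X.ρ.asModuleEquiv x = y
  intro hy
  refine Submodule.span_induction ?_ ?_ ?_ ?_ hy
  · rintro _ ⟨⟨g, t⟩, rfl⟩
    have : X.ρ.asModuleEquiv.symm (X.ρ g (t : X.V)) =
        (MonoidAlgebra.single g (1 : k) : MonoidAlgebra k G) • X.ρ.asModuleEquiv.symm (t : X.V) := by
      rw [Representation.single_smul]
      rw [LinearEquiv.apply_symm_apply, one_smul]
      rfl
    change X.ρ.asModuleEquiv.symm (X.ρ g (t : X.V)) ∈ _
    rw [this]
    apply Submodule.smul_mem
    apply Submodule.subset_span
    simp only [Finset.coe_image]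
    exact ⟨t.1, t.2, rfl⟩
  · rw [map_zero]
    exact Submodule.zero_mem _
  · intro a b _ _ ha hb
    rw [map_add]
    exact Submodule.add_mem _ ha hb
  · intro n a _ ha
    have h1 : X.ρ.asModuleEquiv.symm (n • a) = (MonoidAlgebra.single (1 : G) n : MonoidAlgebra k G) •
        X.ρ.asModuleEquiv.symm a := by
      rw [Representation.single_smul, map_one]
      rfl
    rw [h1]
    exact Submodule.smul_mem _ _ ha

lemma projective_of_rep (X : Rep.{0} k G) (h : Projective X) :
    Module.Projective (MonoidAlgebra k G) X.ρ.asModule := by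
  rw [← Rep.equivalenceModuleMonoidAlgebra.map_projective_iff] at h
  change Projective (ModuleCat.of (MonoidAlgebra k G) X.ρ.asModule) at h
  rw [← IsProjective.iff_projective] at h
  exact h

theorem augI_fp_of_rep_gen
    (R : ProjectiveResolution (Rep.trivial k G k)) (hR : ∀ j ≤ 2, RFGk (R.complex.X j)) :
    Module.FinitePresentation (MonoidAlgebra k G) (augI k G) := by
  let X0 := R.complex.X 0
  let X1 := R.complex.X 1
  let X2 := R.complex.X 2
  let d1 : X1 ⟶ X0 := R.complex.d 1 0
  let d2 : X2 ⟶ X1 := R.complex.d 2 1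
  let ep : X0 ⟶ Rep.trivial k G k := R.π.f 0
  have e0 : ∀ x : X0, ep.hom x = 0 → ∃ y : X1, d1.hom y = x := exact_rep _ R.exact₀
  have e1 : ∀ x : X1, d1.hom x = 0 → ∃ y : X2, d2.hom y = x := exact_rep _ (R.exact_succ 0)
  have hs : Function.Surjective ep.hom := by
    have h : Epi (R.π.f 0) := inferInstance
    exact (Rep.epi_iff_surjective _).1 h
  have c01 : d1 ≫ ep = 0 := R.complex_d_comp_π_f_zero
  have c12 : d2 ≫ d1 = 0 := R.complex.d_comp_d _ _ _
  have : Module.Finite (MonoidAlgebra k G) X0.ρ.asModule := finite_of_rfg _ (hR 0 (by norm_num))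
  have : Module.Finite (MonoidAlgebra k G) X1.ρ.asModule := finite_of_rfg _ (hR 1 (by norm_num))
  have : Module.Finite (MonoidAlgebra k G) X2.ρ.asModule := finite_of_rfg _ (hR 2 (by norm_num))
  have : Module.Projective (MonoidAlgebra k G) X0.ρ.asModule := projective_of_rep _ (R.projective 0)
  have : Module.Projective (MonoidAlgebra k G) X1.ρ.asModule := projective_of_rep _ (R.projective 1)
  have : Module.FinitePresentation (MonoidAlgebra k G) X1.ρ.asModule :=
    Module.finitePresentation_of_projective _ _
  have comp01 : ∀ x : X1.ρ.asModule, toMod ep (toMod d1 x) = 0 := by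
    intro x
    have : (d1 ≫ ep).hom (X1.ρ.asModuleEquiv x) = 0 := by rw [c01]; rfl
    exact this
  have comp12 : ∀ x : X2.ρ.asModule, toMod d1 (toMod d2 x) = 0 := by
    intro x
    have : (d2 ≫ d1).hom (X2.ρ.asModuleEquiv x) = 0 := by rw [c12]; rfl
    exact this
  let q : X1.ρ.asModule →ₗ[MonoidAlgebra k G] LinearMap.ker (toMod ep) :=
    LinearMap.codRestrict _ (toMod d1) comp01
  have hq : Function.Surjective q := by
    rintro ⟨x, hx⟩
    obtain ⟨y, hy⟩ := e0 x hx
    exact ⟨y, Subtype.ext hy⟩
  have hkq : LinearMap.ker q = LinearMap.range (toMod d2) := by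
    ext x
    constructor
    · intro hx
      obtain ⟨y, hy⟩ := e1 x (congrArg Subtype.val hx)
      exact ⟨y, hy⟩
    · rintro ⟨y, rfl⟩
      exact Subtype.ext (comp12 y)
  have hK0 : Module.FinitePresentation (MonoidAlgebra k G) (LinearMap.ker (toMod ep)) := by
    apply Module.finitePresentation_of_surjective q hq
    rw [hkq, ← Submodule.map_top]
    exact Submodule.FG.map _ Module.Finite.fg_top
  have hsur : Function.Surjective (toMod ep) := hs
  have := schanuel_fp (toMod ep) (toTT k G) hsur toTT_surj hK0
  rwa [ker_toTT] at this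

lemma rfgk_of_rfg (X : Rep.{0} ℤ G) (h : RFG X) : RFGk X := by
  obtain ⟨s, hs⟩ := h
  refine ⟨s, ?_⟩
  revert hs
  generalize (Set.range (fun p : G × s => X.ρ p.1 (p.2 : X.V))) = S
  intro hs x
  have e : X.hV2 = AddCommGroup.toIntModule X.V := Subsingleton.elim _ _
  rw [e]
  exact hs x

theorem augI_fp_of_rep
    (h : ∃ R : ProjectiveResolution (Rep.trivial ℤ G ℤ), ∀ k ≤ 2,
        ∃ s : Finset (R.complex.X k).V, ∀ x : (R.complex.X k).V,
          x ∈ Submodule.span ℤ
            (Set.range (fun p : G × s => (R.complex.X k).ρ p.1 (p.2 : (R.complex.X k).V)))) :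
    Module.FinitePresentation (MonoidAlgebra ℤ G) (augI ℤ G) := by
  obtain ⟨R, hR⟩ := h
  exact augI_fp_of_rep_gen R (fun j hj => rfgk_of_rfg _ (hR j hj))

theorem rep_of_FPn' (n : ℕ) (h : FPn (MonoidAlgebra ℤ G) n (TT ℤ G)) :
    ∃ R : ProjectiveResolution (Rep.trivial ℤ G ℤ), ∀ k ≤ n,
        ∃ s : Finset (R.complex.X k).V, ∀ x : (R.complex.X k).V,
          x ∈ Submodule.span ℤ
            (Set.range (fun p : G × s => (R.complex.X k).ρ p.1 (p.2 : (R.complex.X k).V))) := by
  apply rep_of_FPn n (TT ℤ G) (TTe ℤ G) _ h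
  intro g x
  rw [TT_smul, eps_single, one_mul]

theorem rep_of_augI_fp (h : Module.FinitePresentation (MonoidAlgebra ℤ G) (augI ℤ G)) :
    ∃ R : ProjectiveResolution (Rep.trivial ℤ G ℤ), ∀ k ≤ 2,
        ∃ s : Finset (R.complex.X k).V, ∀ x : (R.complex.X k).V,
          x ∈ Submodule.span ℤ
            (Set.range (fun p : G × s => (R.complex.X k).ρ p.1 (p.2 : (R.complex.X k).V))) :=
  rep_of_FPn' 2 (FPn_two_of_augI h)

end Pool.Agent.W348
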