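import Pool.Agent.W348.B1

set_option autoImplicit false

namespace Pool.Agent.W348

open MonoidAlgebra

/-- the group element `g` in the group ring -/
noncomputable abbrev gs {G : Type} [Group G] (g : G) : MonoidAlgebra ℤ G := MonoidAlgebra.single g (1 : ℤ)

lemma gs_one {G : Type} [Group G] : gs (1 : G) = 1 := rfl

lemma gs_mul {G : Type} [Group G] (g h : G) : gs (g * h) = gs g * gs h := by
  rw [gs, gs, gs, MonoidAlgebra.single_mul_single, one_mul]

lemma single_eq {G : Type} [Group G] (g : G) (n : ℤ) : (MonoidAlgebra.single g n : MonoidAlgebra ℤ G) = n • gs g := by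
  rw [gs, MonoidAlgebra.smul_single, smul_eq_mul, mul_one]

/-- pairs (module element, group element) with the semidirect multiplication -/
@[ext] structure Cr (G M : Type) where
  m : M
  g : G

namespace Cr

variable {G M : Type} [Group G] [AddCommGroup M] [Module (MonoidAlgebra ℤ G) M]

noncomputable instance : Mul (Cr G M) := ⟨fun a b => ⟨a.m + gs a.g • b.m, a.g * b.g⟩⟩
noncomputable instance : One (Cr G M) := ⟨⟨0, 1⟩⟩
noncomputable instance : Inv (Cr G M) := ⟨fun a => ⟨-(gs a.g⁻¹ • a.m), a.g⁻¹⟩⟩

@[simp] lemma mul_m (a b : Cr G M) : (a * b).m = a.m + gs a.g • b.m := rfl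
@[simp] lemma mul_g (a b : Cr G M) : (a * b).g = a.g * b.g := rfl
@[simp] lemma one_m : (1 : Cr G M).m = 0 := rfl
@[simp] lemma one_g : (1 : Cr G M).g = 1 := rfl
@[simp] lemma inv_m (a : Cr G M) : (a⁻¹).m = -(gs a.g⁻¹ • a.m) := rfl
@[simp] lemma inv_g (a : Cr G M) : (a⁻¹).g = a.g⁻¹ := rfl

noncomputable instance : Group (Cr G M) :=
  Group.ofLeftAxioms
    (by
      intro a b c
      ext
      · simp only [mul_m, mul_g, smul_add, smul_smul, gs_mul, add_assoc]
      · simp only [mul_g, mul_assoc])
    (by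
      intro a
      ext
      · rw [mul_m, one_m, one_g, gs_one, one_smul, zero_add]
      · rw [mul_g, one_g, one_mul])
    (by
      intro a
      ext
      · rw [mul_m, inv_m, inv_g, neg_add_cancel, one_m]
      · rw [mul_g, inv_g, inv_mul_cancel, one_g])

/-- the projection to the group -/
noncomputable def toG : Cr G M →* G where
  toFun a := a.g
  map_one' := rfl
  map_mul' _ _ := rfl

/-- functoriality in the module -/
noncomputable def map {N : Type} [AddCommGroup N] [Module (MonoidAlgebra ℤ G) N]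
    (f : M →ₗ[MonoidAlgebra ℤ G] N) : Cr G M →* Cr G N where
  toFun a := ⟨f a.m, a.g⟩
  map_one' := by
    ext
    · simp
    · rfl
  map_mul' a b := by
    ext
    · simp
    · rfl

end Cr

section der

variable {G M : Type} [Group G] [AddCommGroup M] [Module (MonoidAlgebra ℤ G) M]

/-- additive extension of a function on the group -/
noncomputable def dExt (D : G → M) : MonoidAlgebra ℤ G →+ M :=
  (Finsupp.liftAddHom (fun g => zmultiplesHom M (D g))).comp
    (MonoidAlgebra.coeffAddEquiv (R := ℤ) (M := G)).toAddMonoidHom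

lemma dExt_single (D : G → M) (g : G) (n : ℤ) : dExt D (MonoidAlgebra.single g n) = n • D g := by
  simp [dExt]

lemma dExt_gs (D : G → M) (g : G) : dExt D (gs g) = D g := by
  rw [gs, dExt_single, one_smul]

lemma dExt_mul (D : G → M) (hD : ∀ g h, D (g * h) = D g + gs g • D h) (r s : MonoidAlgebra ℤ G) :
    dExt D (r * s) = eps ℤ G s • dExt D r + r • dExt D s := by
  induction r using MonoidAlgebra.induction_linear with
  | zero => simp
  | add a b ha hb =>
    rw [add_mul, map_add, ha, hb, map_add, smul_add, add_smul]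
    abel
  | single g n =>
    induction s using MonoidAlgebra.induction_linear with
    | zero => simp
    | add a b ha hb =>
      rw [mul_add, map_add, ha, hb, map_add, map_add, smul_add, add_smul]
      abel
    | single h m =>
      rw [MonoidAlgebra.single_mul_single, dExt_single, dExt_single, dExt_single, hD, eps_single,
        smul_add, single_eq g n, smul_smul, smul_assoc, smul_comm (gs g) m, smul_smul, mul_comm n m]

/-- the linear map on the augmentation ideal given by a derivation -/
noncomputable def derLin (D : G → M) (hD : ∀ g h, D (g * h) = D g + gs g • D h) :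
    augI ℤ G →ₗ[MonoidAlgebra ℤ G] M where
  toFun x := dExt D x.1
  map_add' x y := by rw [Submodule.coe_add, map_add]
  map_smul' r x := by
    have hx : eps ℤ G x.1 = 0 := x.2
    rw [Submodule.coe_smul, smul_eq_mul, dExt_mul D hD, hx, zero_smul, zero_add]
    rfl

lemma gs_sub_one_mem (g : G) : gs g - 1 ∈ augI ℤ G := by
  rw [mem_augI, map_sub, map_one, gs, eps_single, sub_self]

/-- the element `g - 1` of the augmentation ideal -/
noncomputable def ag (g : G) : augI ℤ G := ⟨gs g - 1, gs_sub_one_mem g⟩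

lemma ag_mul (g h : G) : ag (g * h) = ag g + gs g • ag h := by
  apply Subtype.ext
  change gs (g * h) - 1 = (gs g - 1) + gs g * (gs h - 1)
  rw [gs_mul, mul_sub, mul_one]
  abel

lemma ag_one : ag (1 : G) = 0 := by
  apply Subtype.ext
  change gs (1 : G) - 1 = 0
  rw [gs_one, sub_self]

lemma der_one (D : G → M) (hD : ∀ g h, D (g * h) = D g + gs g • D h) : D 1 = 0 := by
  have h := hD 1 1
  rw [mul_one, gs_one, one_smul] at h
  exact left_eq_add.mp h

lemma derLin_ag (D : G → M) (hD : ∀ g h, D (g * h) = D g + gs g • D h) (g : G) :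
    derLin D hD (ag g) = D g := by
  change dExt D (gs g - 1) = D g
  rw [map_sub, dExt_gs, ← gs_one, dExt_gs, der_one D hD, sub_zero]

/-- every element of the augmentation ideal is an integral combination of the `g - 1` -/
lemma augI_induction {p : augI ℤ G → Prop} (h0 : p 0) (hadd : ∀ x y, p x → p y → p (x + y))
    (hg : ∀ (n : ℤ) (g : G), p (n • ag g)) (x : augI ℤ G) : p x := by
  have key : ∀ y : MonoidAlgebra ℤ G, ∃ z : augI ℤ G, (z : MonoidAlgebra ℤ G) = y - algebraMap ℤ _ (eps ℤ G y) ∧ p z := by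
    intro y
    induction y using MonoidAlgebra.induction_linear with
    | zero => exact ⟨0, by simp, h0⟩
    | add a b ha hb =>
      obtain ⟨z, hz, hz'⟩ := ha
      obtain ⟨w, hw, hw'⟩ := hb
      refine ⟨z + w, ?_, hadd z w hz' hw'⟩
      rw [Submodule.coe_add, hz, hw, map_add, map_add]
      abel
    | single g n =>
      refine ⟨n • ag g, ?_, hg n g⟩
      rw [eps_single]
      change n • (gs g - 1) = _
      rw [smul_sub, single_eq, Algebra.algebraMap_eq_smul_one]
  obtain ⟨z, hz, hz'⟩ := key x.1
  have hx : eps ℤ G x.1 = 0 := x.2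
  rw [hx, map_zero, sub_zero] at hz
  have : z = x := Subtype.ext hz
  rwa [this] at hz'

lemma augI_lin_ext {N : Type} [AddCommGroup N] [Module (MonoidAlgebra ℤ G) N]
    (f f' : augI ℤ G →ₗ[MonoidAlgebra ℤ G] N) (h : ∀ g, f (ag g) = f' (ag g)) : f = f' := by
  apply LinearMap.ext
  intro x
  refine augI_induction (p := fun x => f x = f' x) ?_ ?_ ?_ x
  · rw [map_zero, map_zero]
  · intro x y hx hy
    rw [map_add, map_add, hx, hy]
  · intro n g
    rw [map_zsmul, map_zsmul, h]

/-- a linear map from the augmentation ideal gives a derivation -/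
lemma lin_der {N : Type} [AddCommGroup N] [Module (MonoidAlgebra ℤ G) N]
    (f : augI ℤ G →ₗ[MonoidAlgebra ℤ G] N) (g h : G) :
    f (ag (g * h)) = f (ag g) + gs g • f (ag h) := by
  rw [ag_mul, map_add, map_smul]

/-- generators of the group give generators of the augmentation ideal -/
lemma ag_mem_of_closure (N : Submodule (MonoidAlgebra ℤ G) (augI ℤ G)) (S : Set G)
    (hS : Subgroup.closure S = ⊤) (h : ∀ g ∈ S, ag g ∈ N) : N = ⊤ := by
  have key : ∀ g : G, ag g ∈ N := by
    intro g
    have hg : g ∈ Subgroup.closure S := by rw [hS]; trivial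
    refine Subgroup.closure_induction (p := fun g _ => ag g ∈ N) h ?_ ?_ ?_ hg
    · rw [ag_one]
      exact N.zero_mem
    · intro a b _ _ ha hb
      rw [ag_mul]
      exact N.add_mem ha (N.smul_mem _ hb)
    · intro a _ ha
      have h1 : ag (a⁻¹ * a) = ag a⁻¹ + gs a⁻¹ • ag a := ag_mul _ _
      rw [inv_mul_cancel, ag_one] at h1
      have h2 : ag a⁻¹ = - (gs a⁻¹ • ag a) := eq_neg_of_add_eq_zero_left h1.symm
      rw [h2]
      exact N.neg_mem (N.smul_mem _ ha)
  rw [eq_top_iff]
  intro x _
  refine augI_induction (p := fun x => x ∈ N) N.zero_mem (fun _ _ => N.add_mem) ?_ x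
  intro n g
  exact zsmul_mem (key g) n

end der

section rel

variable {Γ G : Type} [Group Γ] [Group G]

theorem relFP (i : Γ →* G) {κ : Type} [Finite κ] (t : κ → G)
    (rels : Finset (Monoid.Coprod Γ (FreeGroup κ)))
    (hrel : ∀ r ∈ rels, Monoid.Coprod.lift i (FreeGroup.lift t) r = 1)
    (univ : ∀ (K : Type) [Group K] (φ : Γ →* K) (k : κ → K),
      (∀ r ∈ rels, Monoid.Coprod.lift φ (FreeGroup.lift k) r = 1) →
      ∃ ψ : G →* K, (∀ γ, ψ (i γ) = φ γ) ∧ ∀ j, ψ (t j) = k j)
    (gen : Subgroup.closure (Set.range i ∪ Set.range t) = ⊤)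
    (hΓ : Module.FinitePresentation (MonoidAlgebra ℤ Γ) (augI ℤ Γ)) :
    Module.FinitePresentation (MonoidAlgebra ℤ G) (augI ℤ G) := by
  classical
  obtain ⟨m, u, hu⟩ := Module.Finite.exists_fin' (MonoidAlgebra ℤ Γ) (augI ℤ Γ)
  obtain ⟨ks, hks⟩ := Module.FinitePresentation.fg_ker u hu
  -- base change
  let j : MonoidAlgebra ℤ Γ →+* MonoidAlgebra ℤ G := MonoidAlgebra.mapDomainRingHom ℤ i
  have j_gs : ∀ γ, j (gs γ) = gs (i γ) := by
    intro γ
    simp [j, gs]
  have j_eps : ∀ x, eps ℤ G (j x) = eps ℤ Γ x := by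
    intro x
    induction x using MonoidAlgebra.induction_linear with
    | zero => simp
    | add a b ha hb => rw [map_add, map_add, ha, hb, map_add]
    | single γ n =>
      rw [single_eq, map_zsmul, map_zsmul, map_zsmul, j_gs, gs, gs, eps_single, eps_single]
  let P : Type := (Fin m → MonoidAlgebra ℤ G) × (κ → MonoidAlgebra ℤ G)
  let J : (Fin m → MonoidAlgebra ℤ Γ) → P := fun w => (fun a => j (w a), 0)
  have J_add : ∀ w w', J (w + w') = J w + J w' := by
    intro w w'
    refine Prod.ext ?_ (add_zero _).symm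
    funext a
    exact map_add j _ _
  have J_smul : ∀ (s : MonoidAlgebra ℤ Γ) w, J (s • w) = j s • J w := by
    intro s w
    refine Prod.ext ?_ (smul_zero _).symm
    funext a
    exact map_mul j _ _
  let N1 : Submodule (MonoidAlgebra ℤ G) P := Submodule.span _ (J '' (ks : Set (Fin m → MonoidAlgebra ℤ Γ)))
  have N1fg : N1.FG := ⟨ks.image J, by rw [Finset.coe_image]⟩
  have J_ker : ∀ w, u w = 0 → J w ∈ N1 := by
    intro w hw
    have hw' : w ∈ Submodule.span (MonoidAlgebra ℤ Γ) (ks : Set (Fin m → MonoidAlgebra ℤ Γ)) := by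
      rw [hks]; exact hw
    refine Submodule.span_induction (p := fun w _ => J w ∈ N1) ?_ ?_ ?_ ?_ hw'
    · intro x hx
      exact Submodule.subset_span ⟨x, hx, rfl⟩
    · have : J 0 = 0 := by
        refine Prod.ext ?_ rfl
        funext a
        exact map_zero j
      rw [this]
      exact N1.zero_mem
    · intro x y _ _ hx hy
      rw [J_add]
      exact N1.add_mem hx hy
    · intro s x _ hx
      rw [J_smul]
      exact N1.smul_mem _ hx
  let M0 : Type := P ⧸ N1
  let L : (Fin m → MonoidAlgebra ℤ Γ) → M0 := fun w => N1.mkQ (J w)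
  have L_add : ∀ w w', L (w + w') = L w + L w' := by
    intro w w'
    change N1.mkQ (J (w + w')) = _
    rw [J_add, map_add]
  have L_smul : ∀ (s : MonoidAlgebra ℤ Γ) w, L (s • w) = j s • L w := by
    intro s w
    change N1.mkQ (J (s • w)) = _
    rw [J_smul, map_smul]
  have L_neg : ∀ w, L (-w) = - L w := by
    intro w
    have := L_smul (-1) w
    rw [neg_one_smul, map_neg, map_one, neg_one_smul] at this
    exact this
  have L_eq : ∀ w w', u w = u w' → L w = L w' := by
    intro w w' h
    have h1 : J (w - w') ∈ N1 := J_ker _ (by rw [map_sub, h, sub_self])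
    have h2 : L (w - w') = 0 := (Submodule.Quotient.mk_eq_zero N1).2 h1
    rw [sub_eq_add_neg, L_add, L_neg] at h2
    exact eq_of_sub_eq_zero (by rw [sub_eq_add_neg]; exact h2)
  let wΓ : Γ → (Fin m → MonoidAlgebra ℤ Γ) := fun γ => Function.surjInv hu (ag γ)
  have hwΓ : ∀ γ, u (wΓ γ) = ag γ := fun γ => Function.surjInv_eq hu _
  let DΓ : Γ →* Cr G M0 :=
    { toFun := fun γ => ⟨L (wΓ γ), i γ⟩
      map_one' := by
        ext
        · change L (wΓ 1) = 0
          have h0 : L 0 = 0 := by
            have := L_smul 0 0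
            rw [smul_zero, map_zero, zero_smul] at this
            exact this
          rw [← h0]
          apply L_eq
          rw [hwΓ, ag_one, map_zero]
        · exact map_one i
      map_mul' := by
        intro γ γ'
        ext
        · change L (wΓ (γ * γ')) = L (wΓ γ) + gs (i γ) • L (wΓ γ')
          rw [← j_gs, ← L_smul, ← L_add]
          apply L_eq
          rw [map_add, map_smul, hwΓ, hwΓ, hwΓ, ag_mul]
        · exact map_mul i _ _ }
  let eκ : κ → M0 := fun c => N1.mkQ (0, Pi.single c 1)
  let D0 : Monoid.Coprod Γ (FreeGroup κ) →* Cr G M0 :=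
    Monoid.Coprod.lift DΓ (FreeGroup.lift (fun c => (⟨eκ c, t c⟩ : Cr G M0)))
  have D0g : ∀ x, (D0 x).g = Monoid.Coprod.lift i (FreeGroup.lift t) x := by
    have : (Cr.toG (G := G) (M := M0)).comp D0 = Monoid.Coprod.lift i (FreeGroup.lift t) := by
      apply Monoid.Coprod.hom_ext
      · ext γ
        simp [D0, DΓ, Cr.toG]
      · apply FreeGroup.ext_hom
        intro c
        simp [D0, Cr.toG]
    intro x
    exact DFunLike.congr_fun this x
  let N2 : Submodule (MonoidAlgebra ℤ G) M0 := Submodule.span _ ((fun r => (D0 r).m) '' (rels : Set (Monoid.Coprod Γ (FreeGroup κ))))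
  have N2fg : N2.FG := ⟨rels.image (fun r => (D0 r).m), by rw [Finset.coe_image]⟩
  let M1 : Type := M0 ⧸ N2
  let q : M0 →ₗ[MonoidAlgebra ℤ G] M1 := N2.mkQ
  obtain ⟨ψ, hψ1, hψ2⟩ := univ (Cr G M1) ((Cr.map q).comp DΓ) (fun c => (⟨q (eκ c), t c⟩ : Cr G M1)) (by
    intro r hr
    have h1 : Monoid.Coprod.lift ((Cr.map q).comp DΓ) (FreeGroup.lift (fun c => (⟨q (eκ c), t c⟩ : Cr G M1))) =
        (Cr.map q).comp D0 := by
      apply Monoid.Coprod.hom_ext
      · ext γ
        · simp [D0]
        · simp [D0]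
      · apply FreeGroup.ext_hom
        intro c
        simp only [D0, MonoidHom.comp_apply, Monoid.Coprod.lift_apply_inr, FreeGroup.lift_apply_of]
        rfl
    rw [h1]
    ext
    · change q (D0 r).m = 0
      exact (Submodule.Quotient.mk_eq_zero N2).2 (Submodule.subset_span ⟨r, hr, rfl⟩)
    · change (D0 r).g = 1
      rw [D0g]
      exact hrel r hr)
  have ψg : ∀ x, (ψ x).g = x := by
    intro x
    have h1 : Subgroup.closure (Set.range i ∪ Set.range t) ≤
        MonoidHom.eqLocus ((Cr.toG (G := G) (M := M1)).comp ψ) (MonoidHom.id G) := by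
      rw [Subgroup.closure_le]
      rintro _ (⟨γ, rfl⟩ | ⟨c, rfl⟩)
      · change (ψ (i γ)).g = i γ
        rw [hψ1]
        rfl
      · change (ψ (t c)).g = t c
        rw [hψ2]
    rw [gen] at h1
    exact h1 (Subgroup.mem_top x)
  let D : G → M1 := fun x => (ψ x).m
  have hD : ∀ g h, D (g * h) = D g + gs g • D h := by
    intro g h
    change (ψ (g * h)).m = _
    rw [map_mul, Cr.mul_m, ψg]
  -- the map to the augmentation ideal
  let uj : Fin m → augI ℤ G := fun a => ⟨j (u (Pi.single a 1)).1, by
    rw [mem_augI, j_eps]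
    exact (u (Pi.single a 1)).2⟩
  have : Fintype κ := Fintype.ofFinite κ
  let Θ : P →ₗ[MonoidAlgebra ℤ G] augI ℤ G :=
    LinearMap.coprod (Fintype.linearCombination (MonoidAlgebra ℤ G) uj)
      (Fintype.linearCombination (MonoidAlgebra ℤ G) (fun c => ag (t c)))
  have Θ_J : ∀ w, (Θ (J w) : MonoidAlgebra ℤ G) = j (u w).1 := by
    intro w
    have h1 : (Θ (J w) : MonoidAlgebra ℤ G) = ∑ a, j (w a) * j (u (Pi.single a 1)).1 := by
      have h2 : Θ (J w) = ∑ a, j (w a) • uj a := by
        change Fintype.linearCombination (MonoidAlgebra ℤ G) uj (fun a => j (w a)) +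
          Fintype.linearCombination (MonoidAlgebra ℤ G) (fun c => ag (t c)) 0 = _
        rw [map_zero, add_zero, Fintype.linearCombination_apply]
      rw [h2, AddSubmonoidClass.coe_finsetSum]
      rfl
    have hw : w = ∑ a, w a • (Pi.single a 1 : Fin m → MonoidAlgebra ℤ Γ) := by
      funext b
      simp [Finset.sum_apply, Pi.single_apply]
    have h2 : (u w).1 = ∑ a, w a * (u (Pi.single a 1)).1 := by
      conv_lhs => rw [hw]
      rw [map_sum, AddSubmonoidClass.coe_finsetSum]
      apply Finset.sum_congr rfl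
      intro a _
      rw [map_smul]
      rfl
    rw [h1, h2, map_sum]
    apply Finset.sum_congr rfl
    intro a _
    rw [map_mul]
  have Θ_κ : ∀ c, Θ (0, Pi.single c 1) = ag (t c) := by
    intro c
    change Fintype.linearCombination (MonoidAlgebra ℤ G) uj 0 +
      Fintype.linearCombination (MonoidAlgebra ℤ G) (fun c => ag (t c)) (Pi.single c 1) = _
    rw [map_zero, zero_add, Fintype.linearCombination_apply_single, one_smul]
  have Θ_N1 : N1 ≤ LinearMap.ker Θ := by
    rw [Submodule.span_le]
    rintro _ ⟨w, hw, rfl⟩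
    apply Subtype.ext
    rw [Θ_J]
    have h1 : u w = 0 := by
      have : w ∈ LinearMap.ker u := by
        rw [← hks]
        exact Submodule.subset_span hw
      exact this
    rw [h1]
    exact map_zero j
  let Θ0 : M0 →ₗ[MonoidAlgebra ℤ G] augI ℤ G := N1.liftQ Θ Θ_N1
  have Θ0_L : ∀ w, (Θ0 (L w) : MonoidAlgebra ℤ G) = j (u w).1 := Θ_J
  have Θ0_κ : ∀ c, Θ0 (eκ c) = ag (t c) := Θ_κ
  -- the canonical crossed homomorphism on the coproduct
  let can : Monoid.Coprod Γ (FreeGroup κ) →* Cr G (augI ℤ G) :=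
    { toFun := fun x => ⟨ag (Monoid.Coprod.lift i (FreeGroup.lift t) x), Monoid.Coprod.lift i (FreeGroup.lift t) x⟩
      map_one' := by
        ext
        · rw [map_one, ag_one]
          rfl
        · rw [map_one]
          rfl
      map_mul' := by
        intro x y
        apply Cr.ext
        · change ag (Monoid.Coprod.lift i (FreeGroup.lift t) (x * y)) =
            ag (Monoid.Coprod.lift i (FreeGroup.lift t) x) +
              gs (Monoid.Coprod.lift i (FreeGroup.lift t) x) • ag (Monoid.Coprod.lift i (FreeGroup.lift t) y)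
          rw [map_mul, ag_mul]
        · exact map_mul _ _ _ }
  have hcan : (Cr.map Θ0).comp D0 = can := by
    apply Monoid.Coprod.hom_ext
    · apply MonoidHom.ext
      intro γ
      have h1 : D0 (Monoid.Coprod.inl γ) = DΓ γ := by simp [D0]
      apply Cr.ext
      · change Θ0 (D0 (Monoid.Coprod.inl γ)).m = ag (Monoid.Coprod.lift i (FreeGroup.lift t) (Monoid.Coprod.inl γ))
        rw [h1, Monoid.Coprod.lift_apply_inl]
        apply Subtype.ext
        change (Θ0 (L (wΓ γ)) : MonoidAlgebra ℤ G) = _
        rw [Θ0_L, hwΓ]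
        change j (gs γ - 1) = gs (i γ) - 1
        rw [map_sub, map_one, j_gs]
      · change (D0 (Monoid.Coprod.inl γ)).g = Monoid.Coprod.lift i (FreeGroup.lift t) (Monoid.Coprod.inl γ)
        exact D0g _
    · apply FreeGroup.ext_hom
      intro c
      have h1 : D0 (Monoid.Coprod.inr (FreeGroup.of c)) = ⟨eκ c, t c⟩ := by simp [D0]
      apply Cr.ext
      · change Θ0 (D0 (Monoid.Coprod.inr (FreeGroup.of c))).m =
          ag (Monoid.Coprod.lift i (FreeGroup.lift t) (Monoid.Coprod.inr (FreeGroup.of c)))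
        rw [h1, Monoid.Coprod.lift_apply_inr, FreeGroup.lift_apply_of]
        exact Θ0_κ c
      · exact D0g _
  have Θ0_N2 : N2 ≤ LinearMap.ker Θ0 := by
    rw [Submodule.span_le]
    rintro _ ⟨r, hr, rfl⟩
    change Θ0 (D0 r).m = 0
    have h1 : ((Cr.map Θ0).comp D0 r).m = (can r).m := by rw [hcan]
    have h2 : (can r).m = 0 := by
      change ag (Monoid.Coprod.lift i (FreeGroup.lift t) r) = 0
      rw [hrel r hr, ag_one]
    exact h1.trans h2
  let Θ1 : M1 →ₗ[MonoidAlgebra ℤ G] augI ℤ G := N2.liftQ Θ0 Θ0_N2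
  have Θ1_q : ∀ x, Θ1 (q x) = Θ0 x := fun x => rfl
  let back : augI ℤ G →ₗ[MonoidAlgebra ℤ G] M1 := derLin D hD
  have back_i : ∀ γ, back (ag (i γ)) = q (L (wΓ γ)) := by
    intro γ
    rw [derLin_ag]
    change (ψ (i γ)).m = _
    rw [hψ1]
    rfl
  have back_t : ∀ c, back (ag (t c)) = q (eκ c) := by
    intro c
    rw [derLin_ag]
    change (ψ (t c)).m = _
    rw [hψ2]
  -- back ∘ base change
  have back_j : ∀ (w : Fin m → MonoidAlgebra ℤ Γ) (y : augI ℤ G), (y : MonoidAlgebra ℤ G) = j (u w).1 →
      back y = q (L w) := by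
    have key : ∀ v : augI ℤ Γ, ∀ (w : Fin m → MonoidAlgebra ℤ Γ) (y : augI ℤ G), u w = v →
        (y : MonoidAlgebra ℤ G) = j v.1 → back y = q (L w) := by
      intro v
      refine augI_induction (p := fun v => ∀ (w : Fin m → MonoidAlgebra ℤ Γ) (y : augI ℤ G), u w = v →
        (y : MonoidAlgebra ℤ G) = j v.1 → back y = q (L w)) ?_ ?_ ?_ v
      · intro w y hw hy
        have h1 : y = 0 := Subtype.ext (by rw [hy]; exact map_zero j)
        have h2 : L w = 0 := (Submodule.Quotient.mk_eq_zero N1).2 (J_ker w hw)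
        rw [h1, h2, map_zero, map_zero]
      · intro a b ha hb w y hw hy
        obtain ⟨wa, hwa⟩ := hu a
        obtain ⟨wb, hwb⟩ := hu b
        have hja : j a.1 ∈ augI ℤ G := by rw [mem_augI, j_eps]; exact a.2
        have hjb : j b.1 ∈ augI ℤ G := by rw [mem_augI, j_eps]; exact b.2
        have h1 : y = ⟨j a.1, hja⟩ + ⟨j b.1, hjb⟩ := by
          apply Subtype.ext
          rw [hy]
          exact map_add j _ _
        have h2 : L w = L (wa + wb) := L_eq _ _ (by rw [hw, map_add, hwa, hwb])
        rw [h1, h2, L_add, map_add, map_add, ha wa _ hwa rfl, hb wb _ hwb rfl]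
      · intro n γ w y hw hy
        have h1 : y = n • ag (i γ) := by
          apply Subtype.ext
          rw [hy]
          change j (n • (gs γ - 1)) = n • (gs (i γ) - 1)
          rw [map_zsmul, map_sub, map_one, j_gs]
        have h2 : L w = n • L (wΓ γ) := by
          have h3 : L w = L ((n : MonoidAlgebra ℤ Γ) • wΓ γ) := L_eq _ _ (by
            rw [hw, map_smul, hwΓ]
            exact (Int.cast_smul_eq_zsmul (MonoidAlgebra ℤ Γ) n (ag γ)).symm)
          rw [h3, L_smul, map_intCast]
          exact Int.cast_smul_eq_zsmul (MonoidAlgebra ℤ G) n (L (wΓ γ))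
        rw [h1, h2, map_zsmul, map_zsmul, back_i]
    intro w y hy
    exact key (u w) w y rfl hy
  have hinj : Function.Injective Θ1 := by
    have hcomp : back.comp (Θ1.comp (q.comp N1.mkQ)) = q.comp N1.mkQ := by
      apply LinearMap.prod_ext
      · apply LinearMap.pi_ext'
        intro a
        apply LinearMap.ext_ring
        change back (Θ1 (q (N1.mkQ (Pi.single a 1, 0)))) = q (N1.mkQ (Pi.single a 1, 0))
        have h1 : ((Pi.single a 1, 0) : P) = J (Pi.single a 1) := by
          refine Prod.ext ?_ rfl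
          funext b
          change (Pi.single a 1 : Fin m → MonoidAlgebra ℤ G) b = j ((Pi.single a 1 : Fin m → MonoidAlgebra ℤ Γ) b)
          by_cases h : b = a
          · subst h
            rw [Pi.single_eq_same, Pi.single_eq_same, map_one]
          · rw [Pi.single_eq_of_ne h, Pi.single_eq_of_ne h, map_zero]
        rw [h1]
        change back (Θ0 (L (Pi.single a 1))) = q (L (Pi.single a 1))
        exact back_j _ _ (Θ0_L _)
      · apply LinearMap.pi_ext'
        intro c
        apply LinearMap.ext_ring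
        change back (Θ0 (eκ c)) = q (eκ c)
        rw [Θ0_κ, back_t]
    intro x y hxy
    obtain ⟨x0, rfl⟩ := Submodule.mkQ_surjective N2 x
    obtain ⟨y0, rfl⟩ := Submodule.mkQ_surjective N2 y
    obtain ⟨x1, rfl⟩ := Submodule.mkQ_surjective N1 x0
    obtain ⟨y1, rfl⟩ := Submodule.mkQ_surjective N1 y0
    have hx := LinearMap.congr_fun hcomp x1
    have hy := LinearMap.congr_fun hcomp y1
    change back (Θ1 _) = _ at hx
    change back (Θ1 _) = _ at hy
    calc _ = back (Θ1 (q (N1.mkQ x1))) := hx.symm
      _ = back (Θ1 (q (N1.mkQ y1))) := congrArg back hxy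
      _ = _ := hy
  have hsurj : Function.Surjective Θ1 := by
    have h1 : LinearMap.range Θ1 = ⊤ := by
      apply ag_mem_of_closure _ _ gen
      rintro _ (⟨γ, rfl⟩ | ⟨c, rfl⟩)
      · refine ⟨q (L (wΓ γ)), ?_⟩
        apply Subtype.ext
        change (Θ0 (L (wΓ γ)) : MonoidAlgebra ℤ G) = _
        rw [Θ0_L, hwΓ]
        change j (gs γ - 1) = gs (i γ) - 1
        rw [map_sub, map_one, j_gs]
      · exact ⟨q (eκ c), Θ0_κ c⟩
    exact LinearMap.range_eq_top.1 h1
  have fp0 : Module.FinitePresentation (MonoidAlgebra ℤ G) P :=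
    Module.finitePresentation_of_projective _ _
  have fp1 : Module.FinitePresentation (MonoidAlgebra ℤ G) M0 :=
    Module.finitePresentation_of_surjective N1.mkQ (Submodule.mkQ_surjective _) (by
      rw [Submodule.ker_mkQ]; exact N1fg)
  have fp2 : Module.FinitePresentation (MonoidAlgebra ℤ G) M1 :=
    Module.finitePresentation_of_surjective N2.mkQ (Submodule.mkQ_surjective _) (by
      rw [Submodule.ker_mkQ]; exact N2fg)
  exact Module.FinitePresentation.of_equiv (LinearEquiv.ofBijective Θ1 ⟨hinj, hsurj⟩)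

end rel

end Pool.Agent.W348
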