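import Pool.Agent.W348.D1

set_option autoImplicit false

namespace Pool.Agent.W348

section limit

variable {R : Type} [Ring R]

/-- eventually zero sequences -/
def evz (M : ℕ → Type) [∀ k, AddCommGroup (M k)] [∀ k, Module R (M k)] : Submodule R (∀ k, M k) where
  carrier := {y | ∃ K, ∀ k ≥ K, y k = 0}
  zero_mem' := ⟨0, fun _ _ => rfl⟩
  add_mem' := by
    rintro y z ⟨K, hK⟩ ⟨L, hL⟩
    refine ⟨max K L, fun k hk => ?_⟩
    rw [Pi.add_apply, hK k (le_trans (le_max_left _ _) hk), hL k (le_trans (le_max_right _ _) hk), add_zero]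
  smul_mem' := by
    rintro r y ⟨K, hK⟩
    refine ⟨K, fun k hk => ?_⟩
    rw [Pi.smul_apply, hK k hk, smul_zero]

lemma mem_evz (M : ℕ → Type) [∀ k, AddCommGroup (M k)] [∀ k, Module R (M k)] (y : ∀ k, M k) :
    y ∈ evz (R := R) M ↔ ∃ K, ∀ k ≥ K, y k = 0 := Iff.rfl

theorem limit_lift {I : Type} [AddCommGroup I] [Module R I] (hI : Module.FinitePresentation R I)
    (M : ℕ → Type) [∀ k, AddCommGroup (M k)] [∀ k, Module R (M k)]
    (l : I →ₗ[R] (∀ k, M k) ⧸ evz (R := R) M) :
    ∃ μ : ∀ k, I →ₗ[R] M k, ∀ (x : I) (y : ∀ k, M k), (evz (R := R) M).mkQ y = l x →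
      ∃ K, ∀ k ≥ K, μ k x = y k := by
  classical
  obtain ⟨n, f, hf⟩ := Module.Finite.exists_fin' R I
  obtain ⟨ks, hks⟩ := Module.FinitePresentation.fg_ker f hf
  have hy : ∀ a : Fin n, ∃ y : ∀ k, M k, (evz (R := R) M).mkQ y = l (f (Pi.single a 1)) :=
    fun a => Submodule.mkQ_surjective _ _
  choose y hy using hy
  let Λ : (Fin n → R) →ₗ[R] (∀ k, M k) := Fintype.linearCombination R y
  have hΛ : (evz (R := R) M).mkQ.comp Λ = l.comp f := by
    apply LinearMap.pi_ext'
    intro a
    apply LinearMap.ext_ring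
    change (evz (R := R) M).mkQ (Λ (Pi.single a 1)) = l (f (Pi.single a 1))
    rw [← hy]
    congr 1
    simp [Λ]
  have hK : ∀ κ : Fin n → R, κ ∈ ks → ∃ K, ∀ k ≥ K, Λ κ k = 0 := by
    intro κ hκ
    have h1 : f κ = 0 := by
      have : κ ∈ LinearMap.ker f := by
        rw [← hks]
        exact Submodule.subset_span hκ
      exact this
    have h2 := LinearMap.congr_fun hΛ κ
    change (evz (R := R) M).mkQ (Λ κ) = l (f κ) at h2
    rw [h1, map_zero] at h2
    exact (Submodule.Quotient.mk_eq_zero _).1 h2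
  choose! Kf hKf using hK
  let K := ks.sup Kf
  have hK' : ∀ k ≥ K, LinearMap.ker f ≤ LinearMap.ker ((LinearMap.proj k).comp Λ) := by
    intro k hk
    rw [← hks, Submodule.span_le]
    intro κ hκ
    exact hKf κ hκ k (le_trans (Finset.le_sup (f := Kf) hκ) hk)
  let μ : ∀ k, I →ₗ[R] M k := fun k =>
    if h : K ≤ k then
      ((LinearMap.ker f).liftQ ((LinearMap.proj k).comp Λ) (hK' k h)).comp
        (f.quotKerEquivOfSurjective hf).symm.toLinearMap
    else 0
  have hμ : ∀ k ≥ K, ∀ v, μ k (f v) = Λ v k := by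
    intro k hk v
    have h1 : (f.quotKerEquivOfSurjective hf).symm (f v) = Submodule.Quotient.mk v := by
      rw [LinearEquiv.symm_apply_eq]
      rfl
    simp only [μ]
    rw [dif_pos hk]
    change ((LinearMap.ker f).liftQ ((LinearMap.proj k).comp Λ) (hK' k hk)) ((f.quotKerEquivOfSurjective hf).symm (f v)) = _
    rw [h1]
    rfl
  refine ⟨μ, ?_⟩
  intro x z hz
  obtain ⟨v, rfl⟩ := hf x
  have h2 := LinearMap.congr_fun hΛ v
  change (evz (R := R) M).mkQ (Λ v) = l (f v) at h2
  rw [← hz] at h2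
  have h3 : Λ v - z ∈ evz (R := R) M := by
    rw [← Submodule.Quotient.mk_eq_zero]
    change (evz (R := R) M).mkQ (Λ v - z) = 0
    rw [map_sub, h2, sub_self]
  obtain ⟨L, hL⟩ := h3
  refine ⟨max K L, fun k hk => ?_⟩
  rw [hμ k (le_trans (le_max_left _ _) hk)]
  have := hL k (le_trans (le_max_right _ _) hk)
  rw [Pi.sub_apply, sub_eq_zero] at this
  exact this

end limit

section fibre

variable {ι Q : Type} [Group Q] (b : ι → Q)

/-- the fibre product -/
abbrev FP : Type :=
  ↥(((p1 b).comp (MonoidHom.fst (G1 b) (FreeGroup ι))).eqLocus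
    ((FreeGroup.lift b).comp (MonoidHom.snd (G1 b) (FreeGroup ι))))

lemma mem_FP (x : G1 b × FreeGroup ι) :
    x ∈ (((p1 b).comp (MonoidHom.fst (G1 b) (FreeGroup ι))).eqLocus
    ((FreeGroup.lift b).comp (MonoidHom.snd (G1 b) (FreeGroup ι)))) ↔ x.1.right.2 = FreeGroup.lift b x.2 := Iff.rfl

/-- first free coordinate -/
def fc1 : FP b →* FreeGroup ι where
  toFun g := g.1.1.right.1
  map_one' := rfl
  map_mul' _ _ := rfl

/-- second free coordinate -/
def fc2 : FP b →* FreeGroup ι where
  toFun g := g.1.2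
  map_one' := rfl
  map_mul' _ _ := rfl

/-- the free part -/
def fw (g : FP b) : FreeGroup Q := g.1.1.left

lemma fw_mul (g h : FP b) : fw b (g * h) = fw b g *
    ((permAut Q).comp (actQ b) (fc1 b g, FreeGroup.lift b (fc2 b g))) (fw b h) := by
  have hg := (mem_FP b g.1).1 g.2
  have : g.1.1.right = (fc1 b g, FreeGroup.lift b (fc2 b g)) := Prod.ext rfl hg
  change g.1.1.left * ((permAut Q).comp (actQ b) g.1.1.right) h.1.1.left = _
  rw [this]
  rfl

variable (N : ℕ → Subgroup (FreeGroup ι)) [∀ k, (N k).Normal]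

/-- permutation action on the quotient -/
def permX (k : ℕ) : FP b →* Equiv.Perm (FreeGroup ι ⧸ N k) where
  toFun g := (Equiv.mulRight ((QuotientGroup.mk' (N k)) (fc2 b g))⁻¹).trans
    (Equiv.mulLeft ((QuotientGroup.mk' (N k)) (fc1 b g)))
  map_one' := by
    ext p
    simp
  map_mul' g h := by
    ext p
    simp [mul_assoc]

/-- the permutation representation -/
noncomputable def repX (k : ℕ) : Representation ℤ (FP b) ((FreeGroup ι ⧸ N k) →₀ ℤ) where
  toFun g := Finsupp.lmapDomain ℤ ℤ (permX b N k g)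
  map_one' := by
    ext x
    simp
  map_mul' g h := by
    ext x
    simp

/-- the module -/
abbrev MX (k : ℕ) : Type := (repX b N k).asModule

/-- a basis vector -/
noncomputable def bv (k : ℕ) (f : FreeGroup ι) : MX b N k :=
  (repX b N k).asModuleEquiv.symm (Finsupp.single (QuotientGroup.mk' (N k) f) 1)

lemma bv_inj (k : ℕ) (f f' : FreeGroup ι) : bv b N k f = bv b N k f' ↔ f⁻¹ * f' ∈ N k := by
  rw [bv, bv, (repX b N k).asModuleEquiv.symm.injective.eq_iff, Finsupp.single_left_inj one_ne_zero]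
  exact QuotientGroup.eq

lemma gs_bv (k : ℕ) (g : FP b) (f : FreeGroup ι) :
    gs g • bv b N k f = bv b N k (fc1 b g * f * (fc2 b g)⁻¹) := by
  rw [bv, gs, Representation.single_smul, one_smul, LinearEquiv.apply_symm_apply]
  have : (repX b N k) g (Finsupp.single (QuotientGroup.mk' (N k) f) 1) =
      Finsupp.single (QuotientGroup.mk' (N k) (fc1 b g * f * (fc2 b g)⁻¹)) 1 := by
    change Finsupp.mapDomain _ _ = _
    rw [Finsupp.mapDomain_single]
    congr 1
    simp [permX, mul_assoc]
  rw [this]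
  rfl

theorem not_fp [Finite ι] (hb : Function.Surjective (FreeGroup.lift b))
    (h1 : ∀ f, FreeGroup.lift b f = 1 → ∃ K, ∀ k ≥ K, f ∈ N k)
    (h2 : ∀ k, ∃ f, FreeGroup.lift b f = 1 ∧ f ∉ N k) :
    ¬ Module.FinitePresentation (MonoidAlgebra ℤ (FP b)) (augI ℤ (FP b)) := by
  intro hfp
  have : Fintype ι := Fintype.ofFinite ι
  let Z := evz (R := MonoidAlgebra ℤ (FP b)) (MX b N)
  let V : Type := (∀ k, MX b N k) ⧸ Z
  have key : ∀ f f' : FreeGroup ι, FreeGroup.lift b f = FreeGroup.lift b f' →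
      Z.mkQ (fun k => bv b N k f) = Z.mkQ (fun k => bv b N k f') := by
    intro f f' h
    rw [← sub_eq_zero, ← map_sub]
    rw [Submodule.mkQ_apply, Submodule.Quotient.mk_eq_zero]
    obtain ⟨K, hK⟩ := h1 (f⁻¹ * f') (by rw [map_mul, map_inv, h, inv_mul_cancel])
    refine ⟨K, fun k hk => ?_⟩
    rw [Pi.sub_apply, sub_eq_zero]
    exact (bv_inj b N k f f').2 (hK k hk)
  let sg : Q → FreeGroup ι := Function.surjInv hb
  have hsg : ∀ p, FreeGroup.lift b (sg p) = p := Function.surjInv_eq hb
  let ν : Q → V := fun p => Z.mkQ (fun k => bv b N k (sg p))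
  let Λ : FreeGroup Q →* Multiplicative V := FreeGroup.lift (fun p => Multiplicative.ofAdd (ν p))
  have hsm : ∀ (g : FP b) (p : Q), gs g • ν p = ν (FreeGroup.lift b (fc1 b g) * p * (FreeGroup.lift b (fc2 b g))⁻¹) := by
    intro g p
    change gs g • Z.mkQ (fun k => bv b N k (sg p)) = _
    rw [← map_smul]
    have : (gs g • (fun k => bv b N k (sg p)) : ∀ k, MX b N k) = fun k => bv b N k (fc1 b g * sg p * (fc2 b g)⁻¹) := by
      funext k
      exact gs_bv b N k g (sg p)
    rw [this]
    apply key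
    rw [hsg, map_mul, map_mul, map_inv, hsg]
  let D : FP b → V := fun g => Multiplicative.toAdd (Λ (fw b g))
  have hD : ∀ g h, D (g * h) = D g + gs g • D h := by
    intro g h
    let smh : Multiplicative V →* Multiplicative V :=
      AddMonoidHom.toMultiplicative (DistribSMul.toAddMonoidHom V (gs g : MonoidAlgebra ℤ (FP b)))
    have e : Λ.comp ((permAut Q).comp (actQ b) (fc1 b g, FreeGroup.lift b (fc2 b g))).toMonoidHom = smh.comp Λ := by
      apply FreeGroup.ext_hom
      intro p
      change Λ (((permAut Q).comp (actQ b) (fc1 b g, FreeGroup.lift b (fc2 b g))) (FreeGroup.of p)) = smh (Λ (FreeGroup.of p))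
      rw [MonoidHom.comp_apply, permAut_of, actQ_apply]
      simp only [Λ, FreeGroup.lift_apply_of]
      change Multiplicative.ofAdd (ν _) = Multiplicative.ofAdd (gs g • ν p)
      rw [hsm]
    change Multiplicative.toAdd (Λ (fw b (g * h))) = _
    rw [fw_mul, map_mul, toAdd_mul]
    congr 1
    exact congrArg Multiplicative.toAdd (DFunLike.congr_fun e (fw b h))
  obtain ⟨μ, hμ⟩ := limit_lift hfp (MX b N) (derLin D hD)
  let Dk : ∀ k, FP b → MX b N k := fun k g => μ k (ag g)
  have hDk : ∀ k g h, Dk k (g * h) = Dk k g + gs g • Dk k h := fun k g h => lin_der (μ k) g h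
  -- special elements
  let c : FreeGroup ι × FreeGroup ι →* FP b :=
    { toFun := fun x => ⟨(SemidirectProduct.inr (x.1, FreeGroup.lift b x.2), x.2), rfl⟩
      map_one' := by
        apply Subtype.ext
        refine Prod.ext ?_ rfl
        change SemidirectProduct.inr (1, FreeGroup.lift b 1) = (1 : G1 b)
        rw [map_one]
        exact map_one SemidirectProduct.inr
      map_mul' := by
        intro x y
        apply Subtype.ext
        refine Prod.ext ?_ rfl
        change SemidirectProduct.inr (x.1 * y.1, FreeGroup.lift b (x.2 * y.2)) = (SemidirectProduct.inr (x.1, FreeGroup.lift b x.2) * SemidirectProduct.inr (y.1, FreeGroup.lift b y.2) : G1 b)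
        have e : ((x.1 * y.1, FreeGroup.lift b (x.2 * y.2)) : FreeGroup ι × Q) =
            (x.1, FreeGroup.lift b x.2) * (y.1, FreeGroup.lift b y.2) :=
          Prod.ext rfl (map_mul _ _ _)
        rw [e, map_mul] }
  let t : FP b := ⟨(gx b 1, 1), by
    rw [mem_FP]
    change (1 : Q) = _
    rw [map_one]⟩
  have Dc : ∀ x, ∃ K, ∀ k ≥ K, Dk k (c x) = 0 := by
    intro x
    have h3 : derLin D hD (ag (c x)) = Z.mkQ 0 := by
      rw [derLin_ag, map_zero]
      change Multiplicative.toAdd (Λ 1) = 0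
      rw [map_one]
      rfl
    exact hμ (ag (c x)) 0 h3.symm
  have Dt : ∃ K, ∀ k ≥ K, Dk k t = bv b N k 1 := by
    have h3 : derLin D hD (ag t) = Z.mkQ (fun k => bv b N k 1) := by
      rw [derLin_ag]
      change Multiplicative.toAdd (Λ (FreeGroup.of 1)) = _
      simp only [Λ, FreeGroup.lift_apply_of]
      change Z.mkQ (fun k => bv b N k (sg 1)) = _
      apply key
      rw [hsg, map_one]
    exact hμ (ag t) _ h3.symm
  choose Kc hKc using Dc
  obtain ⟨Kt, hKt⟩ := Dt
  let k : ℕ := max Kt (max (Finset.univ.sup (fun i : ι => Kc (FreeGroup.of i, 1)))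
    (Finset.univ.sup (fun i : ι => Kc (1, FreeGroup.of i))))
  have hk1 : ∀ i : ι, Dk k (c (FreeGroup.of i, 1)) = 0 := fun i =>
    hKc _ _ (le_trans (Finset.le_sup (f := fun i : ι => Kc (FreeGroup.of i, 1)) (Finset.mem_univ i))
      (le_trans (le_max_left _ _) (le_max_right _ _)))
  have hk2 : ∀ i : ι, Dk k (c (1, FreeGroup.of i)) = 0 := fun i =>
    hKc _ _ (le_trans (Finset.le_sup (f := fun i : ι => Kc (1, FreeGroup.of i)) (Finset.mem_univ i))
      (le_trans (le_max_right _ _) (le_max_right _ _)))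
  have hk3 : Dk k t = bv b N k 1 := hKt _ (le_max_left _ _)
  -- the kernel of a derivation is a subgroup
  let H : Subgroup (FP b) :=
    { carrier := {g | Dk k g = 0}
      one_mem' := by
        change μ k (ag 1) = 0
        rw [ag_one, map_zero]
      mul_mem' := by
        intro a b' ha hb'
        change Dk k (a * b') = 0
        rw [hDk, ha, hb', smul_zero, add_zero]
      inv_mem' := by
        intro a ha
        change Dk k a⁻¹ = 0
        have h3 := hDk k a⁻¹ a
        have h4 : Dk k (a⁻¹ * a) = 0 := by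
          rw [inv_mul_cancel]
          change μ k (ag 1) = 0
          rw [ag_one, map_zero]
        rw [h4, ha, smul_zero, add_zero] at h3
        exact h3.symm }
  obtain ⟨r, hr1, hr2⟩ := h2 k
  have hs : Dk k (c (r, 1)) = 0 := by
    let φ : FreeGroup ι →* FP b := c.comp (MonoidHom.inl _ _)
    have h : FreeGroup.lift (fun i => c (FreeGroup.of i, 1)) = φ := by
      apply FreeGroup.ext_hom
      intro p
      simp [φ]
    have h' : c (r, 1) = φ r := by simp [φ]
    have h3 : φ r ∈ H := by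
      rw [← h]
      have : ((FreeGroup.lift (fun i => c (FreeGroup.of i, 1))) r) ∈ (FreeGroup.lift (fun i => c (FreeGroup.of i, 1))).range := ⟨r, rfl⟩
      rw [FreeGroup.range_lift_eq_closure] at this
      refine (Subgroup.closure_le H).2 ?_ this
      rintro _ ⟨p, rfl⟩
      exact hk1 p
    rw [h']
    exact h3
  have hcomm : c (r, 1) * t = t * c (r, 1) := by
    apply Subtype.ext
    refine Prod.ext ?_ (by
      change (1 : FreeGroup ι) * 1 = 1 * 1
      rfl)
    change SemidirectProduct.inr (r, FreeGroup.lift b 1) * gx b 1 = gx b 1 * SemidirectProduct.inr (r, FreeGroup.lift b 1)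
    have h3 := conj_gx b (r, FreeGroup.lift b 1) 1
    change SemidirectProduct.inr (r, FreeGroup.lift b 1) * gx b 1 * (SemidirectProduct.inr (r, FreeGroup.lift b 1))⁻¹ = gx b (FreeGroup.lift b r * 1 * (FreeGroup.lift b 1)⁻¹) at h3
    rw [hr1, map_one, one_mul, inv_one, mul_one, mul_inv_eq_iff_eq_mul] at h3
    rw [map_one]
    exact h3
  have e1 := hDk k (c (r, 1)) t
  have e2 := hDk k t (c (r, 1))
  rw [hcomm, e2, hs, smul_zero, add_zero, zero_add, hk3, gs_bv] at e1
  have h5 : fc1 b (c (r, 1)) * 1 * (fc2 b (c (r, 1)))⁻¹ = r := by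
    have h6 : fc1 b (c (r, 1)) = r := rfl
    have h7 : fc2 b (c (r, 1)) = 1 := rfl
    rw [h6, h7, inv_one, mul_one, mul_one]
  rw [h5, bv_inj, inv_one, one_mul] at e1
  exact hr2 e1

end fibre

end Pool.Agent.W348
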