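import Pool.Agent.W348.C1

set_option autoImplicit false

namespace Pool.Agent.W348

open MonoidAlgebra

section raag

variable {V : Type} {adj : V → V → Prop}

/-- the relators of a right-angled Artin group -/
def raagRel (adj : V → V → Prop) : Set (FreeGroup V) :=
  {r | ∃ u v, adj u v ∧ r = FreeGroup.of u * FreeGroup.of v * (FreeGroup.of u)⁻¹ * (FreeGroup.of v)⁻¹}

/-- the right-angled Artin group -/
abbrev Raag (adj : V → V → Prop) : Type := PresentedGroup (raagRel adj)

variable (adj) in
/-- the generators -/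
def gn (v : V) : Raag adj := PresentedGroup.of v

lemma gn_comm {u v : V} (h : adj u v) : gn adj u * gn adj v = gn adj v * gn adj u := by
  have h1 : PresentedGroup.mk (raagRel adj) (FreeGroup.of u * FreeGroup.of v * (FreeGroup.of u)⁻¹ *
      (FreeGroup.of v)⁻¹) = 1 := PresentedGroup.one_of_mem ⟨u, v, h, rfl⟩
  simp only [map_mul, map_inv] at h1
  have h2 : PresentedGroup.mk (raagRel adj) (FreeGroup.of u) * PresentedGroup.mk (raagRel adj) (FreeGroup.of v)
      = PresentedGroup.mk (raagRel adj) (FreeGroup.of v) * PresentedGroup.mk (raagRel adj) (FreeGroup.of u) := by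
    rw [mul_inv_eq_one, mul_inv_eq_iff_eq_mul] at h1
    exact h1
  exact h2

/-- the universal property -/
def raagLift {G : Type*} [Group G] (f : V → G) (hf : ∀ u v, adj u v → f u * f v = f v * f u) :
    Raag adj →* G :=
  PresentedGroup.toGroup (f := f) (by
    rintro r ⟨u, v, h, rfl⟩
    simp only [map_mul, map_inv, FreeGroup.lift_apply_of]
    rw [hf u v h]
    group)

@[simp] lemma raagLift_gn {G : Type*} [Group G] (f : V → G)
    (hf : ∀ u v, adj u v → f u * f v = f v * f u) (v : V) : raagLift f hf (gn adj v) = f v :=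
  PresentedGroup.toGroup.of _

lemma closure_gn : Subgroup.closure (Set.range (gn adj)) = ⊤ :=
  PresentedGroup.closure_range_of _

lemma raag_hom_ext {G : Type*} [Group G] {f g : Raag adj →* G} (h : ∀ v, f (gn adj v) = g (gn adj v)) :
    f = g := PresentedGroup.ext h

end raag

/-- integer functions twisted by group elements -/
@[ext] structure Tw (A : Type) where
  f : A → ℤ
  g : A

namespace Tw

variable {A : Type} [Group A]

instance : Mul (Tw A) := ⟨fun a b => ⟨fun x => a.f x + b.f (x * a.g), a.g * b.g⟩⟩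
instance : One (Tw A) := ⟨⟨fun _ => 0, 1⟩⟩
instance : Inv (Tw A) := ⟨fun a => ⟨fun x => -(a.f (x * a.g⁻¹)), a.g⁻¹⟩⟩

@[simp] lemma mul_f (a b : Tw A) (x : A) : (a * b).f x = a.f x + b.f (x * a.g) := rfl
@[simp] lemma mul_g (a b : Tw A) : (a * b).g = a.g * b.g := rfl
@[simp] lemma one_f (x : A) : (1 : Tw A).f x = 0 := rfl
@[simp] lemma one_g : (1 : Tw A).g = 1 := rfl
@[simp] lemma inv_f (a : Tw A) (x : A) : (a⁻¹).f x = -(a.f (x * a.g⁻¹)) := rfl
@[simp] lemma inv_g (a : Tw A) : (a⁻¹).g = a.g⁻¹ := rfl

instance : Group (Tw A) :=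
  Group.ofLeftAxioms
    (by
      intro a b c
      ext x
      · simp only [mul_f, mul_g, mul_assoc, add_assoc]
      · simp only [mul_g, mul_assoc])
    (by
      intro a
      ext x
      · simp
      · simp)
    (by
      intro a
      ext x
      · simp
      · simp)

/-- the projection -/
def toG : Tw A →* A where
  toFun a := a.g
  map_one' := rfl
  map_mul' _ _ := rfl

end Tw

section pairing

variable {A : Type} [Group A]

/-- pairing with a function -/
noncomputable def pr (F : A → ℤ) : MonoidAlgebra ℤ A →+ ℤ :=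
  (Finsupp.liftAddHom (fun g => zmultiplesHom ℤ (F g))).comp
    (MonoidAlgebra.coeffAddEquiv (R := ℤ) (M := A)).toAddMonoidHom

lemma pr_single (F : A → ℤ) (g : A) (n : ℤ) : pr F (MonoidAlgebra.single g n) = n * F g := by
  simp [pr]

lemma pr_gs (F : A → ℤ) (g : A) : pr F (gs g) = F g := by
  rw [gs, pr_single, one_mul]

lemma pr_sub (F G : A → ℤ) (x : MonoidAlgebra ℤ A) : pr (fun g => F g - G g) x = pr F x - pr G x := by
  induction x using MonoidAlgebra.induction_linear with
  | zero => simp
  | add a b ha hb => rw [map_add, ha, hb, map_add, map_add]; ring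
  | single g n => rw [pr_single, pr_single, pr_single]; ring

lemma pr_mul_gs (F : A → ℤ) (x : MonoidAlgebra ℤ A) (h : A) :
    pr F (x * gs h) = pr (fun g => F (g * h)) x := by
  induction x using MonoidAlgebra.induction_linear with
  | zero => simp
  | add a b ha hb => rw [add_mul, map_add, ha, hb, map_add]
  | single g n => rw [gs, MonoidAlgebra.single_mul_single, mul_one, pr_single, pr_single]

lemma pr_single_mul (F : A → ℤ) (x : MonoidAlgebra ℤ A) (h : A) (n : ℤ) :
    pr F (MonoidAlgebra.single h n * x) = n * pr (fun g => F (h * g)) x := by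
  induction x using MonoidAlgebra.induction_linear with
  | zero => simp
  | add a b ha hb => rw [mul_add, map_add, ha, hb, map_add]; ring
  | single g m => rw [MonoidAlgebra.single_mul_single, pr_single, pr_single]; ring

end pairing

section key

variable {A : Type} [Group A] (K : Subgroup A)

/-- pushing forward to cosets -/
noncomputable def qc : MonoidAlgebra ℤ A →+ ((A ⧸ K) →₀ ℤ) :=
  (Finsupp.mapDomain.addMonoidHom (QuotientGroup.mk (s := K))).comp
    (MonoidAlgebra.coeffAddEquiv (R := ℤ) (M := A)).toAddMonoidHom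

lemma qc_single (g : A) (n : ℤ) : qc K (MonoidAlgebra.single g n) = Finsupp.single (g : A ⧸ K) n := by
  simp [qc, Finsupp.mapDomain_single]

open Classical in
lemma qc_apply (x : MonoidAlgebra ℤ A) (a : A) :
    qc K x (a : A ⧸ K) = pr (fun g => if a⁻¹ * g ∈ K then 1 else 0) x := by
  induction x using MonoidAlgebra.induction_linear with
  | zero => simp
  | add x y hx hy => rw [map_add, map_add, Finsupp.add_apply, hx, hy]
  | single g n =>
    rw [qc_single, pr_single, Finsupp.single_apply]
    by_cases h : a⁻¹ * g ∈ K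
    · have h1 : (g : A ⧸ K) = (a : A ⧸ K) := (QuotientGroup.eq.2 h).symm
      rw [if_pos h1, if_pos h, mul_one]
    · have h1 : ¬ (g : A ⧸ K) = (a : A ⧸ K) := fun h2 => h (QuotientGroup.eq.1 h2.symm)
      rw [if_neg h1, if_neg h, mul_zero]

/-- `x` is in a left ideal containing all `g - g k` when its coset sums vanish -/
lemma mem_of_qc (J : Submodule (MonoidAlgebra ℤ A) (MonoidAlgebra ℤ A))
    (hJ : ∀ g : A, ∀ k ∈ K, gs g - gs (g * k) ∈ J) (x : MonoidAlgebra ℤ A) (hx : qc K x = 0) : x ∈ J := by
  let s : (A ⧸ K) → (MonoidAlgebra ℤ A ⧸ J) := fun c =>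
    Quotient.liftOn' c (fun g => J.mkQ (gs g)) (by
      intro g h hgh
      have h1 : g⁻¹ * h ∈ K := QuotientGroup.leftRel_apply.1 hgh
      have h2 := hJ g (g⁻¹ * h) h1
      rw [mul_inv_cancel_left] at h2
      exact (Submodule.Quotient.eq J).2 h2)
  let S : ((A ⧸ K) →₀ ℤ) →+ (MonoidAlgebra ℤ A ⧸ J) :=
    Finsupp.liftAddHom (fun c => zmultiplesHom _ (s c))
  have hS : ∀ y, S (qc K y) = J.mkQ y := by
    intro y
    induction y using MonoidAlgebra.induction_linear with
    | zero => simp
    | add a b ha hb => rw [map_add, map_add, ha, hb, map_add]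
    | single g n =>
      rw [qc_single]
      have : S (Finsupp.single (g : A ⧸ K) n) = n • J.mkQ (gs g) := by
        simp only [S, Finsupp.liftAddHom_apply_single, zmultiplesHom_apply]
        rfl
      rw [this, single_eq g n, map_zsmul]
  have h0 := hS x
  rw [hx, map_zero] at h0
  exact (Submodule.Quotient.mk_eq_zero J).1 h0.symm

end key

section salv

variable {V : Type} (adj : V → V → Prop)

/-- the element `1 - v` -/
noncomputable def e (v : V) : MonoidAlgebra ℤ (Raag adj) := 1 - gs (gn adj v)

lemma e_comm {u v : V} (h : adj u v) : e adj u * e adj v = e adj v * e adj u := by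
  rw [e, e, sub_mul, mul_sub, mul_sub, sub_mul, mul_sub, mul_sub, ← gs_mul, ← gs_mul, gn_comm h]
  simp only [mul_one, one_mul]
  abel

/-- the left ideal of a set of vertices -/
noncomputable def J (T : Set V) : Submodule (MonoidAlgebra ℤ (Raag adj)) (MonoidAlgebra ℤ (Raag adj)) :=
  Submodule.span _ (e adj '' T)

/-- the parabolic subgroup -/
def par (T : Set V) : Subgroup (Raag adj) := Subgroup.closure (gn adj '' T)

lemma gn_mem_par {T : Set V} {t : V} (ht : t ∈ T) : gn adj t ∈ par adj T :=
  Subgroup.subset_closure ⟨t, ht, rfl⟩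

lemma J_par (T : Set V) (g k : Raag adj) (hk : k ∈ par adj T) : gs g - gs (g * k) ∈ J adj T := by
  have key : ∀ k ∈ par adj T, (1 : MonoidAlgebra ℤ (Raag adj)) - gs k ∈ J adj T := by
    intro k hk
    refine Subgroup.closure_induction (p := fun k _ => (1 : MonoidAlgebra ℤ (Raag adj)) - gs k ∈ J adj T)
      ?_ ?_ ?_ ?_ hk
    · rintro _ ⟨t, ht, rfl⟩
      exact Submodule.subset_span ⟨t, ht, rfl⟩
    · rw [gs_one, sub_self]; exact Submodule.zero_mem _
    · intro x y _ _ hx hy
      have : (1 : MonoidAlgebra ℤ (Raag adj)) - gs (x * y) = (1 - gs x) + gs x • (1 - gs y) := by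
        rw [smul_eq_mul, mul_sub, mul_one, gs_mul]; abel
      rw [this]
      exact Submodule.add_mem _ hx (Submodule.smul_mem _ _ hy)
    · intro x _ hx
      have : (1 : MonoidAlgebra ℤ (Raag adj)) - gs x⁻¹ = -(gs x⁻¹ • (1 - gs x)) := by
        rw [smul_eq_mul, mul_sub, mul_one, ← gs_mul, inv_mul_cancel, gs_one]; abel
      rw [this]
      exact Submodule.neg_mem _ (Submodule.smul_mem _ _ hx)
  have : gs g - gs (g * k) = gs g • ((1 : MonoidAlgebra ℤ (Raag adj)) - gs k) := by
    rw [smul_eq_mul, mul_sub, mul_one, gs_mul]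
  rw [this]
  exact Submodule.smul_mem _ _ (key k hk)

lemma pr_J (T : Set V) (x : MonoidAlgebra ℤ (Raag adj)) (hx : x ∈ J adj T) :
    ∀ F : Raag adj → ℤ, (∀ g, ∀ t ∈ T, F (g * gn adj t) = F g) → pr F x = 0 := by
  refine Submodule.span_induction (p := fun x _ => ∀ F : Raag adj → ℤ,
    (∀ g, ∀ t ∈ T, F (g * gn adj t) = F g) → pr F x = 0) ?_ ?_ ?_ ?_ hx
  · rintro _ ⟨t, ht, rfl⟩ F hF
    rw [e, map_sub, ← gs_one, pr_gs, pr_gs, sub_eq_zero, ← hF 1 t ht, one_mul]
  · intro F _; exact map_zero _
  · intro x y _ _ hx hy F hF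
    rw [map_add, hx F hF, hy F hF, add_zero]
  · intro r x _ hx F hF
    rw [smul_eq_mul]
    induction r using MonoidAlgebra.induction_linear with
    | zero => simp
    | add a b ha hb => rw [add_mul, map_add, ha, hb, add_zero]
    | single h n =>
      rw [pr_single_mul, hx (fun g => F (h * g)) (by
        intro g t ht
        show F (h * (g * gn adj t)) = F (h * g)
        rw [← mul_assoc, hF _ t ht]), mul_zero]

open Classical in
lemma par_inter (T : Set V) (v : V) (hirr : ∀ v, ¬ adj v v) (g : Raag adj)
    (h1 : g ∈ par adj (insert v T)) (h2 : g ∈ par adj {u | adj u v}) :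
    g ∈ par adj (T ∩ {u | adj u v}) := by
  let f : V → Raag adj := fun u => if u ∈ insert v T then gn adj u else 1
  have hf : ∀ u w, adj u w → f u * f w = f w * f u := by
    intro u w huw
    by_cases hu : u ∈ insert v T
    · by_cases hw : w ∈ insert v T
      · simp only [f, if_pos hu, if_pos hw]; exact gn_comm huw
      · simp only [f, if_pos hu, if_neg hw, mul_one, one_mul]
    · simp only [f, if_neg hu, mul_one, one_mul]
  have hr : raagLift f hf g = g := by
    refine Subgroup.closure_induction (p := fun g _ => raagLift f hf g = g) ?_ ?_ ?_ ?_ h1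
    · rintro _ ⟨t, ht, rfl⟩
      rw [raagLift_gn]
      exact if_pos ht
    · exact map_one _
    · intro x y _ _ hx hy
      rw [map_mul, hx, hy]
    · intro x _ hx
      rw [map_inv, hx]
  rw [← hr]
  refine Subgroup.closure_induction (p := fun g _ => raagLift f hf g ∈ par adj (T ∩ {u | adj u v})) ?_ ?_ ?_ ?_ h2
  · rintro _ ⟨t, ht, rfl⟩
    rw [raagLift_gn]
    by_cases htT : t ∈ insert v T
    · simp only [f, if_pos htT]
      apply gn_mem_par
      refine ⟨?_, ht⟩
      rcases htT with h | h
      · exfalso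
        rw [h] at ht
        exact hirr v ht
      · exact h
    · simp only [f, if_neg htT]
      exact Subgroup.one_mem _
  · rw [map_one]; exact Subgroup.one_mem _
  · intro x y _ _ hx hy
    rw [map_mul]; exact Subgroup.mul_mem _ hx hy
  · intro x _ hx
    rw [map_inv]; exact Subgroup.inv_mem _ hx

lemma par_mono {S T : Set V} (h : S ⊆ T) : par adj S ≤ par adj T :=
  Subgroup.closure_mono (Set.image_mono h)

open Classical in
/-- the counting function -/
lemma exists_count (v : V) (hsymm : ∀ u v, adj u v → adj v u) : ∃ F : Raag adj → ℤ,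
    (∀ g u, F (g * gn adj u) = F g + if u = v then (if g ∈ par adj {u | adj u v} then 1 else 0) else 0) := by
  let φ : Raag adj → ℤ := fun g => if g ∈ par adj {u | adj u v} then 1 else 0
  have hφ : ∀ g w, adj w v → φ (g * gn adj w) = φ g := by
    intro g w hw
    have h1 : gn adj w ∈ par adj {u | adj u v} := gn_mem_par adj hw
    simp only [φ, Subgroup.mul_mem_cancel_right _ h1]
  let f : V → Tw (Raag adj) := fun u => ⟨if u = v then φ else fun _ => 0, gn adj u⟩
  have hf : ∀ u w, adj u w → f u * f w = f w * f u := by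
    intro u w huw
    ext x
    · simp only [Tw.mul_f, f]
      by_cases hu : u = v
      · by_cases hw : w = v
        · simp only [hu, hw]
        · rw [if_pos hu, if_neg hw, hφ x w (by rw [← hu]; exact hsymm _ _ huw), add_comm]
      · by_cases hw : w = v
        · rw [if_pos hw, if_neg hu, hφ x u (by rw [← hw]; exact huw), add_comm]
        · rw [if_neg hw, if_neg hu]
    · exact gn_comm huw
  have hg : ∀ g, (raagLift f hf g).g = g := by
    intro g
    have : Tw.toG.comp (raagLift f hf) = MonoidHom.id _ := by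
      apply raag_hom_ext
      intro u
      simp only [MonoidHom.comp_apply, raagLift_gn, MonoidHom.id_apply]
      rfl
    exact DFunLike.congr_fun this g
  refine ⟨fun g => (raagLift f hf g).f 1, ?_⟩
  intro g u
  beta_reduce
  rw [map_mul, Tw.mul_f, one_mul, hg, raagLift_gn]
  congr 1
  simp only [f]
  by_cases hu : u = v
  · rw [if_pos hu, if_pos hu]
  · rw [if_neg hu, if_neg hu]

/-- the key lemma -/
theorem key_lemma (hsymm : ∀ u v, adj u v → adj v u) (hirr : ∀ v, ¬ adj v v) (T : Set V) (v : V) (hv : v ∉ T)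
    (x : MonoidAlgebra ℤ (Raag adj)) (hx : x * e adj v ∈ J adj T) : x ∈ J adj (T ∩ {u | adj u v}) := by
  classical
  obtain ⟨F, hF⟩ := exists_count adj v hsymm
  apply mem_of_qc (par adj (T ∩ {u | adj u v}))
  · intro g k hk
    exact J_par adj _ g k hk
  · ext c
    induction c using QuotientGroup.induction_on with
    | H a =>
    rw [qc_apply, Finsupp.zero_apply]
    let Fa : Raag adj → ℤ := fun g => if a⁻¹ * g ∈ par adj (insert v T) then F (a⁻¹ * g) else 0
    have hmem : ∀ g u, u ∈ insert v T → (a⁻¹ * (g * gn adj u) ∈ par adj (insert v T) ↔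
        a⁻¹ * g ∈ par adj (insert v T)) := by
      intro g u hu
      rw [← mul_assoc, Subgroup.mul_mem_cancel_right _ (gn_mem_par adj hu)]
    have h1 : ∀ g, ∀ t ∈ T, Fa (g * gn adj t) = Fa g := by
      intro g t ht
      have htv : t ≠ v := fun h => hv (h ▸ ht)
      simp only [Fa, hmem g t (Set.mem_insert_of_mem _ ht)]
      rw [← mul_assoc, hF, if_neg htv, add_zero]
    have h2 : ∀ g, Fa (g * gn adj v) - Fa g = if a⁻¹ * g ∈ par adj (T ∩ {u | adj u v}) then 1 else 0 := by
      intro g
      simp only [Fa, hmem g v (Set.mem_insert _ _)]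
      by_cases h3 : a⁻¹ * g ∈ par adj (insert v T)
      · rw [if_pos h3, if_pos h3, ← mul_assoc, hF, if_pos rfl, add_sub_cancel_left]
        by_cases h4 : a⁻¹ * g ∈ par adj {u | adj u v}
        · rw [if_pos h4, if_pos (par_inter adj T v hirr _ h3 h4)]
        · rw [if_neg h4, if_neg (fun h5 => h4 (par_mono adj Set.inter_subset_right h5))]
      · rw [if_neg h3, if_neg h3, if_neg (fun h5 => h3 (par_mono adj
          (Set.inter_subset_left.trans (Set.subset_insert _ _)) h5)), sub_zero]
    have h3 : pr Fa (x * e adj v) = 0 := pr_J adj T _ hx Fa h1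
    rw [e, mul_sub, mul_one, map_sub, pr_mul_gs] at h3
    have h4 : pr (fun g => Fa (g * gn adj v) - Fa g) x = 0 := by
      rw [pr_sub]; linarith
    simp only [h2] at h4
    exact h4

/-- right multiplication by `1 - v` is injective -/
theorem mul_e_inj (hsymm : ∀ u v, adj u v → adj v u) (hirr : ∀ v, ¬ adj v v) (v : V)
    (x : MonoidAlgebra ℤ (Raag adj)) (hx : x * e adj v = 0) : x = 0 := by
  have h := key_lemma adj hsymm hirr ∅ v (Set.notMem_empty _) x (by rw [hx]; exact Submodule.zero_mem _)
  rw [Set.empty_inter, J, Set.image_empty, Submodule.span_empty] at h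
  exact h

end salv

end Pool.Agent.W348
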