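import Pool.Agent.W348.F1

set_option autoImplicit false

namespace Pool.Agent.W348

open MonoidAlgebra

section cplx

variable {V : Type} [Fintype V] [LinearOrder V] (adj : V → V → Prop) {R : Type} [Ring R]

/-- support condition in degree two -/
def C2 (T : Finset V) {M : Type} [AddCommGroup M] (y : V → V → M) : Prop :=
  ∀ s t, ¬ (s < t ∧ adj s t ∧ s ∈ T ∧ t ∈ T) → y s t = 0

/-- support condition in degree three -/
def C3 (T : Finset V) {M : Type} [AddCommGroup M] (z : V → V → V → M) : Prop :=
  ∀ s t u, ¬ (s < t ∧ t < u ∧ adj s t ∧ adj s u ∧ adj t u ∧ s ∈ T ∧ t ∈ T ∧ u ∈ T) → z s t u = 0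

lemma C2.mono {T T' : Finset V} (h : T ⊆ T') {M : Type} [AddCommGroup M] {y : V → V → M} (hy : C2 adj T y) :
    C2 adj T' y := fun s t hst => hy s t (fun h1 => hst ⟨h1.1, h1.2.1, h h1.2.2.1, h h1.2.2.2⟩)

lemma C3.mono {T T' : Finset V} (h : T ⊆ T') {M : Type} [AddCommGroup M] {z : V → V → V → M}
    (hz : C3 adj T z) : C3 adj T' z := fun s t u hst => hz s t u (fun h1 =>
  hst ⟨h1.1, h1.2.1, h1.2.2.1, h1.2.2.2.1, h1.2.2.2.2.1, h h1.2.2.2.2.2.1, h h1.2.2.2.2.2.2.1,
    h h1.2.2.2.2.2.2.2⟩)

lemma C2.add {T : Finset V} {M : Type} [AddCommGroup M] {y y' : V → V → M}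
    (hy : C2 adj T y) (hy' : C2 adj T y') : C2 adj T (y + y') := fun s t h => by
  rw [Pi.add_apply, Pi.add_apply, hy s t h, hy' s t h, add_zero]

lemma C3.add {T : Finset V} {M : Type} [AddCommGroup M] {y y' : V → V → V → M}
    (hy : C3 adj T y) (hy' : C3 adj T y') : C3 adj T (y + y') := fun s t u h => by
  rw [Pi.add_apply, Pi.add_apply, Pi.add_apply, hy s t u h, hy' s t u h, add_zero]

variable (w : V → R)

/-- weighted boundary in degree one -/
noncomputable def b1 : (V → R) →ₗ[R] R where
  toFun x := ∑ v, x v * w v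
  map_add' x y := by simp only [Pi.add_apply, add_mul, Finset.sum_add_distrib]
  map_smul' r x := by
    simp only [Pi.smul_apply, smul_eq_mul, mul_assoc, Finset.mul_sum, RingHom.id_apply]

/-- weighted boundary in degree two -/
noncomputable def b2 : (V → V → R) →ₗ[R] (V → R) where
  toFun y := fun t => ∑ s, (y s t - y t s) * w s
  map_add' x y := by
    funext t
    simp only [Pi.add_apply]
    rw [← Finset.sum_add_distrib]
    refine Finset.sum_congr rfl (fun s _ => ?_)
    rw [← add_mul]
    congr 1
    abel
  map_smul' r x := by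
    funext t
    simp only [Pi.smul_apply, smul_eq_mul, Finset.mul_sum, RingHom.id_apply]
    refine Finset.sum_congr rfl (fun s _ => ?_)
    rw [← mul_sub, mul_assoc]

/-- weighted boundary in degree three -/
noncomputable def b3 : (V → V → V → R) →ₗ[R] (V → V → R) where
  toFun z := fun s t => ∑ u, (z u s t - z s u t + z s t u) * w u
  map_add' x y := by
    funext s t
    simp only [Pi.add_apply]
    rw [← Finset.sum_add_distrib]
    refine Finset.sum_congr rfl (fun u _ => ?_)
    rw [← add_mul]
    congr 1
    abel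
  map_smul' r x := by
    funext s t
    simp only [Pi.smul_apply, smul_eq_mul, Finset.mul_sum, RingHom.id_apply]
    refine Finset.sum_congr rfl (fun u _ => ?_)
    rw [← mul_sub, ← mul_add, mul_assoc]

lemma b1_apply (x : V → R) : b1 w x = ∑ v, x v * w v := rfl
lemma b2_apply (y : V → V → R) (t : V) : b2 w y t = ∑ s, (y s t - y t s) * w s := rfl
lemma b3_apply (z : V → V → V → R) (s t : V) :
    b3 w z s t = ∑ u, (z u s t - z s u t + z s t u) * w u := rfl

variable {w} (hw : ∀ s t, adj s t → w s * w t = w t * w s)

include hw in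
lemma b1_b2 (y : V → V → R) (hy : C2 adj Finset.univ y) : b1 w (b2 w y) = 0 := by
  have hc : ∀ s t, y s t * (w s * w t) = y s t * (w t * w s) := by
    intro s t
    by_cases h : adj s t
    · rw [hw s t h]
    · rw [hy s t (fun h1 => h h1.2.1), zero_mul, zero_mul]
  rw [b1_apply]
  have h1 : ∀ t, b2 w y t * w t = ∑ s, y s t * (w s * w t) - ∑ s, y t s * (w s * w t) := by
    intro t
    rw [b2_apply, Finset.sum_mul, ← Finset.sum_sub_distrib]
    refine Finset.sum_congr rfl (fun s _ => ?_)
    rw [mul_assoc, sub_mul]
  rw [Finset.sum_congr rfl (fun t _ => h1 t), Finset.sum_sub_distrib, sub_eq_zero, Finset.sum_comm]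
  refine Finset.sum_congr rfl (fun s _ => Finset.sum_congr rfl (fun t _ => ?_))
  exact hc s t

include hw in
lemma b2_b3 (hsymm : ∀ u v, adj u v → adj v u) (z : V → V → V → R) (hz : C3 adj Finset.univ z) :
    b2 w (b3 w z) = 0 := by
  have hc : ∀ s u, (adj s u ∨ adj u s) → w s * w u = w u * w s := by
    intro s u h
    rcases h with h | h
    · exact hw s u h
    · exact (hw u s h).symm
  have hc1 : ∀ s u t, z s u t * (w u * w s) = z s u t * (w s * w u) := by
    intro s u t
    by_cases h : adj s u
    · rw [hw s u h]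
    · rw [hz s u t (fun h1 => h h1.2.2.1), zero_mul, zero_mul]
  have hc2 : ∀ s t u, z s t u * (w u * w s) = z s t u * (w s * w u) := by
    intro s t u
    by_cases h : adj s u
    · rw [hw s u h]
    · rw [hz s t u (fun h1 => h h1.2.2.2.1), zero_mul, zero_mul]
  have hc3 : ∀ t s u, z t s u * (w u * w s) = z t s u * (w s * w u) := by
    intro t s u
    by_cases h : adj s u
    · rw [hw s u h]
    · rw [hz t s u (fun h1 => h h1.2.2.2.2.1), zero_mul, zero_mul]
  funext t
  rw [b2_apply, Pi.zero_apply]
  have h1 : ∀ s, (b3 w z s t - b3 w z t s) * w s =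
      ∑ u, ((z u s t * (w u * w s) - z s u t * (w s * w u)) + (z s t u * (w u * w s) - z u t s * (w s * w u))
        + (z t u s * (w u * w s) - z t s u * (w s * w u))) := by
    intro s
    rw [b3_apply, b3_apply, ← Finset.sum_sub_distrib, Finset.sum_mul]
    refine Finset.sum_congr rfl (fun u _ => ?_)
    rw [← hc1 s u t, ← hc3 t s u, hc2 u t s]
    simp only [sub_mul, add_mul, mul_assoc]
    abel
  rw [Finset.sum_congr rfl (fun s _ => h1 s)]
  have h2 : ∀ f : V → V → R, ∑ s, ∑ u, (f s u - f u s) = 0 := by
    intro f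
    have : ∑ s, ∑ u, (f s u - f u s) = ∑ s, ∑ u, f s u - ∑ s, ∑ u, f u s := by
      rw [← Finset.sum_sub_distrib]
      exact Finset.sum_congr rfl (fun s _ => Finset.sum_sub_distrib _ _)
    rw [this, sub_eq_zero, Finset.sum_comm]
  simp only [Finset.sum_add_distrib]
  have e1 := h2 (fun s u => z u s t * (w u * w s))
  have e2 := h2 (fun s u => z s t u * (w u * w s))
  have e3 := h2 (fun s u => z t u s * (w u * w s))
  beta_reduce at e1 e2 e3
  rw [e1, e2, e3, add_zero, add_zero]

end cplx

section exact

variable {V : Type} [Fintype V] [LinearOrder V] (adj : V → V → Prop)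

lemma mem_J_sum (T : Set V) (x : MonoidAlgebra ℤ (Raag adj)) (hx : x ∈ J adj T) :
    ∃ z : V → MonoidAlgebra ℤ (Raag adj), (∀ v, v ∉ T → z v = 0) ∧ b1 (e adj) z = x := by
  classical
  refine Submodule.span_induction (p := fun x _ => ∃ z : V → MonoidAlgebra ℤ (Raag adj),
    (∀ v, v ∉ T → z v = 0) ∧ b1 (e adj) z = x) ?_ ?_ ?_ ?_ hx
  · rintro _ ⟨t, ht, rfl⟩
    refine ⟨Pi.single t 1, ?_, ?_⟩
    · intro v hv
      rw [Pi.single_eq_of_ne (fun h : v = t => hv (h ▸ ht))]
    · rw [b1_apply, Finset.sum_eq_single t, Pi.single_eq_same, one_mul]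
      · intro v _ hv
        rw [Pi.single_eq_of_ne hv, zero_mul]
      · intro h; exact absurd (Finset.mem_univ _) h
  · exact ⟨0, fun _ _ => rfl, map_zero _⟩
  · rintro x y _ _ ⟨z, hz, hz'⟩ ⟨z', hz1, hz1'⟩
    exact ⟨z + z', fun v hv => by rw [Pi.add_apply, hz v hv, hz1 v hv, add_zero], by
      rw [map_add, hz', hz1']⟩
  · rintro r x _ ⟨z, hz, hz'⟩
    exact ⟨r • z, fun v hv => by rw [Pi.smul_apply, hz v hv, smul_zero], by rw [map_smul, hz']⟩

lemma sum_mem_J (T : Set V) (z : V → MonoidAlgebra ℤ (Raag adj)) (hz : ∀ v, v ∉ T → z v = 0) :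
    b1 (e adj) z ∈ J adj T := by
  rw [b1_apply]
  refine Submodule.sum_mem _ (fun v _ => ?_)
  by_cases h : v ∈ T
  · exact Submodule.smul_mem _ _ (Submodule.subset_span ⟨v, h, rfl⟩)
  · rw [hz v h, zero_mul]; exact Submodule.zero_mem _

variable (hsymm : ∀ u v, adj u v → adj v u) (hirr : ∀ v, ¬ adj v v)

include hsymm hirr in
theorem exact_one (T : Finset V) : ∀ x : V → MonoidAlgebra ℤ (Raag adj), (∀ v, v ∉ T → x v = 0) →
    b1 (e adj) x = 0 → ∃ y, C2 adj T y ∧ b2 (e adj) y = x := by
  classical
  induction T using Finset.induction_on_max with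
  | empty =>
    intro x hx _
    refine ⟨0, fun _ _ _ => rfl, ?_⟩
    rw [map_zero]
    funext v
    exact (hx v (Finset.notMem_empty _)).symm
  | insert m T hm ih =>
    intro x hx hx0
    have hmT : m ∉ T := fun h => lt_irrefl _ (hm m h)
    -- the top coefficient
    have h1 : x m * e adj m ∈ J adj (T : Set V) := by
      have h2 : x m * e adj m = - b1 (e adj) (Function.update x m 0) := by
        have h3 : b1 (e adj) (Function.update x m 0) = ∑ v ∈ Finset.univ.erase m, x v * e adj v := by
          rw [b1_apply, ← Finset.add_sum_erase _ _ (Finset.mem_univ m), Function.update_self,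
            zero_mul, zero_add]
          refine Finset.sum_congr rfl (fun v hv => ?_)
          rw [Function.update_of_ne (Finset.ne_of_mem_erase hv)]
        have h4 : b1 (e adj) x = x m * e adj m + ∑ v ∈ Finset.univ.erase m, x v * e adj v := by
          rw [b1_apply, ← Finset.add_sum_erase _ _ (Finset.mem_univ m)]
        rw [h3, eq_neg_iff_add_eq_zero, ← h4, hx0]
      rw [h2]
      apply Submodule.neg_mem
      apply sum_mem_J
      intro v hv
      by_cases hvm : v = m
      · rw [hvm, Function.update_self]
      · rw [Function.update_of_ne hvm]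
        exact hx v (fun h => by
          rcases Finset.mem_insert.1 h with h | h
          · exact hvm h
          · exact hv h)
    obtain ⟨z, hz, hz1⟩ := mem_J_sum adj _ _ (key_lemma adj hsymm hirr (T : Set V) m hmT (x m) h1)
    have hz' : ∀ v, ¬ (v ∈ T ∧ adj v m) → z v = 0 := fun v hv => hz v (fun h => hv ⟨h.1, h.2⟩)
    have hzm : z m = 0 := hz' m (fun h => hmT h.1)
    let y1 : V → V → MonoidAlgebra ℤ (Raag adj) := fun s t => if t = m then z s else 0
    have hy1 : C2 adj (insert m T) y1 := by
      intro s t hst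
      by_cases ht : t = m
      · simp only [y1, if_pos ht]
        apply hz'
        rintro ⟨h2, h3⟩
        subst ht
        exact hst ⟨hm s h2, h3, Finset.mem_insert_of_mem h2, Finset.mem_insert_self _ _⟩
      · simp only [y1, if_neg ht]
    have hb : ∀ t, b2 (e adj) y1 t = if t = m then x m else - (z t * e adj m) := by
      intro t
      rw [b2_apply]
      by_cases ht : t = m
      · rw [if_pos ht, ← hz1, b1_apply]
        refine Finset.sum_congr rfl (fun s _ => ?_)
        have h2 : y1 s t = z s := if_pos ht
        have h3 : y1 t s = 0 := by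
          by_cases hs : s = m
          · simp only [y1, if_pos hs, ht, hzm]
          · simp only [y1, if_neg hs]
        rw [h2, h3, sub_zero]
      · rw [if_neg ht, Finset.sum_eq_single m]
        · have h2 : y1 m t = 0 := if_neg ht
          have h3 : y1 t m = z t := if_pos rfl
          rw [h2, h3, zero_sub, neg_mul]
        · intro s _ hs
          have h2 : y1 s t = 0 := if_neg ht
          have h3 : y1 t s = 0 := if_neg hs
          rw [h2, h3, sub_zero, zero_mul]
        · intro h; exact absurd (Finset.mem_univ _) h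
    obtain ⟨y', hy', hy''⟩ := ih (x - b2 (e adj) y1) (by
      intro v hv
      rw [Pi.sub_apply, hb]
      by_cases hvm : v = m
      · rw [if_pos hvm, hvm, sub_self]
      · rw [if_neg hvm, hz' v (fun h => hv h.1), zero_mul, neg_zero, sub_zero]
        exact hx v (fun h => by
          rcases Finset.mem_insert.1 h with h | h
          · exact hvm h
          · exact hv h)) (by
      rw [map_sub, hx0, b1_b2 adj (fun s t h => e_comm adj h) y1 (hy1.mono adj (Finset.subset_univ _)), sub_zero])
    refine ⟨y' + y1, (hy'.mono adj (Finset.subset_insert _ _)).add adj hy1, ?_⟩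
    rw [map_add, hy'', sub_add_cancel]

include hsymm hirr in
theorem exact_two (T : Finset V) : ∀ y : V → V → MonoidAlgebra ℤ (Raag adj), C2 adj T y →
    b2 (e adj) y = 0 → ∃ z, C3 adj T z ∧ b3 (e adj) z = y := by
  classical
  induction T using Finset.induction_on_max with
  | empty =>
    intro y hy _
    refine ⟨0, fun _ _ _ _ => rfl, ?_⟩
    rw [map_zero]
    funext s t
    exact (hy s t (fun h => Finset.notMem_empty _ h.2.2.1)).symm
  | insert m T hm ih =>
    intro y hy hy0
    have hmT : m ∉ T := fun h => lt_irrefl _ (hm m h)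
    have hym : ∀ s, y m s = 0 := by
      intro s
      apply hy
      rintro ⟨h1, _, _, h2⟩
      rcases Finset.mem_insert.1 h2 with h | h
      · rw [h] at h1; exact lt_irrefl _ h1
      · exact lt_irrefl _ (h1.trans (hm s h))
    let S : Finset V := T.filter (fun v => adj v m)
    have hmS : m ∉ S := fun h => hmT (Finset.mem_filter.1 h).1
    have hw0 : ∀ v, v ∉ S → y v m = 0 := by
      intro v hv
      apply hy
      rintro ⟨h1, h2, h3, _⟩
      apply hv
      rw [Finset.mem_filter]
      refine ⟨?_, h2⟩
      rcases Finset.mem_insert.1 h3 with h | h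
      · rw [h] at h1; exact absurd h1 (lt_irrefl _)
      · exact h
    have hw1 : b1 (e adj) (fun s => y s m) = 0 := by
      have h1 := congrFun hy0 m
      rw [b2_apply, Pi.zero_apply] at h1
      rw [b1_apply, ← h1]
      refine Finset.sum_congr rfl (fun s _ => ?_)
      rw [hym s, sub_zero]
    obtain ⟨v, hv, hv1⟩ := exact_one adj hsymm hirr S (fun s => y s m) hw0 hw1
    have hvm : ∀ s, v s m = 0 := fun s => hv s m (fun h => hmS h.2.2.2)
    have hvm' : ∀ s, v m s = 0 := fun s => hv m s (fun h => hmS h.2.2.1)
    let z1 : V → V → V → MonoidAlgebra ℤ (Raag adj) := fun s t u => if u = m then v s t else 0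
    have hz1 : C3 adj (insert m T) z1 := by
      intro s t u hst
      by_cases hu : u = m
      · simp only [z1, if_pos hu]
        apply hv
        rintro ⟨h1, h2, h3, h4⟩
        rw [Finset.mem_filter] at h3 h4
        subst hu
        exact hst ⟨h1, hm t h4.1, h2, h3.2, h4.2, Finset.mem_insert_of_mem h3.1, Finset.mem_insert_of_mem h4.1,
          Finset.mem_insert_self _ _⟩
      · simp only [z1, if_neg hu]
    have hb : ∀ s t, b3 (e adj) z1 s t = if t = m then y s m else v s t * e adj m := by
      intro s t
      rw [b3_apply]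
      by_cases ht : t = m
      · rw [if_pos ht]
        have h0 := congrFun hv1 s
        rw [b2_apply] at h0
        rw [← h0]
        refine Finset.sum_congr rfl (fun u _ => ?_)
        have h2 : z1 u s t = v u s := if_pos ht
        have h3 : z1 s u t = v s u := if_pos ht
        have h4 : z1 s t u = 0 := by
          by_cases hs : u = m
          · simp only [z1, if_pos hs, ht, hvm]
          · simp only [z1, if_neg hs]
        rw [h2, h3, h4, add_zero]
      · rw [if_neg ht, Finset.sum_eq_single m]
        · have h2 : z1 m s t = 0 := if_neg ht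
          have h3 : z1 s m t = 0 := if_neg ht
          have h4 : z1 s t m = v s t := if_pos rfl
          rw [h2, h3, h4, sub_zero, zero_add]
        · intro u _ hu
          have h2 : z1 u s t = 0 := if_neg ht
          have h3 : z1 s u t = 0 := if_neg ht
          have h4 : z1 s t u = 0 := if_neg hu
          rw [h2, h3, h4, sub_zero, add_zero, zero_mul]
        · intro h; exact absurd (Finset.mem_univ _) h
    obtain ⟨z', hz', hz''⟩ := ih (y - b3 (e adj) z1) (by
      intro s t hst
      rw [Pi.sub_apply, Pi.sub_apply, hb]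
      by_cases htm : t = m
      · rw [if_pos htm, htm, sub_self]
      · rw [if_neg htm]
        have h1 : y s t = 0 := by
          apply hy
          rintro ⟨h1, h2, h3, h4⟩
          have h4' : t ∈ T := by
            rcases Finset.mem_insert.1 h4 with h | h
            · exact absurd h htm
            · exact h
          apply hst
          refine ⟨h1, h2, ?_, h4'⟩
          rcases Finset.mem_insert.1 h3 with h | h
          · rw [h] at h1; exact absurd (h1.trans (hm t h4')) (lt_irrefl _)
          · exact h
        have h2 : v s t = 0 := by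
          apply hv
          rintro ⟨h1, h2, h3, h4⟩
          rw [Finset.mem_filter] at h3 h4
          exact hst ⟨h1, h2, h3.1, h4.1⟩
        rw [h1, h2, zero_mul, sub_zero]) (by
      rw [map_sub, hy0, b2_b3 adj (fun s t h => e_comm adj h) hsymm z1 (hz1.mono adj (Finset.subset_univ _)),
        sub_zero])
    refine ⟨z' + z1, (hz'.mono adj (Finset.subset_insert _ _)).add adj hz1, ?_⟩
    rw [map_add, hz'', sub_add_cancel]

lemma exact_zero (x : MonoidAlgebra ℤ (Raag adj)) (hx : eps ℤ (Raag adj) x = 0) :
    ∃ c : V → MonoidAlgebra ℤ (Raag adj), b1 (e adj) c = x := by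
  have h1 : ∀ x : MonoidAlgebra ℤ (Raag adj), (eps ℤ (Raag adj) x) • (1 : MonoidAlgebra ℤ (Raag adj)) - x
      ∈ J adj Set.univ := by
    intro x
    induction x using MonoidAlgebra.induction_linear with
    | zero => simp
    | add a b ha hb =>
      have : (eps ℤ (Raag adj) (a + b)) • (1 : MonoidAlgebra ℤ (Raag adj)) - (a + b) =
          ((eps ℤ (Raag adj) a) • (1 : MonoidAlgebra ℤ (Raag adj)) - a) +
          ((eps ℤ (Raag adj) b) • (1 : MonoidAlgebra ℤ (Raag adj)) - b) := by
        rw [map_add, add_smul]; abel
      rw [this]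
      exact Submodule.add_mem _ ha hb
    | single g n =>
      have hg : g ∈ par adj (Set.univ : Set V) := by
        rw [par, Set.image_univ, closure_gn]; exact Subgroup.mem_top _
      have h2 := J_par adj Set.univ 1 g hg
      rw [one_mul, gs_one] at h2
      rw [eps_single, single_eq g n, ← smul_sub]
      exact zsmul_mem h2 n
  have h2 := h1 x
  rw [hx, zero_smul, zero_sub] at h2
  have h3 := Submodule.neg_mem _ h2
  rw [neg_neg] at h3
  obtain ⟨z, _, hz⟩ := mem_J_sum adj _ _ h3
  exact ⟨z, hz⟩

end exact

end Pool.Agent.W348
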