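import Pool.Agent.W348.F2

set_option autoImplicit false

namespace Pool.Agent.W348

open MonoidAlgebra

/-- finitely generated projective -/
def FGP (S : Type) [Ring S] (M : Type) [AddCommGroup M] [Module S M] : Prop :=
  Module.Finite S M ∧ Module.Projective S M

section fgp

variable {S : Type} [Ring S] {M N P : Type} [AddCommGroup M] [Module S M] [AddCommGroup N] [Module S N]
  [AddCommGroup P] [Module S P]

lemma FGP.equiv (e : M ≃ₗ[S] N) (h : FGP S M) : FGP S N := by
  obtain ⟨h1, h2⟩ := h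
  exact ⟨Module.Finite.equiv e, Module.Projective.of_equiv e⟩

lemma FGP.self : FGP S S := ⟨inferInstance, inferInstance⟩

lemma FGP.subsingleton [Subsingleton M] : FGP S M :=
  ⟨inferInstance, Module.Projective.of_free⟩

lemma FGP.ext (f : M →ₗ[S] N) (g : N →ₗ[S] P) (hf : Function.Injective f) (hg : Function.Surjective g)
    (hfg : Function.Exact f g) (hM : FGP S M) (hP : FGP S P) : FGP S N := by
  obtain ⟨h1, h2⟩ := hM
  obtain ⟨h3, h4⟩ := hP
  obtain ⟨l, hl⟩ := Module.projective_lifting_property g LinearMap.id hg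
  obtain ⟨e, _⟩ := Function.Exact.splitSurjectiveEquiv hfg hf ⟨l, hl⟩
  exact ⟨Module.Finite.equiv e.symm, Module.Projective.of_equiv e.symm⟩

lemma FGP.pi {ι : Type} [Fintype ι] [DecidableEq ι] (M : ι → Type) [∀ i, AddCommGroup (M i)]
    [∀ i, Module S (M i)] (h : ∀ i, FGP S (M i)) : FGP S (∀ i, M i) := by
  have h1 : ∀ i, Module.Finite S (M i) := fun i => (h i).1
  have h2 : ∀ i, Module.Projective S (M i) := fun i => (h i).2
  refine ⟨Module.Finite.pi, ?_⟩
  exact Module.Projective.of_equiv (DirectSum.linearEquivFunOnFintype S ι M)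

theorem FPn_three {T D1 D2 D3 : Type} [AddCommGroup T] [Module S T] [AddCommGroup D1] [Module S D1]
    [AddCommGroup D2] [Module S D2] [AddCommGroup D3] [Module S D3]
    (f1 : D1 →ₗ[S] T) (f2 : D2 →ₗ[S] D1) (f3 : D3 →ₗ[S] D2) (hD1 : FGP S D1) (hD2 : FGP S D2)
    (hD3 : FGP S D3) (h1 : Function.Surjective f1) (h21 : ∀ y, f1 (f2 y) = 0)
    (h22 : ∀ x, f1 x = 0 → ∃ y, f2 y = x) (h31 : ∀ z, f2 (f3 z) = 0)
    (h32 : ∀ y, f2 y = 0 → ∃ z, f3 z = y) (h4 : ∀ z, f3 z = 0 → z = 0) : FPn S 3 T := by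
  refine ⟨D1, inferInstance, inferInstance, f1, hD1.1, hD1.2, h1, ?_⟩
  refine ⟨D2, inferInstance, inferInstance, f2.codRestrict (LinearMap.ker f1) h21, hD2.1, hD2.2, ?_, ?_⟩
  · rintro ⟨x, hx⟩
    obtain ⟨y, hy⟩ := h22 x hx
    exact ⟨y, Subtype.ext hy⟩
  refine ⟨D3, inferInstance, inferInstance, f3.codRestrict _ (fun z => ?_), hD3.1, hD3.2, ?_, ?_⟩
  · rw [LinearMap.ker_codRestrict]
    exact h31 z
  · rintro ⟨y, hy⟩
    have hy' : f2 y = 0 := by
      rw [LinearMap.ker_codRestrict] at hy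
      exact hy
    obtain ⟨z, hz⟩ := h32 y hy'
    exact ⟨z, Subtype.ext hz⟩
  · have : Subsingleton (LinearMap.ker (f3.codRestrict (LinearMap.ker (f2.codRestrict (LinearMap.ker f1) h21))
        (fun z => by rw [LinearMap.ker_codRestrict]; exact h31 z))) := by
      refine ⟨?_⟩
      rintro ⟨x, hx⟩ ⟨y, hy⟩
      rw [LinearMap.ker_codRestrict] at hx hy
      apply Subtype.ext
      exact (h4 x hx).trans (h4 y hy).symm
    show Module.Finite S _
    infer_instance

end fgp

section restrict

variable {R S : Type} [Ring R] [Ring S] [Module S R] [IsScalarTower S R R]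

lemma FGP.quot_mul (a b : R) (hb : ∀ x, x * b = 0 → x = 0) (h1 : FGP S (R ⧸ Submodule.span R {a}))
    (h2 : FGP S (R ⧸ Submodule.span R {b})) : FGP S (R ⧸ Submodule.span R {a * b}) := by
  have hab : Submodule.span R {a * b} ≤ Submodule.span R {b} := by
    rw [Submodule.span_le]
    rintro _ rfl
    exact Submodule.smul_mem _ a (Submodule.mem_span_singleton_self b)
  let f : (R ⧸ Submodule.span R {a}) →ₗ[R] (R ⧸ Submodule.span R {a * b}) :=
    Submodule.mapQ _ _ (LinearMap.toSpanSingleton R R b) (by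
      rw [Submodule.span_le]
      intro c hc
      rw [Set.mem_singleton_iff] at hc
      rw [hc]
      show a • b ∈ Submodule.span R {a * b}
      exact Submodule.mem_span_singleton_self _)
  let g : (R ⧸ Submodule.span R {a * b}) →ₗ[R] (R ⧸ Submodule.span R {b}) :=
    Submodule.mapQ _ _ LinearMap.id hab
  refine FGP.ext (f.restrictScalars S) (g.restrictScalars S) ?_ ?_ ?_ h1 h2
  · rw [injective_iff_map_eq_zero]
    intro x hx
    obtain ⟨x, rfl⟩ := Submodule.Quotient.mk_surjective _ x
    have hx' : (Submodule.Quotient.mk (x * b) : R ⧸ Submodule.span R {a * b}) = 0 := hx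
    rw [Submodule.Quotient.mk_eq_zero] at hx' ⊢
    obtain ⟨c, hc⟩ := Submodule.mem_span_singleton.1 hx'
    rw [smul_eq_mul, ← mul_assoc, ← sub_eq_zero, ← sub_mul] at hc
    have := hb _ hc
    rw [sub_eq_zero] at this
    rw [← this]
    exact Submodule.smul_mem _ c (Submodule.mem_span_singleton_self a)
  · intro x
    obtain ⟨x, rfl⟩ := Submodule.Quotient.mk_surjective _ x
    exact ⟨Submodule.Quotient.mk x, rfl⟩
  · intro x
    obtain ⟨x, rfl⟩ := Submodule.Quotient.mk_surjective _ x
    constructor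
    · intro hx
      have hx' : (Submodule.Quotient.mk x : R ⧸ Submodule.span R {b}) = 0 := hx
      rw [Submodule.Quotient.mk_eq_zero] at hx'
      obtain ⟨c, hc⟩ := Submodule.mem_span_singleton.1 hx'
      refine ⟨Submodule.Quotient.mk c, ?_⟩
      rw [← hc]
      rfl
    · rintro ⟨y, hy⟩
      obtain ⟨y, rfl⟩ := Submodule.Quotient.mk_surjective _ y
      rw [← hy]
      show (Submodule.Quotient.mk (y * b) : R ⧸ Submodule.span R {b}) = 0
      rw [Submodule.Quotient.mk_eq_zero]
      exact Submodule.smul_mem _ y (Submodule.mem_span_singleton_self b)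

lemma FGP.quot_pi {ι : Type} [Fintype ι] [DecidableEq ι] (M : ι → Type) [∀ i, AddCommGroup (M i)]
    [∀ i, Module R (M i)] [∀ i, Module S (M i)] [∀ i, IsScalarTower S R (M i)]
    (p : ∀ i, Submodule R (M i)) (h : ∀ i, FGP S (M i ⧸ p i)) :
    FGP S ((∀ i, M i) ⧸ Submodule.pi Set.univ p) := by
  let f : (∀ i, M i) →ₗ[R] (∀ i, M i ⧸ p i) := LinearMap.pi (fun i => (p i).mkQ ∘ₗ LinearMap.proj i)
  have hf : ∀ x i, f x i = (p i).mkQ (x i) := fun _ _ => rfl
  have hk : LinearMap.ker f = Submodule.pi Set.univ p := by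
    ext x
    rw [LinearMap.mem_ker, Submodule.mem_pi]
    constructor
    · intro hx i _
      have := congrFun hx i
      rw [hf] at this
      exact (Submodule.Quotient.mk_eq_zero _).1 this
    · intro hx
      funext i
      rw [hf]
      exact (Submodule.Quotient.mk_eq_zero _).2 (hx i (Set.mem_univ _))
  have hs : Function.Surjective f := by
    intro y
    choose x hx using fun i => Submodule.Quotient.mk_surjective (p i) (y i)
    exact ⟨x, funext hx⟩
  have E : ((∀ i, M i) ⧸ Submodule.pi Set.univ p) ≃ₗ[R] (∀ i, M i ⧸ p i) :=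
    (Submodule.quotEquivOfEq _ _ hk.symm).trans (f.quotKerEquivOfSurjective hs)
  exact FGP.equiv (E.restrictScalars S).symm (FGP.pi _ h)

end restrict

end Pool.Agent.W348
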