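import Pool.Agent.W348.F3

set_option autoImplicit false

namespace Pool.Agent.W348

open MonoidAlgebra

section sub

variable {A : Type} [Group A] (H : Subgroup A)

/-- the inclusion of group rings -/
noncomputable def inclH : MonoidAlgebra ℤ H →+* MonoidAlgebra ℤ A :=
  MonoidAlgebra.mapDomainRingHom ℤ H.subtype

lemma inclH_single (h : H) (n : ℤ) : inclH H (MonoidAlgebra.single h n) = MonoidAlgebra.single (h : A) n := by
  simp [inclH]

noncomputable instance modH : Module (MonoidAlgebra ℤ H) (MonoidAlgebra ℤ A) := Module.compHom _ (inclH H)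

lemma modH_smul (s : MonoidAlgebra ℤ H) (x : MonoidAlgebra ℤ A) : s • x = inclH H s * x := rfl

instance towH : IsScalarTower (MonoidAlgebra ℤ H) (MonoidAlgebra ℤ A) (MonoidAlgebra ℤ A) :=
  ⟨fun s r x => by
    rw [modH_smul, modH_smul, smul_eq_mul, smul_eq_mul, mul_assoc]⟩

lemma inclH_inj : Function.Injective (inclH H) := by
  have : Function.Injective (MonoidAlgebra.mapDomain (R := ℤ) (H.subtype : H → A)) :=
    MonoidAlgebra.mapDomain_injective (Subtype.val_injective)
  exact this

/-- the quotient by `1 - v` restricted to a complement of `v` -/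
theorem fgp_quot (v : A) (χ : A →* Multiplicative ℤ) (hv : χ v = Multiplicative.ofAdd 1) 
    (hH : ∀ a, a ∈ H ↔ χ a = 1) :
    FGP (MonoidAlgebra ℤ H)
      (MonoidAlgebra ℤ A ⧸ Submodule.span (MonoidAlgebra ℤ A) {(1 : MonoidAlgebra ℤ A) - gs v}) := by
  let I := Submodule.span (MonoidAlgebra ℤ A) {(1 : MonoidAlgebra ℤ A) - gs v}
  let f : MonoidAlgebra ℤ H →ₗ[MonoidAlgebra ℤ H] (MonoidAlgebra ℤ A ⧸ I) :=
    LinearMap.toSpanSingleton _ _ (Submodule.Quotient.mk 1)
  have hf : ∀ s, f s = Submodule.Quotient.mk (inclH H s) := by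
    intro s
    have : f s = Submodule.Quotient.mk (s • (1 : MonoidAlgebra ℤ A)) := rfl
    rw [this, modH_smul, mul_one]
  -- the retraction
  let r : A → A := fun a => a * v ^ (-(Multiplicative.toAdd (χ a)))
  let ρ : MonoidAlgebra ℤ A →+ MonoidAlgebra ℤ A :=
    (Finsupp.liftAddHom (fun g => (zmultiplesHom (MonoidAlgebra ℤ A) (gs (r g))))).comp
      (MonoidAlgebra.coeffAddEquiv (R := ℤ) (M := A)).toAddMonoidHom
  have hρ : ∀ a n, ρ (MonoidAlgebra.single a n) = n • gs (r a) := by
    intro a n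
    simp [ρ]
  have hρ1 : ∀ x, ρ (x * (1 - gs v)) = 0 := by
    intro x
    rw [mul_sub, mul_one, map_sub, sub_eq_zero]
    induction x using MonoidAlgebra.induction_linear with
    | zero => simp
    | add a b ha hb => rw [add_mul, map_add, map_add, ha, hb]
    | single g n =>
      rw [gs, MonoidAlgebra.single_mul_single, mul_one, hρ, hρ]
      congr 2
      simp only [r, map_mul, hv, toAdd_mul, toAdd_ofAdd, neg_add_rev, zpow_add, zpow_neg, zpow_one]
      group
  have hρ2 : ∀ s, ρ (inclH H s) = inclH H s := by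
    intro s
    induction s using MonoidAlgebra.induction_linear with
    | zero => simp
    | add a b ha hb => rw [map_add, map_add, ha, hb]
    | single h n =>
      rw [inclH_single, hρ, single_eq]
      congr 2
      have : χ (h : A) = 1 := (hH _).1 h.2
      simp only [r, this, toAdd_one, neg_zero, zpow_zero, mul_one]
  have hinj : Function.Injective f := by
    rw [injective_iff_map_eq_zero]
    intro s hs
    rw [hf, Submodule.Quotient.mk_eq_zero] at hs
    obtain ⟨c, hc⟩ := Submodule.mem_span_singleton.1 hs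
    apply inclH_inj H
    rw [map_zero, ← hρ2 s, ← hc, smul_eq_mul, hρ1]
  have hpow : ∀ (a : A) (k : ℤ), (Submodule.Quotient.mk (gs (a * v ^ k)) : MonoidAlgebra ℤ A ⧸ I) =
      Submodule.Quotient.mk (gs a) := by
    have h1 : ∀ a : A, (Submodule.Quotient.mk (gs (a * v)) : MonoidAlgebra ℤ A ⧸ I) =
      Submodule.Quotient.mk (gs a) := by
      intro a
      symm
      rw [Submodule.Quotient.eq]
      have : gs a - gs (a * v) = gs a • ((1 : MonoidAlgebra ℤ A) - gs v) := by
        rw [smul_eq_mul, mul_sub, mul_one, gs_mul]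
      rw [this]
      exact Submodule.smul_mem _ _ (Submodule.mem_span_singleton_self _)
    intro a k
    induction k using Int.induction_on with
    | zero => rw [zpow_zero, mul_one]
    | succ n ih => rw [zpow_add, zpow_one, ← mul_assoc, h1, ih]
    | pred n ih =>
      rw [← ih, ← h1 (a * v ^ (-(n : ℤ) - 1)), mul_assoc, ← zpow_add_one, sub_add_cancel]
  have hsurj : Function.Surjective f := by
    have h2 : ∀ x : MonoidAlgebra ℤ A, ∃ s, f s = Submodule.Quotient.mk x := by
      intro x
      induction x using MonoidAlgebra.induction_linear with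
      | zero => exact ⟨0, by rw [map_zero]; rfl⟩
      | add a b ha hb =>
        obtain ⟨s, hs⟩ := ha
        obtain ⟨t, ht⟩ := hb
        exact ⟨s + t, by rw [map_add, hs, ht]; rfl⟩
      | single a n =>
        have hm : a * v ^ (-(Multiplicative.toAdd (χ a))) ∈ H := by
          rw [hH, map_mul, map_zpow, hv, ← ofAdd_zsmul]
          simp
        refine ⟨n • gs ⟨_, hm⟩, ?_⟩
        rw [map_zsmul, hf, gs, inclH_single]
        have h3 := hpow a (-(Multiplicative.toAdd (χ a)))
        rw [gs] at h3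
        rw [h3, single_eq a n]
        rfl
    intro x
    obtain ⟨x, rfl⟩ := Submodule.Quotient.mk_surjective _ x
    exact h2 x
  exact FGP.equiv (LinearEquiv.ofBijective f ⟨hinj, hsurj⟩) FGP.self

end sub

section kcx

variable {V : Type} [Fintype V] [LinearOrder V] (adj : V → V → Prop)

/-- exactness of the simplicial chains -/
structure Kex (M : Type) [AddCommGroup M] : Prop where
  k1 : ∀ x : V → M, ∑ v, x v = 0 → ∃ y : V → V → M, C2 adj Finset.univ y ∧
    ∀ t, ∑ s, (y s t - y t s) = x t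
  k2 : ∀ y : V → V → M, C2 adj Finset.univ y → (∀ t, ∑ s, (y s t - y t s) = 0) →
    ∃ z : V → V → V → M, C3 adj Finset.univ z ∧ ∀ s t, ∑ u, (z u s t - z s u t + z s t u) = y s t
  k3 : ∀ z : V → V → V → M, C3 adj Finset.univ z → (∀ s t, ∑ u, (z u s t - z s u t + z s t u) = 0) →
    ∀ s t u, z s t u = 0

variable {R : Type} [Ring R] (w : V → R)

/-- multiplying by weights in degree one -/
def ps1 (x : V → R) : V → R := fun t => x t * w t

/-- multiplying by weights in degree two -/
def ps2 (y : V → V → R) : V → V → R := fun s t => y s t * (w s * w t)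

/-- multiplying by weights in degree three -/
def ps3 (z : V → V → V → R) : V → V → V → R := fun s t u => z s t u * (w s * w t * w u)

lemma ps1_b1 (x : V → R) : b1 (fun _ => (1 : R)) (ps1 w x) = b1 w x := by
  simp only [b1_apply, ps1, mul_one]

variable {w} (hw : ∀ s t, adj s t → w s * w t = w t * w s)

include hw in
lemma ps2_b2 (y : V → V → R) (hy : C2 adj Finset.univ y) :
    b2 (fun _ => (1 : R)) (ps2 w y) = ps1 w (b2 w y) := by
  have hc : ∀ s t, y s t * (w s * w t) = y s t * (w t * w s) := by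
    intro s t
    by_cases h : adj s t
    · rw [hw s t h]
    · rw [hy s t (fun h1 => h h1.2.1), zero_mul, zero_mul]
  funext t
  simp only [ps1, b2_apply, ps2, mul_one]
  rw [Finset.sum_mul]
  refine Finset.sum_congr rfl (fun s _ => ?_)
  rw [hc t s, mul_assoc, sub_mul]

include hw in
lemma ps3_b3 (z : V → V → V → R) (hz : C3 adj Finset.univ z) :
    b3 (fun _ => (1 : R)) (ps3 w z) = ps2 w (b3 w z) := by
  have hc1 : ∀ s u t, z s u t * (w s * w u * w t) = z s u t * (w u * (w s * w t)) := by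
    intro s u t
    by_cases h : adj s u
    · rw [hw s u h, mul_assoc]
    · rw [hz s u t (fun h1 => h h1.2.2.1), zero_mul, zero_mul]
  have hc2 : ∀ s t u, z s t u * (w s * w t * w u) = z s t u * (w u * (w s * w t)) := by
    intro s t u
    by_cases h : adj s u ∧ adj t u
    · have h1 : w s * w t * w u = w u * (w s * w t) := by
        rw [mul_assoc, hw t u h.2, ← mul_assoc, hw s u h.1, mul_assoc]
      rw [h1]
    · rw [hz s t u (fun h1 => h ⟨h1.2.2.2.1, h1.2.2.2.2.1⟩), zero_mul, zero_mul]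
  funext s t
  simp only [ps2, b3_apply, ps3, mul_one]
  rw [Finset.sum_mul]
  refine Finset.sum_congr rfl (fun u _ => ?_)
  rw [hc1 s u t, hc2 s t u]
  simp only [add_mul, sub_mul, mul_assoc]

lemma b3_C2 (z : V → V → V → R) (hz : C3 adj Finset.univ z) :
    C2 adj Finset.univ (b3 (fun _ => (1 : R)) z) := by
  intro s t hst
  rw [b3_apply]
  refine Finset.sum_eq_zero (fun u _ => ?_)
  rw [hz u s t, hz s u t, hz s t u]
  · simp
  · rintro ⟨h1, _, h2, _⟩
    exact hst ⟨h1, h2, Finset.mem_univ _, Finset.mem_univ _⟩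
  · rintro ⟨h1, h2, _, h3, _⟩
    exact hst ⟨h1.trans h2, h3, Finset.mem_univ _, Finset.mem_univ _⟩
  · rintro ⟨_, h1, _, _, h2, _⟩
    exact hst ⟨h1, h2, Finset.mem_univ _, Finset.mem_univ _⟩

end kcx

section dcx

variable {V : Type} [Fintype V] [LinearOrder V] (adj : V → V → Prop)

open Classical in
/-- ideals in degree two -/
noncomputable def I2 (s t : V) : Submodule (MonoidAlgebra ℤ (Raag adj)) (MonoidAlgebra ℤ (Raag adj)) :=
  if s < t ∧ adj s t then Submodule.span _ {e adj s * e adj t} else ⊤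

open Classical in
/-- ideals in degree three -/
noncomputable def I3 (s t u : V) : Submodule (MonoidAlgebra ℤ (Raag adj)) (MonoidAlgebra ℤ (Raag adj)) :=
  if s < t ∧ t < u ∧ adj s t ∧ adj s u ∧ adj t u then Submodule.span _ {e adj s * e adj t * e adj u} else ⊤

/-- relations in degree one -/
noncomputable def S1 : Submodule (MonoidAlgebra ℤ (Raag adj)) (V → MonoidAlgebra ℤ (Raag adj)) :=
  Submodule.pi Set.univ (fun v => Submodule.span _ {e adj v})

/-- relations in degree two -/
noncomputable def S2 : Submodule (MonoidAlgebra ℤ (Raag adj)) (V → V → MonoidAlgebra ℤ (Raag adj)) :=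
  Submodule.pi Set.univ (fun s => Submodule.pi Set.univ (fun t => I2 adj s t))

/-- relations in degree three -/
noncomputable def S3 : Submodule (MonoidAlgebra ℤ (Raag adj)) (V → V → V → MonoidAlgebra ℤ (Raag adj)) :=
  Submodule.pi Set.univ (fun s => Submodule.pi Set.univ (fun t => Submodule.pi Set.univ (fun u => I3 adj s t u)))

lemma mem_S1 (x : V → MonoidAlgebra ℤ (Raag adj)) :
    x ∈ S1 adj ↔ ∀ v, x v ∈ Submodule.span (MonoidAlgebra ℤ (Raag adj)) {e adj v} := by
  simp [S1, Submodule.mem_pi]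

lemma mem_S2 (y : V → V → MonoidAlgebra ℤ (Raag adj)) :
    y ∈ S2 adj ↔ ∀ s t, s < t → adj s t →
      y s t ∈ Submodule.span (MonoidAlgebra ℤ (Raag adj)) {e adj s * e adj t} := by
  simp only [S2, Submodule.mem_pi, Set.mem_univ, true_imp_iff]
  refine forall_congr' (fun s => forall_congr' (fun t => ?_))
  by_cases h : s < t ∧ adj s t
  · simp [I2, h]
  · simp only [I2, if_neg h, Submodule.mem_top, true_iff]
    intro h1 h2
    exact absurd ⟨h1, h2⟩ h

lemma mem_S3 (z : V → V → V → MonoidAlgebra ℤ (Raag adj)) :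
    z ∈ S3 adj ↔ ∀ s t u, (s < t ∧ t < u ∧ adj s t ∧ adj s u ∧ adj t u) →
      z s t u ∈ Submodule.span (MonoidAlgebra ℤ (Raag adj)) {e adj s * e adj t * e adj u} := by
  simp only [S3, Submodule.mem_pi, Set.mem_univ, true_imp_iff]
  refine forall_congr' (fun s => forall_congr' (fun t => forall_congr' (fun u => ?_)))
  by_cases h : s < t ∧ t < u ∧ adj s t ∧ adj s u ∧ adj t u
  · simp [I3, h]
  · simp only [I3, if_neg h, Submodule.mem_top, true_iff]
    intro h1
    exact absurd h1 h

variable (hsymm : ∀ u v, adj u v → adj v u) (hirr : ∀ v, ¬ adj v v)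

section fgpD

variable (H : Subgroup (Raag adj)) (χ : Raag adj →* Multiplicative ℤ)
  (hv : ∀ v, χ (gn adj v) = Multiplicative.ofAdd 1) (hH : ∀ a, a ∈ H ↔ χ a = 1)

include hv hH in
lemma fgp_e (v : V) : FGP (MonoidAlgebra ℤ H)
    (MonoidAlgebra ℤ (Raag adj) ⧸ Submodule.span (MonoidAlgebra ℤ (Raag adj)) {e adj v}) :=
  fgp_quot H (gn adj v) χ (hv v) hH

include hsymm hirr hv hH in
lemma fgp_ee (s t : V) : FGP (MonoidAlgebra ℤ H)
    (MonoidAlgebra ℤ (Raag adj) ⧸ Submodule.span (MonoidAlgebra ℤ (Raag adj)) {e adj s * e adj t}) :=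
  FGP.quot_mul _ _ (fun x hx => mul_e_inj adj hsymm hirr t x hx) (fgp_e adj H χ hv hH s) (fgp_e adj H χ hv hH t)

include hsymm hirr hv hH in
lemma fgp_eee (s t u : V) : FGP (MonoidAlgebra ℤ H)
    (MonoidAlgebra ℤ (Raag adj) ⧸ Submodule.span (MonoidAlgebra ℤ (Raag adj)) {e adj s * e adj t * e adj u}) :=
  FGP.quot_mul _ _ (fun x hx => mul_e_inj adj hsymm hirr u x hx) (fgp_ee adj hsymm hirr H χ hv hH s t)
    (fgp_e adj H χ hv hH u)

lemma fgp_top : FGP (MonoidAlgebra ℤ H)
    (MonoidAlgebra ℤ (Raag adj) ⧸ (⊤ : Submodule (MonoidAlgebra ℤ (Raag adj)) (MonoidAlgebra ℤ (Raag adj)))) :=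
  FGP.subsingleton

include hv hH in
theorem fgp_D1 : FGP (MonoidAlgebra ℤ H) ((V → MonoidAlgebra ℤ (Raag adj)) ⧸ S1 adj) :=
  FGP.quot_pi _ _ (fun v => fgp_e adj H χ hv hH v)

include hsymm hirr hv hH in
theorem fgp_D2 : FGP (MonoidAlgebra ℤ H) ((V → V → MonoidAlgebra ℤ (Raag adj)) ⧸ S2 adj) := by
  refine FGP.quot_pi _ _ (fun s => FGP.quot_pi _ _ (fun t => ?_))
  by_cases h : s < t ∧ adj s t
  · have h1 : I2 adj s t = Submodule.span _ {e adj s * e adj t} := if_pos h
    rw [h1]
    exact fgp_ee adj hsymm hirr H χ hv hH s t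
  · have h1 : I2 adj s t = ⊤ := if_neg h
    rw [h1]
    exact fgp_top adj H

include hsymm hirr hv hH in
theorem fgp_D3 : FGP (MonoidAlgebra ℤ H) ((V → V → V → MonoidAlgebra ℤ (Raag adj)) ⧸ S3 adj) := by
  refine FGP.quot_pi _ _ (fun s => FGP.quot_pi _ _ (fun t => FGP.quot_pi _ _ (fun u => ?_)))
  by_cases h : s < t ∧ t < u ∧ adj s t ∧ adj s u ∧ adj t u
  · have h1 : I3 adj s t u = Submodule.span _ {e adj s * e adj t * e adj u} := if_pos h
    rw [h1]
    exact fgp_eee adj hsymm hirr H χ hv hH s t u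
  · have h1 : I3 adj s t u = ⊤ := if_neg h
    rw [h1]
    exact fgp_top adj H

end fgpD

end dcx

end Pool.Agent.W348
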