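import Pool.Agent.W348.F4

set_option autoImplicit false

namespace Pool.Agent.W348

open MonoidAlgebra

section dcx

variable {V : Type} [Fintype V] [LinearOrder V] (adj : V → V → Prop)

open Classical in
/-- projection to edges -/
noncomputable def pi2 : (V → V → MonoidAlgebra ℤ (Raag adj)) →ₗ[MonoidAlgebra ℤ (Raag adj)]
    (V → V → MonoidAlgebra ℤ (Raag adj)) where
  toFun y := fun s t => if s < t ∧ adj s t then y s t else 0
  map_add' x y := by
    funext s t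
    simp only [Pi.add_apply]
    split_ifs
    · rfl
    · rw [add_zero]
  map_smul' r x := by
    funext s t
    simp only [Pi.smul_apply, RingHom.id_apply]
    split_ifs
    · rfl
    · rw [smul_zero]

open Classical in
/-- projection to triangles -/
noncomputable def pi3 : (V → V → V → MonoidAlgebra ℤ (Raag adj)) →ₗ[MonoidAlgebra ℤ (Raag adj)]
    (V → V → V → MonoidAlgebra ℤ (Raag adj)) where
  toFun y := fun s t u => if s < t ∧ t < u ∧ adj s t ∧ adj s u ∧ adj t u then y s t u else 0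
  map_add' x y := by
    funext s t u
    simp only [Pi.add_apply]
    split_ifs
    · rfl
    · rw [add_zero]
  map_smul' r x := by
    funext s t u
    simp only [Pi.smul_apply, RingHom.id_apply]
    split_ifs
    · rfl
    · rw [smul_zero]

open Classical in
lemma pi2_apply (y : V → V → MonoidAlgebra ℤ (Raag adj)) (s t : V) :
    pi2 adj y s t = if s < t ∧ adj s t then y s t else 0 := rfl

open Classical in
lemma pi3_apply (y : V → V → V → MonoidAlgebra ℤ (Raag adj)) (s t u : V) :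
    pi3 adj y s t u = if s < t ∧ t < u ∧ adj s t ∧ adj s u ∧ adj t u then y s t u else 0 := rfl

lemma pi2_C2 (y : V → V → MonoidAlgebra ℤ (Raag adj)) : C2 adj Finset.univ (pi2 adj y) := by
  intro s t h
  rw [pi2_apply, if_neg]
  rintro ⟨h1, h2⟩
  exact h ⟨h1, h2, Finset.mem_univ _, Finset.mem_univ _⟩

lemma pi3_C3 (y : V → V → V → MonoidAlgebra ℤ (Raag adj)) : C3 adj Finset.univ (pi3 adj y) := by
  intro s t u h
  rw [pi3_apply, if_neg]
  rintro ⟨h1, h2, h3, h4, h5⟩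
  exact h ⟨h1, h2, h3, h4, h5, Finset.mem_univ _, Finset.mem_univ _, Finset.mem_univ _⟩

lemma pi2_of (y : V → V → MonoidAlgebra ℤ (Raag adj)) (hy : C2 adj Finset.univ y) : pi2 adj y = y := by
  funext s t
  rw [pi2_apply]
  by_cases h : s < t ∧ adj s t
  · rw [if_pos h]
  · rw [if_neg h, hy s t (fun h1 => h ⟨h1.1, h1.2.1⟩)]

lemma pi3_of (y : V → V → V → MonoidAlgebra ℤ (Raag adj)) (hy : C3 adj Finset.univ y) : pi3 adj y = y := by
  funext s t u
  rw [pi3_apply]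
  by_cases h : s < t ∧ t < u ∧ adj s t ∧ adj s u ∧ adj t u
  · rw [if_pos h]
  · rw [if_neg h, hy s t u (fun h1 => h ⟨h1.1, h1.2.1, h1.2.2.1, h1.2.2.2.1, h1.2.2.2.2.1⟩)]

lemma pi2_sub (y : V → V → MonoidAlgebra ℤ (Raag adj)) : y - pi2 adj y ∈ S2 adj := by
  rw [mem_S2]
  intro s t h1 h2
  rw [Pi.sub_apply, Pi.sub_apply, pi2_apply, if_pos ⟨h1, h2⟩, sub_self]
  exact Submodule.zero_mem _

lemma pi3_sub (y : V → V → V → MonoidAlgebra ℤ (Raag adj)) : y - pi3 adj y ∈ S3 adj := by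
  rw [mem_S3]
  intro s t u h
  rw [Pi.sub_apply, Pi.sub_apply, Pi.sub_apply, pi3_apply, if_pos h, sub_self]
  exact Submodule.zero_mem _

/-- constant weight one -/
noncomputable abbrev wo : V → MonoidAlgebra ℤ (Raag adj) := fun _ => 1

lemma wo_comm (s t : V) : wo adj s * wo adj t = wo adj t * wo adj s := rfl

lemma span_ee_right (s t : V) : Submodule.span (MonoidAlgebra ℤ (Raag adj)) {e adj s * e adj t} ≤
    Submodule.span (MonoidAlgebra ℤ (Raag adj)) {e adj t} := by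
  rw [Submodule.span_le, Set.singleton_subset_iff]
  exact Submodule.smul_mem _ (e adj s) (Submodule.mem_span_singleton_self _)

lemma ps1_mem (x : V → MonoidAlgebra ℤ (Raag adj)) : ps1 (e adj) x ∈ S1 adj := by
  rw [mem_S1]
  intro v
  exact Submodule.smul_mem _ (x v) (Submodule.mem_span_singleton_self _)

lemma ps2_mem (x : V → V → MonoidAlgebra ℤ (Raag adj)) : ps2 (e adj) x ∈ S2 adj := by
  rw [mem_S2]
  intro s t _ _
  exact Submodule.smul_mem _ (x s t) (Submodule.mem_span_singleton_self _)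

lemma ps3_mem (x : V → V → V → MonoidAlgebra ℤ (Raag adj)) : ps3 (e adj) x ∈ S3 adj := by
  rw [mem_S3]
  intro s t u _
  exact Submodule.smul_mem _ (x s t u) (Submodule.mem_span_singleton_self _)

lemma exists_ps1 (x : V → MonoidAlgebra ℤ (Raag adj)) (hx : x ∈ S1 adj) : ∃ c, ps1 (e adj) c = x := by
  rw [mem_S1] at hx
  choose c hc using fun v => Submodule.mem_span_singleton.1 (hx v)
  exact ⟨c, funext hc⟩

lemma exists_ps2 (x : V → V → MonoidAlgebra ℤ (Raag adj)) (hx : x ∈ S2 adj) (hx2 : C2 adj Finset.univ x) :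
    ∃ c, C2 adj Finset.univ c ∧ ps2 (e adj) c = x := by
  classical
  rw [mem_S2] at hx
  have h1 : ∀ s t, ∃ c : MonoidAlgebra ℤ (Raag adj), (¬ (s < t ∧ adj s t) → c = 0) ∧
      c * (e adj s * e adj t) = x s t := by
    intro s t
    by_cases h : s < t ∧ adj s t
    · obtain ⟨c, hc⟩ := Submodule.mem_span_singleton.1 (hx s t h.1 h.2)
      exact ⟨c, fun h1 => absurd h h1, hc⟩
    · refine ⟨0, fun _ => rfl, ?_⟩
      rw [zero_mul, hx2 s t (fun h1 => h ⟨h1.1, h1.2.1⟩)]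
  choose c hc1 hc2 using h1
  exact ⟨c, fun s t h => hc1 s t (fun h1 => h ⟨h1.1, h1.2, Finset.mem_univ _, Finset.mem_univ _⟩),
    funext fun s => funext fun t => hc2 s t⟩

/-- every class in degree two is hit by weights, on the support -/
lemma S2_C2 (y : V → V → MonoidAlgebra ℤ (Raag adj)) (hy : y ∈ S2 adj) : pi2 adj y ∈ S2 adj := by
  have h := Submodule.sub_mem _ hy (pi2_sub adj y)
  rwa [sub_sub_cancel] at h

lemma S3_C3 (y : V → V → V → MonoidAlgebra ℤ (Raag adj)) (hy : y ∈ S3 adj) : pi3 adj y ∈ S3 adj := by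
  have h := Submodule.sub_mem _ hy (pi3_sub adj y)
  rwa [sub_sub_cancel] at h

lemma exists_ps3 (x : V → V → V → MonoidAlgebra ℤ (Raag adj)) (hx : x ∈ S3 adj) (hx2 : C3 adj Finset.univ x) :
    ∃ c, C3 adj Finset.univ c ∧ ps3 (e adj) c = x := by
  classical
  rw [mem_S3] at hx
  have h1 : ∀ s t u, ∃ c : MonoidAlgebra ℤ (Raag adj),
      (¬ (s < t ∧ t < u ∧ adj s t ∧ adj s u ∧ adj t u) → c = 0) ∧
      c * (e adj s * e adj t * e adj u) = x s t u := by
    intro s t u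
    by_cases h : s < t ∧ t < u ∧ adj s t ∧ adj s u ∧ adj t u
    · obtain ⟨c, hc⟩ := Submodule.mem_span_singleton.1 (hx s t u h)
      exact ⟨c, fun h1 => absurd h h1, hc⟩
    · refine ⟨0, fun _ => rfl, ?_⟩
      rw [zero_mul, hx2 s t u (fun h1 => h ⟨h1.1, h1.2.1, h1.2.2.1, h1.2.2.2.1, h1.2.2.2.2.1⟩)]
  choose c hc1 hc2 using h1
  exact ⟨c, fun s t u h => hc1 s t u (fun h1 => h ⟨h1.1, h1.2.1, h1.2.2.1, h1.2.2.2.1, h1.2.2.2.2,
    Finset.mem_univ _, Finset.mem_univ _, Finset.mem_univ _⟩),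
    funext fun s => funext fun t => funext fun u => hc2 s t u⟩

lemma d2_mem (y : V → V → MonoidAlgebra ℤ (Raag adj)) (hy : y ∈ S2 adj) :
    b2 (wo adj) (pi2 adj y) ∈ S1 adj := by
  obtain ⟨c, hc, hc'⟩ := exists_ps2 adj _ (S2_C2 adj y hy) (pi2_C2 adj y)
  rw [← hc', ps2_b2 adj (fun s t h => e_comm adj h) c hc]
  exact ps1_mem adj _

lemma d3_mem (z : V → V → V → MonoidAlgebra ℤ (Raag adj)) (hz : z ∈ S3 adj) :
    b3 (wo adj) (pi3 adj z) ∈ S2 adj := by
  obtain ⟨c, hc, hc'⟩ := exists_ps3 adj _ (S3_C3 adj z hz) (pi3_C3 adj z)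
  rw [← hc', ps3_b3 adj (fun s t h => e_comm adj h) c hc]
  exact ps2_mem adj _

lemma d1_mem (x : V → MonoidAlgebra ℤ (Raag adj)) (hx : x ∈ S1 adj) :
    toTT ℤ (Raag adj) (b1 (wo adj) x) = 0 := by
  obtain ⟨c, hc⟩ := exists_ps1 adj x hx
  rw [← hc]
  show toTT ℤ (Raag adj) (b1 (fun _ => 1) (ps1 (e adj) c)) = 0
  rw [ps1_b1, b1_apply, map_sum]
  refine Finset.sum_eq_zero (fun v _ => ?_)
  rw [← smul_eq_mul, map_smul]
  have : toTT ℤ (Raag adj) (e adj v) = 0 := by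
    apply (TTe ℤ (Raag adj)).injective
    rw [toTT_apply, map_zero, e, map_sub, map_one, gs, eps_single, sub_self]
  rw [this, smul_zero]

/-- the augmentation in the quotient complex -/
noncomputable def f1 : ((V → MonoidAlgebra ℤ (Raag adj)) ⧸ S1 adj) →ₗ[MonoidAlgebra ℤ (Raag adj)]
    (MonoidAlgebra ℤ (Raag adj) ⧸ LinearMap.ker (toTT ℤ (Raag adj))) :=
  Submodule.mapQ _ _ (b1 (wo adj)) (fun x hx => d1_mem adj x hx)

/-- the first differential in the quotient complex -/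
noncomputable def f2 : ((V → V → MonoidAlgebra ℤ (Raag adj)) ⧸ S2 adj) →ₗ[MonoidAlgebra ℤ (Raag adj)]
    ((V → MonoidAlgebra ℤ (Raag adj)) ⧸ S1 adj) :=
  Submodule.mapQ _ _ (b2 (wo adj) ∘ₗ pi2 adj) (fun x hx => d2_mem adj x hx)

/-- the second differential in the quotient complex -/
noncomputable def f3 : ((V → V → V → MonoidAlgebra ℤ (Raag adj)) ⧸ S3 adj) →ₗ[MonoidAlgebra ℤ (Raag adj)]
    ((V → V → MonoidAlgebra ℤ (Raag adj)) ⧸ S2 adj) :=
  Submodule.mapQ _ _ (b3 (wo adj) ∘ₗ pi3 adj) (fun x hx => d3_mem adj x hx)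

variable (hsymm : ∀ u v, adj u v → adj v u) (hirr : ∀ v, ¬ adj v v)
  (hK : Kex adj (MonoidAlgebra ℤ (Raag adj)))

include hK in
lemma K1x (x : V → MonoidAlgebra ℤ (Raag adj)) (hx : b1 (wo adj) x = 0) :
    ∃ y, C2 adj Finset.univ y ∧ b2 (wo adj) y = x := by
  obtain ⟨y, hy, hy'⟩ := hK.k1 x (by
    rw [b1_apply] at hx
    simpa using hx)
  refine ⟨y, hy, ?_⟩
  funext t
  rw [b2_apply, ← hy' t]
  simp

include hK in
lemma K2x (y : V → V → MonoidAlgebra ℤ (Raag adj)) (hy : C2 adj Finset.univ y) (hy0 : b2 (wo adj) y = 0) :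
    ∃ z, C3 adj Finset.univ z ∧ b3 (wo adj) z = y := by
  obtain ⟨z, hz, hz'⟩ := hK.k2 y hy (by
    intro t
    have := congrFun hy0 t
    rw [b2_apply] at this
    simpa using this)
  refine ⟨z, hz, ?_⟩
  funext s t
  rw [b3_apply, ← hz' s t]
  simp

include hK in
lemma K3x (z : V → V → V → MonoidAlgebra ℤ (Raag adj)) (hz : C3 adj Finset.univ z) (hz0 : b3 (wo adj) z = 0) :
    z = 0 := by
  have := hK.k3 z hz (by
    intro s t
    have := congrFun (congrFun hz0 s) t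
    rw [b3_apply] at this
    simpa using this)
  funext s t u
  exact this s t u

lemma f1_surj [Nonempty V] : Function.Surjective (f1 adj) := by
  intro x
  obtain ⟨x, rfl⟩ := Submodule.Quotient.mk_surjective _ x
  classical
  obtain ⟨v⟩ := (inferInstance : Nonempty V)
  refine ⟨Submodule.Quotient.mk (Pi.single v x), ?_⟩
  show Submodule.Quotient.mk (b1 (wo adj) (Pi.single v x)) = _
  congr 1
  rw [b1_apply, Finset.sum_eq_single v]
  · rw [Pi.single_eq_same, mul_one]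
  · intro u _ hu
    rw [Pi.single_eq_of_ne hu, zero_mul]
  · intro h; exact absurd (Finset.mem_univ _) h

lemma f1_f2 (y : (V → V → MonoidAlgebra ℤ (Raag adj)) ⧸ S2 adj) : f1 adj (f2 adj y) = 0 := by
  obtain ⟨y, rfl⟩ := Submodule.Quotient.mk_surjective _ y
  show Submodule.Quotient.mk (b1 (wo adj) (b2 (wo adj) (pi2 adj y))) = _
  rw [b1_b2 adj (fun s t _ => wo_comm adj s t) _ (pi2_C2 adj y)]
  rfl

include hsymm in
lemma f2_f3 (z : (V → V → V → MonoidAlgebra ℤ (Raag adj)) ⧸ S3 adj) : f2 adj (f3 adj z) = 0 := by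
  obtain ⟨z, rfl⟩ := Submodule.Quotient.mk_surjective _ z
  show Submodule.Quotient.mk (b2 (wo adj) (pi2 adj (b3 (wo adj) (pi3 adj z)))) = _
  rw [pi2_of adj _ (b3_C2 adj _ (pi3_C3 adj z)),
    b2_b3 adj (fun s t _ => wo_comm adj s t) hsymm _ (pi3_C3 adj z)]
  rfl

include hK in
lemma ex1 (x : (V → MonoidAlgebra ℤ (Raag adj)) ⧸ S1 adj) (hx : f1 adj x = 0) : ∃ y, f2 adj y = x := by
  obtain ⟨x, rfl⟩ := Submodule.Quotient.mk_surjective _ x
  have h1 : (Submodule.Quotient.mk (b1 (wo adj) x) :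
    (MonoidAlgebra ℤ (Raag adj) ⧸ LinearMap.ker (toTT ℤ (Raag adj)))) = 0 := hx
  rw [Submodule.Quotient.mk_eq_zero, ker_toTT, mem_augI] at h1
  obtain ⟨c, hc⟩ := exact_zero adj _ h1
  have h2 : b1 (wo adj) (x - ps1 (e adj) c) = 0 := by
    have h3 : b1 (wo adj) (ps1 (e adj) c) = b1 (e adj) c := ps1_b1 (e adj) c
    rw [map_sub, h3, hc, sub_self]
  obtain ⟨y, hy, hy'⟩ := K1x adj hK _ h2
  refine ⟨Submodule.Quotient.mk y, ?_⟩
  show Submodule.Quotient.mk (b2 (wo adj) (pi2 adj y)) = _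
  rw [pi2_of adj y hy, hy', Submodule.Quotient.eq, sub_sub_cancel_left]
  exact Submodule.neg_mem _ (ps1_mem adj c)

include hK hsymm hirr in
lemma ex2 (y : (V → V → MonoidAlgebra ℤ (Raag adj)) ⧸ S2 adj) (hy : f2 adj y = 0) : ∃ z, f3 adj z = y := by
  obtain ⟨y, rfl⟩ := Submodule.Quotient.mk_surjective _ y
  have h1 : (Submodule.Quotient.mk (b2 (wo adj) (pi2 adj y)) :
    (V → MonoidAlgebra ℤ (Raag adj)) ⧸ S1 adj) = 0 := hy
  rw [Submodule.Quotient.mk_eq_zero] at h1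
  obtain ⟨c, hc⟩ := exists_ps1 adj _ h1
  have h2 : b1 (e adj) c = 0 := by
    have h3 : b1 (wo adj) (ps1 (e adj) c) = b1 (e adj) c := ps1_b1 (e adj) c
    rw [← h3, hc, b1_b2 adj (fun s t _ => wo_comm adj s t) _ (pi2_C2 adj y)]
  obtain ⟨y', hy', hy''⟩ := exact_one adj hsymm hirr Finset.univ c (fun v hv => absurd (Finset.mem_univ v) hv) h2
  have h3 : b2 (wo adj) (ps2 (e adj) y') = ps1 (e adj) c := by
    rw [← hy'']; exact ps2_b2 adj (fun s t h => e_comm adj h) y' hy'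
  have hC : C2 adj Finset.univ (ps2 (e adj) y') := by
    intro s t h
    show y' s t * _ = 0
    rw [hy' s t h, zero_mul]
  have hC' : C2 adj Finset.univ (pi2 adj y - ps2 (e adj) y') := by
    intro s t h
    rw [Pi.sub_apply, Pi.sub_apply, pi2_C2 adj y s t h, hC s t h, sub_zero]
  obtain ⟨z, hz, hz'⟩ := K2x adj hK _ hC' (by rw [map_sub, h3, hc, sub_self])
  refine ⟨Submodule.Quotient.mk z, ?_⟩
  show Submodule.Quotient.mk (b3 (wo adj) (pi3 adj z)) = _
  rw [pi3_of adj z hz, hz', Submodule.Quotient.eq]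
  have h4 : pi2 adj y - ps2 (e adj) y' - y = -((y - pi2 adj y) + ps2 (e adj) y') := by abel
  rw [h4]
  exact Submodule.neg_mem _ (Submodule.add_mem _ (pi2_sub adj y) (ps2_mem adj _))

include hK hsymm hirr in
lemma ex3 (z : (V → V → V → MonoidAlgebra ℤ (Raag adj)) ⧸ S3 adj) (hz : f3 adj z = 0) : z = 0 := by
  obtain ⟨z, rfl⟩ := Submodule.Quotient.mk_surjective _ z
  have h1 : (Submodule.Quotient.mk (b3 (wo adj) (pi3 adj z)) :
    (V → V → MonoidAlgebra ℤ (Raag adj)) ⧸ S2 adj) = 0 := hz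
  rw [Submodule.Quotient.mk_eq_zero] at h1
  obtain ⟨c, hcC, hc⟩ := exists_ps2 adj _ h1 (b3_C2 adj _ (pi3_C3 adj z))
  have h2 : ps1 (e adj) (b2 (e adj) c) = 0 := by
    rw [← ps2_b2 adj (fun s t h => e_comm adj h) c hcC]
    show b2 (wo adj) _ = 0
    rw [hc, b2_b3 adj (fun s t _ => wo_comm adj s t) hsymm _ (pi3_C3 adj z)]
  have h3 : b2 (e adj) c = 0 := by
    funext v
    exact mul_e_inj adj hsymm hirr v _ (congrFun h2 v)
  obtain ⟨w, hw, hw'⟩ := exact_two adj hsymm hirr Finset.univ c hcC h3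
  have hC : C3 adj Finset.univ (ps3 (e adj) w) := by
    intro s t u h
    show w s t u * _ = 0
    rw [hw s t u h, zero_mul]
  have h4 : b3 (wo adj) (ps3 (e adj) w) = ps2 (e adj) c := by
    rw [← hw']; exact ps3_b3 adj (fun s t h => e_comm adj h) w hw
  have h5 : pi3 adj z - ps3 (e adj) w = 0 := by
    apply K3x adj hK
    · intro s t u h
      rw [Pi.sub_apply, Pi.sub_apply, Pi.sub_apply, pi3_C3 adj z s t u h, hC s t u h, sub_zero]
    · rw [map_sub, h4, hc, sub_self]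
  rw [Submodule.Quotient.mk_eq_zero]
  have h6 : z = (z - pi3 adj z) + ps3 (e adj) w := by
    rw [← sub_eq_zero.1 h5]; abel
  rw [h6]
  exact Submodule.add_mem _ (pi3_sub adj z) (ps3_mem adj w)

include hK hsymm hirr in
/-- the level-zero subgroup is of type `FP_3` -/
theorem bb_FPn [Nonempty V] (H : Subgroup (Raag adj)) (χ : Raag adj →* Multiplicative ℤ)
    (hv : ∀ v, χ (gn adj v) = Multiplicative.ofAdd 1) (hH : ∀ a, a ∈ H ↔ χ a = 1) :
    FPn (MonoidAlgebra ℤ H) 3 (MonoidAlgebra ℤ (Raag adj) ⧸ LinearMap.ker (toTT ℤ (Raag adj))) :=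
  FPn_three ((f1 adj).restrictScalars (MonoidAlgebra ℤ H)) ((f2 adj).restrictScalars (MonoidAlgebra ℤ H))
    ((f3 adj).restrictScalars (MonoidAlgebra ℤ H)) (fgp_D1 adj H χ hv hH) (fgp_D2 adj hsymm hirr H χ hv hH)
    (fgp_D3 adj hsymm hirr H χ hv hH) (f1_surj adj) (f1_f2 adj) (ex1 adj hK) (f2_f3 adj hsymm)
    (ex2 adj hsymm hirr hK) (ex3 adj hsymm hirr hK)

end dcx

end Pool.Agent.W348
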