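import Pool.Agent.W348.F5

set_option autoImplicit false

namespace Pool.Agent.W348

section contraction

variable {V : Type} [Fintype V] [LinearOrder V] (adj : V → V → Prop)

/-- integral contractions give exactness with arbitrary coefficients -/
theorem Kex_of (M : Type) [AddCommGroup M] (v0 : V) (a : V → V → V → ℤ) (B : V → V → V → V → V → ℤ)
    (A0 : ∀ v s t, ¬ (s < t ∧ adj s t) → a v s t = 0)
    (B0 : ∀ p q s t u, ¬ (s < t ∧ t < u ∧ adj s t ∧ adj s u ∧ adj t u) → B p q s t u = 0)
    (A1 : ∀ v t, ∑ s, (a v s t - a v t s) = (if v = t then 1 else 0) - (if t = v0 then 1 else 0))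
    (B1 : ∀ p q, p < q → adj p q → ∀ s t, s < t → adj s t →
      ∑ u, (B p q u s t - B p q s u t + B p q s t u) =
        (if p = s ∧ q = t then 1 else 0) - a q s t + a p s t)
    (B2 : ∀ p q r, (p < q ∧ q < r ∧ adj p q ∧ adj p r ∧ adj q r) → ∀ s t u,
      (s < t ∧ t < u ∧ adj s t ∧ adj s u ∧ adj t u) →
      B q r s t u - B p r s t u + B p q s t u = if p = s ∧ q = t ∧ r = u then 1 else 0) :
    Kex adj M := by
  classical
  have ite_smul1 : ∀ (P : Prop) [Decidable P] (m : M), (if P then (1 : ℤ) else 0) • m = if P then m else 0 := by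
    intro P _ m
    split_ifs
    · exact one_smul _ _
    · exact zero_smul _ _
  have B1' : ∀ p q, p < q → adj p q → ∀ s t,
      ∑ u, (B p q u s t - B p q s u t + B p q s t u) =
        (if p = s ∧ q = t then 1 else 0) - a q s t + a p s t := by
    intro p q hpq hpq' s t
    by_cases h : s < t ∧ adj s t
    · exact B1 p q hpq hpq' s t h.1 h.2
    · rw [A0 q s t h, A0 p s t h, if_neg (by rintro ⟨rfl, rfl⟩; exact h ⟨hpq, hpq'⟩), sub_zero, add_zero]
      refine Finset.sum_eq_zero (fun u _ => ?_)
      rw [B0 p q u s t, B0 p q s u t, B0 p q s t u]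
      · rfl
      · rintro ⟨h1, _, h2, _⟩; exact h ⟨h1, h2⟩
      · rintro ⟨h1, h2, _, h3, _⟩; exact h ⟨h1.trans h2, h3⟩
      · rintro ⟨_, h1, _, _, h2⟩; exact h ⟨h1, h2⟩
  refine ⟨?_, ?_, ?_⟩
  · intro x hx
    refine ⟨fun s t => ∑ v, a v s t • x v, ?_, ?_⟩
    · intro s t h
      refine Finset.sum_eq_zero (fun v _ => ?_)
      rw [A0 v s t (fun h1 => h ⟨h1.1, h1.2, Finset.mem_univ _, Finset.mem_univ _⟩), zero_smul]
    · intro t
      have h1 : ∀ s, (∑ v, a v s t • x v - ∑ v, a v t s • x v) = ∑ v, (a v s t - a v t s) • x v := by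
        intro s
        rw [← Finset.sum_sub_distrib]
        exact Finset.sum_congr rfl (fun v _ => (sub_smul _ _ _).symm)
      rw [Finset.sum_congr rfl (fun s _ => h1 s), Finset.sum_comm]
      have h2 : ∀ v, ∑ s, (a v s t - a v t s) • x v =
          (if v = t then x v else 0) - (if t = v0 then x v else 0) := by
        intro v
        rw [← Finset.sum_smul, A1, sub_smul, ite_smul1, ite_smul1]
      rw [Finset.sum_congr rfl (fun v _ => h2 v), Finset.sum_sub_distrib, Finset.sum_ite_eq' Finset.univ t x,
        if_pos (Finset.mem_univ _)]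
      by_cases ht : t = v0
      · simp only [if_pos ht, hx, sub_zero]
      · simp only [if_neg ht, Finset.sum_const_zero, sub_zero]
  · intro y hy hy0
    refine ⟨fun s t u => ∑ p, ∑ q, B p q s t u • y p q, ?_, ?_⟩
    · intro s t u h
      refine Finset.sum_eq_zero (fun p _ => Finset.sum_eq_zero (fun q _ => ?_))
      rw [B0 p q s t u (fun h1 => h ⟨h1.1, h1.2.1, h1.2.2.1, h1.2.2.2.1, h1.2.2.2.2, Finset.mem_univ _,
        Finset.mem_univ _, Finset.mem_univ _⟩), zero_smul]
    · intro s t
      have h1 : ∀ u, ((∑ p, ∑ q, B p q u s t • y p q) - (∑ p, ∑ q, B p q s u t • y p q)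
          + (∑ p, ∑ q, B p q s t u • y p q)) =
          ∑ p, ∑ q, (B p q u s t - B p q s u t + B p q s t u) • y p q := by
        intro u
        rw [← Finset.sum_sub_distrib, ← Finset.sum_add_distrib]
        refine Finset.sum_congr rfl (fun p _ => ?_)
        rw [← Finset.sum_sub_distrib, ← Finset.sum_add_distrib]
        refine Finset.sum_congr rfl (fun q _ => ?_)
        rw [add_smul, sub_smul]
      rw [Finset.sum_congr rfl (fun u _ => h1 u), Finset.sum_comm]
      have h2 : ∀ p, ∑ u, ∑ q, (B p q u s t - B p q s u t + B p q s t u) • y p q =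
          ∑ q, ((if p = s ∧ q = t then y p q else 0) - a q s t • y p q + a p s t • y p q) := by
        intro p
        rw [Finset.sum_comm]
        refine Finset.sum_congr rfl (fun q _ => ?_)
        rw [← Finset.sum_smul]
        by_cases h : p < q ∧ adj p q
        · rw [B1' p q h.1 h.2 s t, add_smul, sub_smul, ite_smul1]
        · rw [hy p q (fun h1 => h ⟨h1.1, h1.2.1⟩), smul_zero, smul_zero, smul_zero, ite_self, sub_zero, add_zero]
      rw [Finset.sum_congr rfl (fun p _ => h2 p)]
      simp only [Finset.sum_add_distrib, Finset.sum_sub_distrib]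
      have h3 : ∑ p, ∑ q, (if p = s ∧ q = t then y p q else 0) = y s t := by
        rw [Finset.sum_eq_single s, Finset.sum_eq_single t]
        · rw [if_pos ⟨rfl, rfl⟩]
        · intro q _ hq; rw [if_neg (fun h => hq h.2)]
        · intro h; exact absurd (Finset.mem_univ _) h
        · intro p _ hp
          exact Finset.sum_eq_zero (fun q _ => if_neg (fun h => hp h.1))
        · intro h; exact absurd (Finset.mem_univ _) h
      rw [h3, Finset.sum_comm (f := fun p q => a q s t • y p q)]
      have h4 : ∀ q, ∑ p, a q s t • y p q = ∑ p, a q s t • y q p := by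
        intro q
        rw [← Finset.smul_sum, ← Finset.smul_sum]
        have := hy0 q
        rw [Finset.sum_sub_distrib, sub_eq_zero] at this
        rw [this]
      rw [Finset.sum_congr rfl (fun q _ => h4 q), sub_add_cancel]
  · intro z hz hz0 s t u
    by_cases hT : s < t ∧ t < u ∧ adj s t ∧ adj s u ∧ adj t u
    swap
    · exact hz s t u (fun h1 => hT ⟨h1.1, h1.2.1, h1.2.2.1, h1.2.2.2.1, h1.2.2.2.2.1⟩)
    have h1 : z s t u = ∑ p, ∑ q, ∑ r, (B q r s t u - B p r s t u + B p q s t u) • z p q r := by
      have h2 : ∀ p q r, (B q r s t u - B p r s t u + B p q s t u) • z p q r =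
          if p = s ∧ q = t ∧ r = u then z p q r else 0 := by
        intro p q r
        by_cases h : p < q ∧ q < r ∧ adj p q ∧ adj p r ∧ adj q r
        · rw [B2 p q r h s t u hT, ite_smul1]
        · rw [hz p q r (fun h1 => h ⟨h1.1, h1.2.1, h1.2.2.1, h1.2.2.2.1, h1.2.2.2.2.1⟩), smul_zero, ite_self]
      simp only [h2]
      rw [Finset.sum_eq_single s, Finset.sum_eq_single t, Finset.sum_eq_single u]
      · rw [if_pos ⟨rfl, rfl, rfl⟩]
      · intro q _ hq; rw [if_neg (fun h => hq h.2.2)]
      · intro h; exact absurd (Finset.mem_univ _) h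
      · intro q _ hq
        exact Finset.sum_eq_zero (fun r _ => if_neg (fun h => hq h.2.1))
      · intro h; exact absurd (Finset.mem_univ _) h
      · intro p _ hp
        exact Finset.sum_eq_zero (fun q _ => Finset.sum_eq_zero (fun r _ => if_neg (fun h => hp h.1)))
      · intro h; exact absurd (Finset.mem_univ _) h
    rw [h1]
    have h2 : ∑ p, ∑ q, ∑ r, (B q r s t u - B p r s t u + B p q s t u) • z p q r =
        ∑ p, ∑ q, B p q s t u • (∑ r, (z r p q - z p r q + z p q r)) := by
      simp only [add_smul, sub_smul, Finset.sum_add_distrib, Finset.sum_sub_distrib, smul_add, smul_sub,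
        Finset.smul_sum]
      have e1 : ∑ p, ∑ q, ∑ r, B q r s t u • z p q r = ∑ p, ∑ q, ∑ r, B p q s t u • z r p q := by
        rw [Finset.sum_comm]
        refine Finset.sum_congr rfl (fun q _ => ?_)
        rw [Finset.sum_comm]
      have e2 : ∑ p, ∑ q, ∑ r, B p r s t u • z p q r = ∑ p, ∑ q, ∑ r, B p q s t u • z p r q := by
        refine Finset.sum_congr rfl (fun q _ => ?_)
        rw [Finset.sum_comm]
      rw [e1, e2]
    rw [h2]
    refine Finset.sum_eq_zero (fun p _ => Finset.sum_eq_zero (fun q _ => ?_))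
    rw [hz0 p q, smul_zero]

end contraction

end Pool.Agent.W348
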