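import Pool.Agent.W348.G2

set_option autoImplicit false

namespace Pool.Agent.W348.Dat

/-- adjacency on the 21 vertices -/
def adjF (s t : Fin 21) : Prop := adjb s.1 t.1 = true

instance : DecidableRel adjF := fun s t => inferInstanceAs (Decidable (adjb s.1 t.1 = true))

theorem chkS : allN 21 (fun s => allN 21 (fun t => !(adjb s t) || adjb t s)) = true := by
  decide +kernel

theorem chkI : allN 21 (fun s => !(adjb s s)) = true := by
  decide +kernel

lemma adjF_symm (s t : Fin 21) (h : adjF s t) : adjF t s := by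
  have h1 := allN_spec _ _ (allN_spec _ _ chkS s) t
  have h2 : adjb s.1 t.1 = true := h
  rw [h2] at h1
  exact h1

lemma adjF_irr (s : Fin 21) : ¬ adjF s s := by
  intro h
  have h1 := allN_spec _ _ chkI s
  have h2 : adjb s.1 s.1 = true := h
  rw [h2] at h1
  exact absurd h1 (by decide)

lemma eb_iff (s t : Fin 21) : eb s.1 t.1 = true ↔ (s < t ∧ adjF s t) := by
  rw [eb, Bool.and_eq_true, blt_iff]
  rfl

lemma tb_iff (s t u : Fin 21) : tb s.1 t.1 u.1 = true ↔
    (s < t ∧ t < u ∧ adjF s t ∧ adjF s u ∧ adjF t u) := by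
  rw [tb, Bool.and_eq_true, eb_iff, Bool.and_eq_true, blt_iff, Bool.and_eq_true]
  constructor
  · rintro ⟨⟨h1, h2⟩, h3, h4, h5⟩
    exact ⟨h1, h3, h2, h4, h5⟩
  · rintro ⟨h1, h3, h2, h4, h5⟩
    exact ⟨⟨h1, h2⟩, h3, h4, h5⟩

lemma ind_beq (a b : Fin 21) : ind (Nat.beq a.1 b.1) = if a = b then 1 else 0 := by
  by_cases h : a = b
  · rw [if_pos h, h, Nat.beq_refl]; rfl
  · rw [if_neg h]
    have h1 : Nat.beq a.1 b.1 = false := by
      rw [Bool.eq_false_iff]
      intro h2
      exact h (Fin.ext (Nat.eq_of_beq_eq_true h2))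
    rw [h1]; rfl

lemma ind_and (a b : Bool) (P Q : Prop) [Decidable P] [Decidable Q] (h1 : ind a = if P then 1 else 0)
    (h2 : ind b = if Q then 1 else 0) : ind (a && b) = if P ∧ Q then 1 else 0 := by
  by_cases hP : P
  · rw [if_pos hP] at h1
    cases a with
    | false => exact absurd h1 (by decide)
    | true =>
      rw [Bool.true_and, h2]
      by_cases hQ : Q
      · rw [if_pos hQ, if_pos ⟨hP, hQ⟩]
      · rw [if_neg hQ, if_neg (fun h => hQ h.2)]
  · rw [if_neg hP] at h1
    cases a with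
    | false => rw [Bool.false_and, if_neg (fun h => hP h.1)]; rfl
    | true => exact absurd h1 (by decide)

lemma or_spec {a b : Bool} (h : (!a || b) = true) (ha : a = true) : b = true := by
  rw [ha] at h; exact h

theorem kexF (M : Type) [AddCommGroup M] : Kex adjF M := by
  refine Kex_of adjF M (4 : Fin 21) (fun v s t => av v.1 s.1 t.1)
    (fun p q s t u => Bv p.1 q.1 s.1 t.1 u.1) ?_ ?_ ?_ ?_ ?_
  · intro v s t h
    rw [← eb_iff, Bool.not_eq_true] at h
    rw [av, h]; rfl
  · intro p q s t u h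
    rw [← tb_iff, Bool.not_eq_true] at h
    rw [Bv, h]; rfl
  · intro v t
    have h := of_decide_eq_true (allN_spec _ _ (allN_spec _ _ chkA1 v) t)
    rw [sumN_eq, ind_beq] at h
    rw [h]
    congr 1
    exact ind_beq t 4
  · intro p q hpq hpq' s t hst hst'
    have h1 := or_spec (allN_spec _ _ (allN_spec _ _ chkB1 s) t) ((eb_iff s t).2 ⟨hst, hst'⟩)
    have h2 := or_spec (allN_spec _ _ (allN_spec _ _ h1 p) q) ((eb_iff p q).2 ⟨hpq, hpq'⟩)
    have h := of_decide_eq_true h2
    rw [sumF_eq _ _ _ (fun k hk => Bt_zero _ _ _ _ _ hk), sumN_eq,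
      ind_and _ _ (p = s) (q = t) (ind_beq p s) (ind_beq q t)] at h
    exact h
  · intro p q r hT s t u hT'
    have h1 := or_spec (allN_spec _ _ (allN_spec _ _ chkB2 p) q) ((eb_iff p q).2 ⟨hT.1, hT.2.2.1⟩)
    have h2 := or_spec (allN_spec _ _ h1 r) ((tb_iff p q r).2 hT)
    have h3 := or_spec (allN_spec _ _ (allN_spec _ _ h2 s) t) ((eb_iff s t).2 ⟨hT'.1, hT'.2.2.1⟩)
    have h4 := or_spec (allN_spec _ _ h3 u) ((tb_iff s t u).2 hT')
    have h := of_decide_eq_true h4
    rw [ind_and _ _ (p = s) (q = t ∧ r = u) (ind_beq p s)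
      (ind_and _ _ (q = t) (r = u) (ind_beq q t) (ind_beq r u))] at h
    exact h

end Pool.Agent.W348.Dat
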