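import Pool.Agent.W348.G3

set_option autoImplicit false

namespace Pool.Agent.W348

section words

variable {V : Type} [DecidableEq V]

/-- the vertex of the final letter -/
def lastv (y : FreeGroup V) : Option V := (y.toWord.getLast?).map Prod.fst

lemma lastv_one : lastv (1 : FreeGroup V) = none := by
  rw [lastv, FreeGroup.toWord_one]; rfl

lemma lastv_eq_none (y : FreeGroup V) : lastv y = none ↔ y = 1 := by
  rw [lastv, Option.map_eq_none_iff, List.getLast?_eq_none_iff, FreeGroup.toWord_eq_nil_iff]

lemma lastv_of_mul (s : V) (y : FreeGroup V) (h1 : y ≠ 1) (h2 : FreeGroup.of s * y ≠ 1) :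
    lastv (FreeGroup.of s * y) = lastv y := by
  have hw : (FreeGroup.of s * y).toWord = FreeGroup.reduce ((s, true) :: y.toWord) := by
    rw [FreeGroup.toWord_mul, FreeGroup.toWord_of]; rfl
  rw [FreeGroup.reduce.cons, FreeGroup.reduce_toWord] at hw
  have h1' : y.toWord ≠ [] := fun h => h1 (FreeGroup.toWord_eq_nil_iff.1 h)
  have h2' : (FreeGroup.of s * y).toWord ≠ [] := fun h => h2 (FreeGroup.toWord_eq_nil_iff.1 h)
  rw [lastv, lastv]
  cases hy : y.toWord with
  | nil => exact absurd hy h1'
  | cons hd tl =>
    rw [hy] at hw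
    simp only at hw
    split_ifs at hw with hc
    · rw [hw] at h2' ⊢
      rw [List.getLast?_cons_of_ne_nil h2']
    · rw [hw, List.getLast?_cons_of_ne_nil (List.cons_ne_nil _ _)]

lemma lastv_of (s : V) : lastv (FreeGroup.of s) = some s := by
  rw [lastv, FreeGroup.toWord_of]; rfl

lemma lastv_inv (s : V) : lastv ((FreeGroup.of s)⁻¹) = some s := by
  rw [lastv, FreeGroup.toWord_inv, FreeGroup.toWord_of]; rfl

/-- exponent sum -/
def expo : FreeGroup V →* Multiplicative ℤ := FreeGroup.lift (fun _ => Multiplicative.ofAdd 1)

end words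

section action

variable {V : Type} [DecidableEq V] (col : V → Fin 3) {X : Type} (T : (Fin 3 → Option V) → V → Equiv.Perm X)

/-- local transport -/
def Fs (G : Fin 3 → Option V) (s : V) (y : FreeGroup V) : Equiv.Perm X :=
  if y = 1 then T G s else if FreeGroup.of s * y = 1 then (T G s)⁻¹ else 1

/-- states -/
def Gs (x : Fin 3 → FreeGroup V) : Fin 3 → Option V := fun c => lastv (x c)

/-- transport of a generator -/
def th (x : Fin 3 → FreeGroup V) (s : V) : Equiv.Perm X :=
  Fs T (Function.update (Gs x) (col s) none) s (x (col s))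

/-- translation by a generator -/
def mv (s : V) (x : Fin 3 → FreeGroup V) : Fin 3 → FreeGroup V :=
  Function.update x (col s) (FreeGroup.of s * x (col s))

/-- backward translation by a generator -/
def mvi (s : V) (x : Fin 3 → FreeGroup V) : Fin 3 → FreeGroup V :=
  Function.update x (col s) ((FreeGroup.of s)⁻¹ * x (col s))

lemma mv_mvi (s : V) (x : Fin 3 → FreeGroup V) : mv col s (mvi col s x) = x := by
  rw [mv, mvi, Function.update_self, mul_inv_cancel_left, Function.update_idem, Function.update_eq_self]

lemma mvi_mv (s : V) (x : Fin 3 → FreeGroup V) : mvi col s (mv col s x) = x := by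
  rw [mv, mvi, Function.update_self, inv_mul_cancel_left, Function.update_idem, Function.update_eq_self]

/-- the permutation of a generator -/
def actS (s : V) : Equiv.Perm ((Fin 3 → FreeGroup V) × X) where
  toFun p := (mv col s p.1, th col T p.1 s p.2)
  invFun p := (mvi col s p.1, (th col T (mvi col s p.1) s)⁻¹ p.2)
  left_inv p := by
    simp only [mvi_mv]
    ext
    · rfl
    · simp
  right_inv p := by
    simp only [mv_mvi]
    ext
    · rfl
    · simp

/-- the action -/
def Ph : FreeGroup V →* Equiv.Perm ((Fin 3 → FreeGroup V) × X) := FreeGroup.lift (actS col T)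

lemma Ph_of (s : V) (p : (Fin 3 → FreeGroup V) × X) : Ph col T (FreeGroup.of s) p = (mv col s p.1, th col T p.1 s p.2) := by
  rw [Ph, FreeGroup.lift_apply_of]; rfl

lemma Ph_of_inv (s : V) (p : (Fin 3 → FreeGroup V) × X) :
    Ph col T (FreeGroup.of s)⁻¹ p = (mvi col s p.1, (th col T (mvi col s p.1) s)⁻¹ p.2) := by
  rw [map_inv, Ph, FreeGroup.lift_apply_of]; rfl

/-- the height -/
def ht (x : Fin 3 → FreeGroup V) : ℤ := ∑ c, Multiplicative.toAdd (expo (x c))

lemma ht_mv (s : V) (x : Fin 3 → FreeGroup V) : ht (mv col s x) = ht x + 1 := by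
  rw [ht, ht, ← Finset.add_sum_erase _ _ (Finset.mem_univ (col s)),
    ← Finset.add_sum_erase _ (fun c => Multiplicative.toAdd (expo (x c))) (Finset.mem_univ (col s))]
  have h1 : ∑ c ∈ Finset.univ.erase (col s), Multiplicative.toAdd (expo (mv col s x c)) =
      ∑ c ∈ Finset.univ.erase (col s), Multiplicative.toAdd (expo (x c)) := by
    refine Finset.sum_congr rfl (fun c hc => ?_)
    rw [mv, Function.update_of_ne (Finset.ne_of_mem_erase hc)]
  rw [h1, mv, Function.update_self, map_mul, toAdd_mul]
  have h2 : Multiplicative.toAdd (expo (FreeGroup.of s)) = 1 := by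
    rw [expo, FreeGroup.lift_apply_of]; rfl
  rw [h2]
  ring

lemma ht_mvi (s : V) (x : Fin 3 → FreeGroup V) : ht (mvi col s x) = ht x - 1 := by
  have := ht_mv col s (mvi col s x)
  rw [mv_mvi] at this
  rw [this, add_sub_cancel_right]

lemma ht_Ph (f : FreeGroup V) : ∀ p : (Fin 3 → FreeGroup V) × X,
    ht (Ph col T f p).1 = ht p.1 + Multiplicative.toAdd (expo f) := by
  induction f using FreeGroup.induction_on with
  | C1 => intro p; simp
  | of s =>
    intro p
    have h2 : Multiplicative.toAdd (expo (FreeGroup.of s)) = 1 := by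
      rw [expo, FreeGroup.lift_apply_of]; rfl
    rw [Ph_of, ht_mv, h2]
  | inv_of s _ =>
    intro p
    have h2 : Multiplicative.toAdd (expo (FreeGroup.of s)) = 1 := by
      rw [expo, FreeGroup.lift_apply_of]; rfl
    rw [Ph_of_inv, ht_mvi, map_inv, toAdd_inv, h2, sub_eq_add_neg]
  | mul f g hf hg =>
    intro p
    rw [map_mul, Equiv.Perm.mul_apply, hf, hg, map_mul, toAdd_mul]
    ring

variable {T} in
/-- commutation of transports, away from the origin -/
lemma Fs_comm (i j : Fin 3) (hij : i ≠ j) (s t : V) (G : Fin 3 → Option V) (hGi : G i = none) (hGj : G j = none)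
    (hT : T (Function.update G j (some t)) s * T G t = T (Function.update G i (some s)) t * T G s)
    (y z : FreeGroup V) :
    Fs T (Function.update G j (lastv (FreeGroup.of t * z))) s y * Fs T (Function.update G i (lastv y)) t z =
    Fs T (Function.update G i (lastv (FreeGroup.of s * y))) t z * Fs T (Function.update G j (lastv z)) s y := by
  have hGi' : Function.update G i none = G := by rw [← hGi, Function.update_eq_self]
  have hGj' : Function.update G j none = G := by rw [← hGj, Function.update_eq_self]
  by_cases hz : z = 1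
  · have e1 : lastv (FreeGroup.of t * z) = some t := by rw [hz, mul_one, lastv_of]
    have e2 : lastv z = none := by rw [hz, lastv_one]
    rw [e1, e2, hGj']
    by_cases hy : y = 1
    · have e3 : lastv (FreeGroup.of s * y) = some s := by rw [hy, mul_one, lastv_of]
      have e4 : lastv y = none := by rw [hy, lastv_one]
      rw [e3, e4, hGi']
      simp only [Fs, if_pos hy, if_pos hz]
      exact hT
    · by_cases hy2 : FreeGroup.of s * y = 1
      · have e3 : lastv (FreeGroup.of s * y) = none := by rw [hy2, lastv_one]
        have e4 : lastv y = some s := by rw [← inv_eq_of_mul_eq_one_right hy2, lastv_inv]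
        rw [e3, e4, hGi']
        simp only [Fs, if_neg hy, if_pos hy2, if_pos hz]
        rw [inv_mul_eq_iff_eq_mul, ← mul_assoc, eq_mul_inv_iff_mul_eq]
        exact hT.symm
      · rw [lastv_of_mul s y hy hy2]
        simp only [Fs, if_neg hy, if_neg hy2, one_mul, mul_one]
  · by_cases hz2 : FreeGroup.of t * z = 1
    · have e1 : lastv (FreeGroup.of t * z) = none := by rw [hz2, lastv_one]
      have e2 : lastv z = some t := by rw [← inv_eq_of_mul_eq_one_right hz2, lastv_inv]
      rw [e1, e2, hGj']
      by_cases hy : y = 1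
      · have e3 : lastv (FreeGroup.of s * y) = some s := by rw [hy, mul_one, lastv_of]
        have e4 : lastv y = none := by rw [hy, lastv_one]
        rw [e3, e4, hGi']
        simp only [Fs, if_pos hy, if_neg hz, if_pos hz2]
        rw [mul_inv_eq_iff_eq_mul, mul_assoc, eq_inv_mul_iff_mul_eq]
        exact hT.symm
      · by_cases hy2 : FreeGroup.of s * y = 1
        · have e3 : lastv (FreeGroup.of s * y) = none := by rw [hy2, lastv_one]
          have e4 : lastv y = some s := by rw [← inv_eq_of_mul_eq_one_right hy2, lastv_inv]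
          rw [e3, e4, hGi']
          simp only [Fs, if_neg hy, if_pos hy2, if_neg hz, if_pos hz2]
          rw [← mul_inv_rev, ← mul_inv_rev, inv_inj]
          exact hT.symm
        · rw [lastv_of_mul s y hy hy2]
          simp only [Fs, if_neg hy, if_neg hy2, one_mul, mul_one]
    · rw [lastv_of_mul t z hz hz2]
      simp only [Fs, if_neg hz, if_neg hz2, one_mul, mul_one]

end action

end Pool.Agent.W348
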