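import Pool.Agent.W348.H1

set_option autoImplicit false

namespace Pool.Agent.W348

section nonfp

variable {V : Type} [DecidableEq V] (adj : V → V → Prop) (col : V → Fin 3) {X : Type}
  (T : (Fin 3 → Option V) → V → Equiv.Perm X)
  (hcol : ∀ s t, adj s t → col s ≠ col t)
  (hT : ∀ s t, adj s t → ∀ G : Fin 3 → Option V, G (col s) = none → G (col t) = none → (∃ c, G c ≠ none) →
    T (Function.update G (col t) (some t)) s * T G t = T (Function.update G (col s) (some s)) t * T G s)

include hcol hT in
lemma Ph_comm (s t : V) (hst : adj s t) (p : (Fin 3 → FreeGroup V) × X) (hp : ht p.1 < -2) :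
    Ph col T (FreeGroup.of s) (Ph col T (FreeGroup.of t) p) =
      Ph col T (FreeGroup.of t) (Ph col T (FreeGroup.of s) p) := by
  obtain ⟨x, a⟩ := p
  have hij := hcol s t hst
  have hji : col t ≠ col s := fun h => hij h.symm
  rw [Ph_of, Ph_of, Ph_of, Ph_of]
  ext
  · simp only [mv]
    rw [Function.update_of_ne hij, Function.update_of_ne hji, Function.update_comm hij]
  · simp only
    rw [← Equiv.Perm.mul_apply, ← Equiv.Perm.mul_apply]
    congr 1
    have e1 : ∀ u, Gs (mv col u x) = Function.update (Gs x) (col u) (lastv (FreeGroup.of u * x (col u))) := by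
      intro u
      funext c
      by_cases hc : c = col u
      · subst hc
        rw [Gs, mv, Function.update_self, Function.update_self]
      · rw [Gs, mv, Function.update_of_ne hc, Function.update_of_ne hc, Gs]
    have e2 : mv col t x (col s) = x (col s) := by rw [mv, Function.update_of_ne hij]
    have e3 : mv col s x (col t) = x (col t) := by rw [mv, Function.update_of_ne hji]
    let G : Fin 3 → Option V := Function.update (Function.update (Gs x) (col s) none) (col t) none
    have hGs : G (col s) = none := by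
      simp only [G]
      rw [Function.update_of_ne hij, Function.update_self]
    have hGt : G (col t) = none := by
      simp only [G]
      rw [Function.update_self]
    have k1 : Function.update (Gs x) (col s) none = Function.update G (col t) (lastv (x (col t))) := by
      simp only [G]
      rw [Function.update_idem, eq_comm, Function.update_eq_self_iff, Function.update_of_ne hji, Gs]
    have k2 : Function.update (Gs x) (col t) none = Function.update G (col s) (lastv (x (col s))) := by
      simp only [G]
      rw [Function.update_comm hij, Function.update_idem, eq_comm, Function.update_eq_self_iff,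
        Function.update_of_ne hij, Gs]
    have k3 : Function.update (Gs (mv col t x)) (col s) none =
        Function.update G (col t) (lastv (FreeGroup.of t * x (col t))) := by
      rw [e1, Function.update_comm hji, k1, Function.update_idem]
    have k4 : Function.update (Gs (mv col s x)) (col t) none =
        Function.update G (col s) (lastv (FreeGroup.of s * x (col s))) := by
      rw [e1, Function.update_comm hij, k2, Function.update_idem]
    simp only [th]
    rw [e2, e3, k1, k2, k3, k4]
    by_cases hG : ∃ c, G c ≠ none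
    · exact Fs_comm (col s) (col t) hij s t G hGs hGt (hT s t hst G hGs hGt hG) _ _
    · -- the third coordinate is trivial
      push Not at hG
      have h3 : ∀ c, c ≠ col s → c ≠ col t → x c = 1 := by
        intro c h1 h2
        have := hG c
        simp only [G] at this
        rw [Function.update_of_ne h2, Function.update_of_ne h1, Gs, lastv_eq_none] at this
        exact this
      have hsum : ht x = Multiplicative.toAdd (expo (x (col s))) + Multiplicative.toAdd (expo (x (col t))) := by
        rw [ht]
        apply Finset.sum_eq_add _ _ hij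
        · intro c _ hc
          rw [h3 c hc.1 hc.2, map_one]; rfl
        · intro h; exact absurd (Finset.mem_univ _) h
        · intro h; exact absurd (Finset.mem_univ _) h
      have hex : ∀ (u : V) (y : FreeGroup V), (y = 1 ∨ FreeGroup.of u * y = 1) →
          -1 ≤ Multiplicative.toAdd (expo y) := by
        intro u y hy
        rcases hy with h | h
        · rw [h, map_one]; decide
        · rw [← inv_eq_of_mul_eq_one_right h, map_inv]
          have h2 : Multiplicative.toAdd (expo (FreeGroup.of u)) = 1 := by
            rw [expo, FreeGroup.lift_apply_of]; rfl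
          rw [toAdd_inv, h2]
      by_cases hy : x (col s) = 1 ∨ FreeGroup.of s * x (col s) = 1
      · by_cases hz : x (col t) = 1 ∨ FreeGroup.of t * x (col t) = 1
        · exfalso
          have h4 := hex s _ hy
          have h5 := hex t _ hz
          have h6 : ht x < -2 := hp
          rw [hsum] at h6
          linarith
        · push Not at hz
          rw [lastv_of_mul t _ hz.1 hz.2]
          simp only [Fs, if_neg hz.1, if_neg hz.2, one_mul, mul_one]
      · push Not at hy
        rw [lastv_of_mul s _ hy.1 hy.2]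
        simp only [Fs, if_neg hy.1, if_neg hy.2, one_mul, mul_one]

/-- elements acting trivially far down -/
def Nor : Subgroup (FreeGroup V) where
  carrier := {f | ∃ K : ℤ, ∀ p : (Fin 3 → FreeGroup V) × X, ht p.1 ≤ K → Ph col T f p = p}
  one_mem' := ⟨0, fun p _ => by rw [map_one]; rfl⟩
  mul_mem' := by
    rintro f g ⟨K, hK⟩ ⟨L, hL⟩
    refine ⟨min K L, fun p hp => ?_⟩
    rw [map_mul, Equiv.Perm.mul_apply, hL p (hp.trans (min_le_right _ _)), hK p (hp.trans (min_le_left _ _))]
  inv_mem' := by
    rintro f ⟨K, hK⟩
    refine ⟨K, fun p hp => ?_⟩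
    rw [map_inv, Equiv.Perm.inv_eq_iff_eq]
    exact (hK p hp).symm

instance Nor_normal : (Nor col T).Normal where
  conj_mem := by
    rintro f ⟨K, hK⟩ g
    refine ⟨K + Multiplicative.toAdd (expo g), fun p hp => ?_⟩
    rw [map_mul, map_mul, Equiv.Perm.mul_apply, Equiv.Perm.mul_apply, hK]
    · rw [← Equiv.Perm.mul_apply, ← map_mul, mul_inv_cancel, map_one]; rfl
    · rw [ht_Ph, map_inv, toAdd_inv]
      linarith

include hcol hT in
lemma rel_mem_Nor (f : FreeGroup V) (hf : PresentedGroup.mk (raagRel adj) f = 1) : f ∈ Nor col T := by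
  rw [PresentedGroup.mk_eq_one_iff] at hf
  refine (Subgroup.normalClosure_le_normal (N := Nor col T) ?_) hf
  rintro r ⟨s, t, hst, rfl⟩
  refine ⟨-1, fun p hp => ?_⟩
  have hz : ∃ z, Ph col T (FreeGroup.of t) (Ph col T (FreeGroup.of s) z) = p ∧ ht z.1 < -2 := by
    refine ⟨Ph col T (FreeGroup.of s)⁻¹ (Ph col T (FreeGroup.of t)⁻¹ p), ?_, ?_⟩
    · rw [← Equiv.Perm.mul_apply (Ph col T (FreeGroup.of s)), ← map_mul, mul_inv_cancel, map_one,
        Equiv.Perm.one_apply, ← Equiv.Perm.mul_apply, ← map_mul, mul_inv_cancel, map_one, Equiv.Perm.one_apply]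
    · have h2 : ∀ u : V, Multiplicative.toAdd (expo (FreeGroup.of u)⁻¹) = -1 := by
        intro u
        rw [map_inv, toAdd_inv, expo, FreeGroup.lift_apply_of]; rfl
      rw [ht_Ph, ht_Ph, h2, h2]
      linarith
  obtain ⟨z, hz1, hz2⟩ := hz
  have h1 : Ph col T (FreeGroup.of s * FreeGroup.of t * (FreeGroup.of s)⁻¹ * (FreeGroup.of t)⁻¹) p =
      Ph col T (FreeGroup.of s) (Ph col T (FreeGroup.of t) z) := by
    rw [← hz1, ← Equiv.Perm.mul_apply, ← Equiv.Perm.mul_apply, ← Equiv.Perm.mul_apply, ← map_mul, ← map_mul,
      ← map_mul]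
    congr 2
    group
  rw [h1, Ph_comm adj col T hcol hT s t hst z hz2, hz1]

/-- differences of generators -/
def dif : FreeGroup (V × V) →* FreeGroup V :=
  FreeGroup.lift (fun p => FreeGroup.of p.1 * (FreeGroup.of p.2)⁻¹)

lemma dif_of (u v : V) : dif (FreeGroup.of (u, v)) = FreeGroup.of u * (FreeGroup.of v)⁻¹ := by
  rw [dif, FreeGroup.lift_apply_of]

lemma expo_dif (f : FreeGroup (V × V)) : expo (dif f) = 1 := by
  have : expo.comp (dif (V := V)) = 1 := by
    apply FreeGroup.ext_hom
    rintro ⟨u, v⟩
    rw [MonoidHom.comp_apply, dif_of, map_mul, map_inv, expo, FreeGroup.lift_apply_of, FreeGroup.lift_apply_of]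
    simp
  exact DFunLike.congr_fun this f

/-- the level kernels -/
def Nk (k : ℕ) : Subgroup (FreeGroup (V × V)) where
  carrier := {f | ∀ p : (Fin 3 → FreeGroup V) × X, ht p.1 = -((k : ℤ) + 1) → Ph col T (dif f) p = p}
  one_mem' := fun p _ => by rw [map_one, map_one]; rfl
  mul_mem' := by
    intro f g hf hg p hp
    rw [map_mul, map_mul, Equiv.Perm.mul_apply, hg p hp, hf p hp]
  inv_mem' := by
    intro f hf p hp
    rw [map_inv, map_inv, Equiv.Perm.inv_eq_iff_eq]
    exact (hf p hp).symm

instance Nk_normal (k : ℕ) : (Nk col T k).Normal where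
  conj_mem := by
    intro f hf g p hp
    rw [map_mul, map_mul, map_mul, map_mul, Equiv.Perm.mul_apply, Equiv.Perm.mul_apply, hf]
    · rw [← Equiv.Perm.mul_apply, ← map_mul, ← map_mul, mul_inv_cancel, map_one, map_one]; rfl
    · rw [ht_Ph, expo_dif, hp]
      simp

include hcol hT in
theorem Nk_h1 (f : FreeGroup (V × V)) (hf : PresentedGroup.mk (raagRel adj) (dif f) = 1) :
    ∃ K : ℕ, ∀ k ≥ K, f ∈ Nk col T k := by
  obtain ⟨K, hK⟩ := rel_mem_Nor adj col T hcol hT _ hf
  refine ⟨(-K).toNat, fun k hk p hp => hK p ?_⟩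
  rw [hp]
  have := Int.self_le_toNat (-K)
  have h2 : ((-K).toNat : ℤ) ≤ k := by exact_mod_cast hk
  linarith

end nonfp

section loops

variable {V : Type} [DecidableEq V] (adj : V → V → Prop) (col : V → Fin 3) {X : Type}
  (T : (Fin 3 → Option V) → V → Equiv.Perm X) (hcol : ∀ s t, adj s t → col s ≠ col t)

/-- points in a coordinate plane -/
def pt2 (u v : V) (a b : ℕ) : Fin 3 → FreeGroup V :=
  Function.update (Function.update (fun _ => 1) (col u) ((FreeGroup.of u)⁻¹ ^ a)) (col v) ((FreeGroup.of v)⁻¹ ^ b)

/-- points on a coordinate axis -/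
def pt (u : V) (n : ℕ) : Fin 3 → FreeGroup V :=
  Function.update (fun _ => 1) (col u) ((FreeGroup.of u)⁻¹ ^ n)

/-- a single letter state -/
def sg (u : V) : Fin 3 → Option V := Function.update (fun _ => none) (col u) (some u)

/-- holonomy of an adjacent pair -/
def cc (u v : V) : Equiv.Perm X := (T (sg col v) u)⁻¹ * T (sg col u) v

lemma inv_pow_ne (u : V) (a : ℕ) (ha : a ≠ 0) : ((FreeGroup.of u)⁻¹ ^ a : FreeGroup V) ≠ 1 := by
  intro h
  have h1 := congrArg (fun f => Multiplicative.toAdd (expo f)) h
  have h2 : Multiplicative.toAdd (expo (FreeGroup.of u)) = 1 := by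
    rw [expo, FreeGroup.lift_apply_of]; rfl
  simp only [map_pow, map_inv, map_one, toAdd_pow, toAdd_inv, toAdd_one, h2] at h1
  simp at h1
  exact ha h1

lemma of_mul_inv_pow (u : V) (a : ℕ) : FreeGroup.of u * (FreeGroup.of u)⁻¹ ^ (a + 1) = (FreeGroup.of u)⁻¹ ^ a := by
  rw [pow_succ', mul_inv_cancel_left]

lemma lastv_inv_pow (u : V) (a : ℕ) : lastv ((FreeGroup.of u)⁻¹ ^ (a + 1)) = some u := by
  induction a with
  | zero => rw [zero_add, pow_one, lastv_inv]
  | succ a ih =>
    rw [← ih, ← of_mul_inv_pow u (a + 1)]
    symm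
    apply lastv_of_mul
    · exact inv_pow_ne u _ (Nat.succ_ne_zero _)
    · rw [of_mul_inv_pow]
      exact inv_pow_ne u _ (Nat.succ_ne_zero _)

lemma pt2_zero_right (u v : V) (h : col u ≠ col v) (n : ℕ) : pt2 col u v n 0 = pt col u n := by
  rw [pt2, pt, pow_zero, Function.update_eq_self_iff, Function.update_of_ne h.symm]

lemma pt2_zero_left (u v : V) (n : ℕ) : pt2 col u v 0 n = pt col v n := by
  rw [pt2, pt, pow_zero]
  congr 1
  rw [Function.update_eq_self_iff]

lemma Gs_pt2 (u v : V) (h : col u ≠ col v) (a b : ℕ) : Function.update (Gs (pt2 col u v a b)) (col v) none =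
    if a = 0 then (fun _ => none) else sg col u := by
  funext c
  by_cases hc : c = col v
  · subst hc
    rw [Function.update_self]
    split_ifs
    · rfl
    · rw [sg, Function.update_of_ne h.symm]
  · rw [Function.update_of_ne hc, Gs, pt2, Function.update_of_ne hc]
    by_cases hc2 : c = col u
    · subst hc2
      rw [Function.update_self]
      cases a with
      | zero => rw [pow_zero, lastv_one, if_pos rfl]
      | succ a => rw [lastv_inv_pow, if_neg (Nat.succ_ne_zero a), sg, Function.update_self]
    · rw [Function.update_of_ne hc2, lastv_one]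
      split_ifs
      · rfl
      · rw [sg, Function.update_of_ne hc2]

lemma pt2_symm (u v : V) (h : col u ≠ col v) (a b : ℕ) : pt2 col u v a b = pt2 col v u b a := by
  rw [pt2, pt2, Function.update_comm h]

/-- transport along the second coordinate -/
lemma th_pt2 (u v : V) (h : col u ≠ col v) (a b : ℕ) (ha : a ≠ 0) :
    th col T (pt2 col u v a (b + 1)) v = if b = 0 then (T (sg col u) v)⁻¹ else 1 := by
  rw [th, Gs_pt2 col u v h, if_neg ha]
  have h1 : pt2 col u v a (b + 1) (col v) = (FreeGroup.of v)⁻¹ ^ (b + 1) := by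
    rw [pt2, Function.update_self]
  rw [h1, Fs, if_neg (inv_pow_ne v _ (Nat.succ_ne_zero b)), of_mul_inv_pow]
  by_cases hb : b = 0
  · rw [if_pos hb, if_pos (by rw [hb, pow_zero])]
  · rw [if_neg hb, if_neg (inv_pow_ne v b hb)]

lemma mvi_pt2 (u v : V) (a b : ℕ) : mvi col v (pt2 col u v a b) = pt2 col u v a (b + 1) := by
  rw [mvi, pt2, Function.update_self, Function.update_idem, pt2, pow_succ']

lemma step_aux (u v : V) (h : col u ≠ col v) (n : ℕ) (j : X) : ∀ m ≤ n,
    Ph col T ((FreeGroup.of u * (FreeGroup.of v)⁻¹) ^ m) (pt2 col u v n 0, j) =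
      (pt2 col u v (n - m) m, ((if m = n then (T (sg col v) u)⁻¹ else 1) *
        (if m = 0 then 1 else T (sg col u) v)) j) ∨ n = 0 := by
  intro m hm
  induction m with
  | zero =>
    by_cases hn : n = 0
    · exact Or.inr hn
    · left
      rw [pow_zero, map_one, Equiv.Perm.one_apply, Nat.sub_zero, if_neg (fun h => hn h.symm), if_pos rfl, one_mul,
        Equiv.Perm.one_apply]
  | succ m ih =>
    rcases ih (Nat.le_of_succ_le hm) with ih | ih
    · left
      have hmn : m ≠ n := by omega
      rw [if_neg hmn, one_mul] at ih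
      rw [pow_succ', map_mul, Equiv.Perm.mul_apply, ih, map_mul, Equiv.Perm.mul_apply, Ph_of_inv]
      simp only
      rw [mvi_pt2, th_pt2 col T u v h (n - m) m (by omega), Ph_of]
      simp only
      obtain ⟨a, ha⟩ : ∃ a, n - m = a + 1 := ⟨n - m - 1, by omega⟩
      have h1 : mv col u (pt2 col u v (n - m) (m + 1)) = pt2 col u v (n - (m + 1)) (m + 1) := by
        rw [ha, pt2_symm col u v h, ← mvi_pt2, mv_mvi, pt2_symm col v u h.symm]
        congr 1
        omega
      have h2 : th col T (pt2 col u v (n - m) (m + 1)) u = if m + 1 = n then (T (sg col v) u)⁻¹ else 1 := by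
        rw [ha, pt2_symm col u v h, th_pt2 col T v u h.symm _ _ (Nat.succ_ne_zero m)]
        by_cases h3 : a = 0
        · rw [if_pos h3, if_pos (by omega)]
        · rw [if_neg h3, if_neg (by omega)]
      rw [h1, h2]
      congr 1
      rw [← Equiv.Perm.mul_apply, ← Equiv.Perm.mul_apply]
      congr 1
      rw [if_neg (Nat.succ_ne_zero m), mul_assoc]
      congr 1
      by_cases h3 : m = 0
      · rw [if_pos h3, if_pos h3, inv_inv, mul_one]
      · rw [if_neg h3, if_neg h3, inv_one, one_mul]
    · exact Or.inr ih

lemma step (u v : V) (h : col u ≠ col v) (n : ℕ) (j : X) :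
    Ph col T ((FreeGroup.of u * (FreeGroup.of v)⁻¹) ^ (n + 1)) (pt col u (n + 1), j) =
      (pt col v (n + 1), cc col T u v j) := by
  rcases step_aux col T u v h (n + 1) j (n + 1) le_rfl with h1 | h1
  · rw [pt2_zero_right col u v h, Nat.sub_self, pt2_zero_left, if_pos rfl, if_neg (Nat.succ_ne_zero n)] at h1
    exact h1
  · exact absurd h1 (Nat.succ_ne_zero n)

/-- path condition -/
def isP : V → List V → Prop
  | _, [] => True
  | u, v :: l => adj u v ∧ isP v l

/-- end of a path -/
def lastOf : V → List V → V
  | u, [] => u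
  | _, v :: l => lastOf v l

/-- holonomy along a path -/
def hol : V → List V → Equiv.Perm X
  | _, [] => 1
  | u, v :: l => hol v l * cc col T u v

/-- words along a path -/
def wd (n : ℕ) : V → List V → FreeGroup (V × V)
  | _, [] => 1
  | u, v :: l => wd n v l * FreeGroup.of (u, v) ^ n

include hcol in
lemma wd_act (n : ℕ) (l : List V) : ∀ (u : V) (j : X), isP adj u l →
    Ph col T (dif (wd (n + 1) u l)) (pt col u (n + 1), j) = (pt col (lastOf u l) (n + 1), hol col T u l j) := by
  induction l with
  | nil => intro u j _; rw [wd, map_one, map_one]; rfl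
  | cons v l ih =>
    intro u j hP
    rw [wd, map_mul, map_mul, Equiv.Perm.mul_apply, map_pow, dif_of, step col T u v (hcol u v hP.1), ih v _ hP.2]
    rfl

lemma wd_raag (hsymm : ∀ u v, adj u v → adj v u) (n : ℕ) (l : List V) : ∀ (u : V), isP adj u l →
    PresentedGroup.mk (raagRel adj) (dif (wd n u l)) = (gn adj (lastOf u l))⁻¹ ^ n * (gn adj u) ^ n := by
  induction l with
  | nil => intro u _; rw [wd, map_one, map_one, lastOf, inv_pow, inv_mul_cancel]
  | cons v l ih =>
    intro u hP
    have hc : Commute (gn adj u) (gn adj v)⁻¹ := (show Commute (gn adj u) (gn adj v) from gn_comm hP.1).inv_right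
    rw [wd, map_mul, map_mul, map_pow, map_pow, ih v hP.2, dif_of, map_mul, map_inv]
    have h1 : PresentedGroup.mk (raagRel adj) (FreeGroup.of u) * (PresentedGroup.mk (raagRel adj) (FreeGroup.of v))⁻¹
        = (gn adj v)⁻¹ * gn adj u := hc
    have hc' : Commute (gn adj v)⁻¹ (gn adj u) := hc.symm
    rw [h1, hc'.mul_pow, lastOf, mul_assoc, ← mul_assoc ((gn adj v) ^ n), inv_pow (gn adj v), mul_inv_cancel, one_mul]

include hcol in
theorem Nk_h2 (hsymm : ∀ u v, adj u v → adj v u) (u : V) (l : List V) (hP : isP adj u l) (hl : lastOf u l = u)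
    (hh : hol col T u l ≠ 1) (k : ℕ) :
    ∃ f, PresentedGroup.mk (raagRel adj) (dif f) = 1 ∧ f ∉ Nk col T k := by
  refine ⟨wd (k + 1) u l, ?_, ?_⟩
  · rw [wd_raag adj hsymm _ l u hP, hl, inv_pow, inv_mul_cancel]
  · intro hf
    apply hh
    ext j
    have h1 := hf (pt col u (k + 1), j) (by
      show ht (pt col u (k + 1)) = _
      rw [ht, Finset.sum_eq_single (col u)]
      · rw [pt, Function.update_self, map_pow, map_inv]
        have h2 : Multiplicative.toAdd (expo (FreeGroup.of u)) = 1 := by
          rw [expo, FreeGroup.lift_apply_of]; rfl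
        rw [toAdd_pow, toAdd_inv, h2]
        simp
      · intro c _ hc
        rw [pt, Function.update_of_ne hc, map_one]; rfl
      · intro h; exact absurd (Finset.mem_univ _) h)
    rw [wd_act adj col T hcol k l u j hP] at h1
    have h2 := congrArg Prod.snd h1
    simp only at h2
    rw [h2]
    rfl

end loops

end Pool.Agent.W348
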