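import Pool.Agent.W348.H2
import Pool.Agent.W348.E1

set_option autoImplicit false

namespace Pool.Agent.W348

section bb

variable {V : Type} (adj : V → V → Prop)

/-- total exponent sum -/
def chi : Raag adj →* Multiplicative ℤ := raagLift (fun _ => Multiplicative.ofAdd 1) (fun _ _ _ => rfl)

lemma chi_gn (v : V) : chi adj (gn adj v) = Multiplicative.ofAdd 1 := raagLift_gn _ _ v

/-- the level-zero subgroup -/
def HH : Subgroup (Raag adj) := (chi adj).ker

lemma mem_HH (a : Raag adj) : a ∈ HH adj ↔ chi adj a = 1 := MonoidHom.mem_ker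

/-- differences of generators -/
def bb (p : V × V) : HH adj := ⟨gn adj p.1 * (gn adj p.2)⁻¹, by
  rw [mem_HH, map_mul, map_inv, chi_gn, chi_gn, mul_inv_cancel]⟩

lemma val_lift (f : FreeGroup (V × V)) :
    ((FreeGroup.lift (bb adj) f : HH adj) : Raag adj) = PresentedGroup.mk (raagRel adj) (dif f) := by
  have : (HH adj).subtype.comp (FreeGroup.lift (bb adj)) = (PresentedGroup.mk (raagRel adj)).comp dif := by
    apply FreeGroup.ext_hom
    rintro ⟨u, v⟩
    rw [MonoidHom.comp_apply, MonoidHom.comp_apply, FreeGroup.lift_apply_of, dif, FreeGroup.lift_apply_of, map_mul,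
      map_inv]
    rfl
  exact DFunLike.congr_fun this f

variable (hconn : ∀ u v, Relation.ReflTransGen adj u v)

include hconn in
theorem lift_surj [Nonempty V] : Function.Surjective (FreeGroup.lift (bb adj)) := by
  let K : Subgroup (Raag adj) := ((PresentedGroup.mk (raagRel adj)).comp dif).range
  have hK1 : ∀ u v, gn adj u * (gn adj v)⁻¹ ∈ K := by
    intro u v
    refine ⟨FreeGroup.of (u, v), ?_⟩
    rw [MonoidHom.comp_apply, dif, FreeGroup.lift_apply_of, map_mul, map_inv]
    rfl
  have hcomm : ∀ u v, adj u v → (gn adj v)⁻¹ * gn adj u = gn adj u * (gn adj v)⁻¹ := by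
    intro u v h
    exact ((show Commute (gn adj u) (gn adj v) from gn_comm h).inv_right).eq.symm
  have hcomm2 : ∀ u v, adj u v → (gn adj u)⁻¹ * gn adj v = gn adj v * (gn adj u)⁻¹ := by
    intro u v h
    exact ((show Commute (gn adj u) (gn adj v) from gn_comm h).symm.inv_right).eq.symm
  have hK2 : ∀ u v, (gn adj u)⁻¹ * gn adj v ∈ K := by
    intro u v
    induction hconn u v with
    | refl => rw [inv_mul_cancel]; exact Subgroup.one_mem _
    | tail _ h ih =>
      rename_i x y _
      have h1 : (gn adj u)⁻¹ * gn adj y = ((gn adj u)⁻¹ * gn adj x) * ((gn adj x)⁻¹ * gn adj y) := by group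
      rw [h1, hcomm2 x y h]
      exact Subgroup.mul_mem _ ih (hK1 _ _)
  have hK3 : ∀ w u v, gn adj w * (gn adj u * (gn adj v)⁻¹) * (gn adj w)⁻¹ ∈ K := by
    intro w u v
    induction hconn u v with
    | refl => rw [mul_inv_cancel, mul_one, mul_inv_cancel]; exact Subgroup.one_mem _
    | tail _ h ih =>
      rename_i x y _
      have h1 : gn adj w * (gn adj u * (gn adj y)⁻¹) * (gn adj w)⁻¹ =
          (gn adj w * (gn adj u * (gn adj x)⁻¹) * (gn adj w)⁻¹) *
          ((gn adj w * (gn adj x)⁻¹) * (gn adj x * (gn adj x * (gn adj y)⁻¹) * (gn adj x)⁻¹) *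
            (gn adj x * (gn adj w)⁻¹)) := by group
      have h2 : gn adj x * (gn adj x * (gn adj y)⁻¹) * (gn adj x)⁻¹ = gn adj x * (gn adj y)⁻¹ := by
        have h3 : gn adj x * (gn adj x * (gn adj y)⁻¹) * (gn adj x)⁻¹ =
            gn adj x * ((gn adj y)⁻¹ * gn adj x) * (gn adj x)⁻¹ := by rw [hcomm x y h]
        rw [h3]; group
      rw [h1, h2]
      exact Subgroup.mul_mem _ ih (Subgroup.mul_mem _ (Subgroup.mul_mem _ (hK1 _ _) (hK1 _ _)) (hK1 _ _))
  have hK4 : ∀ w u v, (gn adj w)⁻¹ * (gn adj u * (gn adj v)⁻¹) * gn adj w ∈ K := by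
    intro w u v
    induction hconn u v with
    | refl => rw [mul_inv_cancel, mul_one, inv_mul_cancel]; exact Subgroup.one_mem _
    | tail _ h ih =>
      rename_i x y _
      have h1 : (gn adj w)⁻¹ * (gn adj u * (gn adj y)⁻¹) * (gn adj w) =
          ((gn adj w)⁻¹ * (gn adj u * (gn adj x)⁻¹) * (gn adj w)) *
          (((gn adj w)⁻¹ * (gn adj x)) * ((gn adj x)⁻¹ * (gn adj x * (gn adj y)⁻¹) * (gn adj x)) *
            ((gn adj x)⁻¹ * (gn adj w))) := by group
      have h2 : (gn adj x)⁻¹ * (gn adj x * (gn adj y)⁻¹) * (gn adj x) = gn adj x * (gn adj y)⁻¹ := by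
        rw [inv_mul_cancel_left, hcomm x y h]
      rw [h1, h2]
      exact Subgroup.mul_mem _ ih (Subgroup.mul_mem _ (Subgroup.mul_mem _ (hK2 _ _) (hK1 _ _)) (hK2 _ _))
  -- conjugation by generators
  have hconj : ∀ w, ∀ k ∈ K, gn adj w * k * (gn adj w)⁻¹ ∈ K := by
    rintro w _ ⟨f, rfl⟩
    induction f using FreeGroup.induction_on with
    | C1 => rw [map_one, mul_one, mul_inv_cancel]; exact Subgroup.one_mem _
    | of p =>
      rw [MonoidHom.comp_apply, dif, FreeGroup.lift_apply_of, map_mul, map_inv]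
      exact hK3 w p.1 p.2
    | inv_of p ih =>
      have h1 := Subgroup.inv_mem _ ih
      rw [map_inv]
      convert h1 using 1
      group
    | mul f g hf hg =>
      have h1 := Subgroup.mul_mem _ hf hg
      rw [map_mul]
      convert h1 using 1
      group
  have hconj' : ∀ w, ∀ k ∈ K, (gn adj w)⁻¹ * k * (gn adj w) ∈ K := by
    rintro w _ ⟨f, rfl⟩
    induction f using FreeGroup.induction_on with
    | C1 => rw [map_one, mul_one, inv_mul_cancel]; exact Subgroup.one_mem _
    | of p =>
      rw [MonoidHom.comp_apply, dif, FreeGroup.lift_apply_of, map_mul, map_inv]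
      exact hK4 w p.1 p.2
    | inv_of p ih =>
      have h1 := Subgroup.inv_mem _ ih
      rw [map_inv]
      convert h1 using 1
      group
    | mul f g hf hg =>
      have h1 := Subgroup.mul_mem _ hf hg
      rw [map_mul]
      convert h1 using 1
      group
  obtain ⟨v0⟩ := (inferInstance : Nonempty V)
  have hz : ∀ (n : ℤ), ∀ k ∈ K, gn adj v0 ^ n * k * gn adj v0 ^ (-n) ∈ K := by
    intro n
    induction n using Int.induction_on with
    | zero => intro k hk; simpa using hk
    | succ n ih =>
      intro k hk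
      have h1 := ih _ (hconj v0 k hk)
      convert h1 using 1
      group
    | pred n ih =>
      intro k hk
      have h1 := ih _ (hconj' v0 k hk)
      convert h1 using 1
      group
  have hall : ∀ g : Raag adj, g * gn adj v0 ^ (-(Multiplicative.toAdd (chi adj g))) ∈ K := by
    intro g
    have hg : g ∈ Subgroup.closure (Set.range (gn adj)) := by rw [closure_gn]; exact Subgroup.mem_top _
    refine Subgroup.closure_induction (p := fun g _ => g * gn adj v0 ^ (-(Multiplicative.toAdd (chi adj g))) ∈ K)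
      ?_ ?_ ?_ ?_ hg
    · rintro _ ⟨u, rfl⟩
      rw [chi_gn, toAdd_ofAdd, zpow_neg_one]
      exact hK1 _ _
    · rw [map_one, toAdd_one, neg_zero, zpow_zero, mul_one]; exact Subgroup.one_mem _
    · intro x y _ _ hx hy
      have h1 := Subgroup.mul_mem _ hx (hz (Multiplicative.toAdd (chi adj x)) _ hy)
      convert h1 using 1
      rw [map_mul, toAdd_mul]
      group
    · intro x _ hx
      have h1 := hz (-(Multiplicative.toAdd (chi adj x))) _ (Subgroup.inv_mem _ hx)
      convert h1 using 1
      rw [map_inv, toAdd_inv]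
      group
  rintro ⟨g, hg⟩
  have h1 := hall g
  rw [mem_HH] at hg
  rw [hg, toAdd_one, neg_zero, zpow_zero, mul_one] at h1
  obtain ⟨f, hf⟩ := h1
  refine ⟨f, ?_⟩
  apply Subtype.ext
  rw [val_lift]
  exact hf

include hconn in
/-- the fibre product is not of type `FP_2` -/
theorem fibre_not_fp [Finite V] [Nonempty V] [DecidableEq V] (hsymm : ∀ u v, adj u v → adj v u)
    (col : V → Fin 3) {X : Type} (T : (Fin 3 → Option V) → V → Equiv.Perm X)
    (hcol : ∀ s t, adj s t → col s ≠ col t)
    (hT : ∀ s t, adj s t → ∀ G : Fin 3 → Option V, G (col s) = none → G (col t) = none → (∃ c, G c ≠ none) →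
      T (Function.update G (col t) (some t)) s * T G t = T (Function.update G (col s) (some s)) t * T G s)
    (u : V) (l : List V) (hP : isP adj u l) (hl : lastOf u l = u) (hh : hol col T u l ≠ 1) :
    ¬ Module.FinitePresentation (MonoidAlgebra ℤ (FP (bb adj))) (augI ℤ (FP (bb adj))) := by
  have hlift : ∀ f : FreeGroup (V × V), FreeGroup.lift (bb adj) f = 1 ↔
      PresentedGroup.mk (raagRel adj) (dif f) = 1 := by
    intro f
    rw [← val_lift, Subtype.ext_iff]
    rfl
  refine not_fp (bb adj) (Nk col T) (lift_surj adj hconn) ?_ ?_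
  · intro f hf
    exact Nk_h1 adj col T hcol hT f ((hlift f).1 hf)
  · intro k
    obtain ⟨f, hf, hf'⟩ := Nk_h2 adj col T hcol hsymm u l hP hl hh k
    exact ⟨f, (hlift f).2 hf, hf'⟩

end bb

end Pool.Agent.W348
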