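import Pool.Agent.W348.H3

set_option autoImplicit false

namespace Pool.Agent.W348.Dat

/-- transport table -/
def CF : ℕ := 0x46888d111a2234446888d111a2102e46888d10604cc09c6888d111a2234446888d108170c09c6888d111a2234446888d111a2234446888d100b8817146888d111a2234446888d10a06634402e28d111a2234446888d111a2234446888d111a21a22468868891a2234446888d108386344468868891a2234446888d111a2234446888d10cc0998146888d111a2234446888d111a20a0e468866051a2234446888d111a2234446888d10c18a34446888d111a2234446888d111a22344031360c51a2234446888d111a2234446888d111a20a81c68811a31a2234446888d111a2234446888d10540c468c6888d111a2234446888d10604d070c6888d111a2234446888d111a2234446888d10838634446888d111a20189c6888d10a06634446888d111a2234446888d111a2234446888d111a20189c6888d111a2234446888d111a2140cc68868891a2234446888d111a2234446888d111a22344468850331a2234446888d105070468c6888d111a2234446888d111a2234446888d111a22344468828391a2234446888d10c188a0e46888d111a2234446888d111a2234446888d111a2234446888d111a2183146888d111a21831468811a31a2234446888d111a2234446888d111a2234446888d111a22344468811a31a2234446888d111a2234446888d111a2234446888d111a2234446888d111a2234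446888d111a2234446888d111a2234446888d111a2234446888d111a2234446888d111a2234446888d111a2234446888d111a2234446888d111a2234446888d111a2234446888d111a2234446888d111a2234446888d111a2234446888d111a2234446888d111a2234446888d111a2234446888d111a2234446888d111a2234446888d10540c171205c8d10540d02e468805c51a2234446888d111a2234446888d111a2234446888d10cc0a344468830268386344468866051a20c09c6888d111a2234446888d111a2234446888d100c4e344468850331a21a2246888d111a22344468868891a2234446888d111a2234446888d111a21831141c11a31a2234446888d111a2234446888d111a2234446888d111a2234446888d111a2234446888d111a2234446888d111a2234446888d111a2234446888d111a2234446888d111a223444688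

/-- transports as functions -/
def cf (x y : Fin 21) (i : Fin 5) : Fin 5 :=
  ⟨((CF >>> (3 * (5 * (21 * x.1 + y.1) + i.1))) % 8) % 5, Nat.mod_lt _ (by decide)⟩

theorem chkC : ∀ x y : Fin 21, ∀ i : Fin 5, cf y x (cf x y i) = i := by
  decide +kernel

/-- transports as permutations -/
def cP (x y : Fin 21) : Equiv.Perm (Fin 5) := ⟨cf x y, cf y x, chkC x y, chkC y x⟩

/-- colours -/
def colF (s : Fin 21) : Fin 3 := if s.1 < 5 then 0 else if s.1 < 15 then 1 else 2

theorem colF_ne : ∀ s t : Fin 21, adjF s t → colF s ≠ colF t := by
  decide +kernel

/-- transport to the least vertex of a clique -/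
def P3 (x y s z : Fin 21) : Equiv.Perm (Fin 5) :=
  if adjF x y ∧ adjF x s ∧ adjF y s then cP z (min x (min y s)) else 1

/-- the second transport -/
def P2 (x y s : Fin 21) : Equiv.Perm (Fin 5) :=
  if adjF s y then P3 x y s x * cP (min x y) x else P3 x y s y * cP (min x y) y

/-- the first transport -/
def P1 (x s : Fin 21) : Equiv.Perm (Fin 5) := if s < x then cP x s else 1

/-- transports by states -/
def T3 : Option (Fin 21) → Option (Fin 21) → Option (Fin 21) → Fin 21 → Equiv.Perm (Fin 5)
  | some x, none, none, s => P1 x s
  | none, some x, none, s => P1 x s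
  | none, none, some x, s => P1 x s
  | some x, some y, none, s => P2 x y s
  | some x, none, some y, s => P2 x y s
  | none, some x, some y, s => P2 x y s
  | _, _, _, _ => 1

/-- transports by states -/
def TF (G : Fin 3 → Option (Fin 21)) (s : Fin 21) : Equiv.Perm (Fin 5) := T3 (G 0) (G 1) (G 2) s

/-- single states -/
def sgk (k : Fin 3) (g : Fin 21) : Fin 3 → Option (Fin 21) := fun c => if c = k then some g else none

/-- double states -/
def dbk (k : Fin 3) (g : Fin 21) (j : Fin 3) (t : Fin 21) : Fin 3 → Option (Fin 21) :=
  fun c => if c = j then some t else if c = k then some g else none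

theorem chkT : ∀ s t : Fin 21, adjF s t → ∀ k : Fin 3, k ≠ colF s → k ≠ colF t → ∀ g : Fin 21, ∀ i : Fin 5,
    TF (dbk k g (colF t) t) s (TF (sgk k g) t i) = TF (dbk k g (colF s) s) t (TF (sgk k g) s i) := by
  decide +kernel

end Pool.Agent.W348.Dat
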